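import Pool.Agent.H500.ME.Mean8
import Pool.Agent.H17.ME.CYC
import Pool.Agent.H728.ME.DUI
import Pool.Agent.H396.ME.TRI
import Pool.Agent.H405.ME.PUR

set_option autoImplicit false

/-!
# The mean value theorems, without hypotheses
-/

namespace Pool.Agent.H500.ME

open NumberField IsDedekindDomain Filter Topology Polynomial
open Pool.Agent.H500.ED

theorem all_CYC : S_CYC := Pool.Agent.H17.ME.CYC.main all_NMC all_ACM all_FXC
theorem all_DUI : S_DUI := Pool.Agent.H728.ME.DUI.main
theorem all_TRI : S_TRI := Pool.Agent.H396.ME.TRI.main all_FXC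
theorem all_PUR : S_PUR := Pool.Agent.H405.ME.PUR.main all_WT

end Pool.Agent.H500.ME
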