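import Pool.Agent.H500.ME.Mean8

set_option autoImplicit false
set_option linter.unusedSectionVars false

/-!
# The absolute values of the roots of `P v`
-/

namespace Pool.Agent.H500.ME

open NumberField IsDedekindDomain Filter Topology Polynomial
open Pool.Agent.W401.Cheb (GK IsFrob IsInert dens)
open Pool.Agent.H500.HC (InRay QBar ZBar jz)
open Pool.Agent.H500.SV (Above Fld)
open Pool.Agent.H500.ZO (PotHecke SemiS)
open Pool.Agent.H500.MW (PosUD)
open Pool.Agent.H500.TH (SolRes)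
open Pool.Agent.H500.ED
open Pool.Agent.Q92.AR (Dv Ray prin)
open Pool.Agent.H870.ME.WT (tt purity units_zero sum_tt norm_typU norm_sq prin_eq mem_ray coprime_of)

section
variable {K : Type} [Field K] [NumberField K]

theorem weight_all {M : ℕ} (hM : 0 < M) {t : (K →+* QBar) → ℤ} {φ : Dv K →+ Additive QBarˣ}
    (hφ : IsAlg M t φ) (τ : QBar →+* ℂ) : ∃ m : ℤ,
    (m * Module.finrank ℚ K = 2 * ∑ σ, t σ) ∧
    ∀ w : HeightOneSpectrum (𝓞 K), (M : 𝓞 K) ∉ w.asIdeal →
      ‖τ (at1 φ w)‖ ^ 2 = (Ideal.absNorm w.asIdeal : ℝ) ^ m := by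
  obtain ⟨m, hm⟩ := purity (tt τ t) (units_zero hM hφ τ)
  refine ⟨m, ?_, ?_⟩
  · have h1 : ∑ χ : K →+* ℂ, tt τ t (ComplexEmbedding.conjugate χ) = ∑ χ : K →+* ℂ, tt τ t χ :=
      Fintype.sum_equiv (Function.Involutive.toPerm _
        (ComplexEmbedding.involutive_conjugate K)) _ _ fun χ => rfl
    have h2 : ∑ χ : K →+* ℂ, (tt τ t χ + tt τ t (ComplexEmbedding.conjugate χ)) =
        ∑ _χ : K →+* ℂ, m := Finset.sum_congr rfl fun χ _ => hm χ
    rw [Finset.sum_add_distrib, h1, sum_tt, Finset.sum_const, Finset.card_univ,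
      NumberField.Embeddings.card, nsmul_eq_mul] at h2
    linarith
  · obtain ⟨h, R, hh, -, hcl⟩ := Pool.Agent.H199.HC.Cls.main K M hM
    intro w hw
    obtain ⟨x, hx, hwx⟩ := (hcl w.asIdeal w.ne_bot (coprime_of hw)).1
    have hxK : (x : K) ≠ 0 := by exact_mod_cast hx.1
    set X : Kˣ := Units.mk0 (x : K) hxK with hXdef
    have hX : (X : K) = x := rfl
    have h1 := hφ X (mem_ray hx X hX)
    rw [prin_eq X hX hwx, map_nsmul] at h1
    have h2 : (at1 φ w) ^ h = ((typU t X : QBarˣ) : QBar) := by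
      have h3 := congrArg (fun a : Additive QBarˣ => ((a.toMul : QBarˣ) : QBar)) h1
      exact h3
    have h3 : ‖τ (at1 φ w)‖ ^ h = ∏ χ : K →+* ℂ, ‖χ (x : K)‖ ^ tt τ t χ := by
      rw [← norm_pow, ← map_pow, h2, norm_typU, hX]
    have h4 := norm_sq (tt τ t) m hm hx.1
    rw [← h3, ← hwx, map_pow] at h4
    have h5 : (‖τ (at1 φ w)‖ ^ 2) ^ h = ((Ideal.absNorm w.asIdeal : ℝ) ^ m) ^ h := by
      rw [← pow_mul, mul_comm 2 h, pow_mul, h4]
      push_cast
      rw [← zpow_natCast, ← zpow_natCast, ← zpow_mul, ← zpow_mul, mul_comm]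
    exact (pow_left_inj₀ (by positivity) (by positivity) hh.ne').1 h5

/-- the weight, at all places which do not divide `M` -/
theorem wt_all {M : ℕ} (hM : 0 < M) {t : (K →+* QBar) → ℤ} {φ : Dv K →+ Additive QBarˣ}
    (hφ : IsAlg M t φ) : ∃ m : ℤ, ∀ (τ : QBar →+* ℂ) (w : HeightOneSpectrum (𝓞 K)),
      (M : 𝓞 K) ∉ w.asIdeal → ‖τ (at1 φ w)‖ ^ 2 = (Ideal.absNorm w.asIdeal : ℝ) ^ m := by
  obtain ⟨m, hm, -⟩ := weight_all hM hφ Pool.Agent.H870.ME.WT.emb0
  refine ⟨m, fun τ => ?_⟩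
  obtain ⟨m', hm', h⟩ := weight_all hM hφ τ
  have hd : (Module.finrank ℚ K : ℤ) ≠ 0 := by
    have : 0 < Module.finrank ℚ K := Module.finrank_pos
    omega
  have h1 : m' = m := mul_right_cancel₀ hd (hm'.trans hm.symm)
  rw [← h1]
  exact h

theorem inert_one (v : HeightOneSpectrum (𝓞 K)) : IsInert v (1 : GK K) := by
  obtain ⟨σ, Q, hQ, hQv, -⟩ := (Pool.Agent.W401.Frob.main K).1 v
  exact ⟨Q, hQ, hQv, fun x => by rw [one_smul, sub_self]; exact Q.zero_mem⟩

/-- products of linear factors -/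
theorem perm_of {R : Type} [CommRing R] [IsDomain R] {n : ℕ} {a b : Fin n → R}
    (h : ∏ i, (X - Polynomial.C (a i)) = ∏ i, (X - Polynomial.C (b i))) :
    ∃ π : Equiv.Perm (Fin n), ∀ i, a i = b (π i) := by
  classical
  have h2 : ∀ c : Fin n → R, (∏ i, (X - Polynomial.C (c i))).roots =
      Multiset.map c Finset.univ.val := by
    intro c
    have h3 : ∏ i, (X - Polynomial.C (c i)) =
        ((Multiset.map c Finset.univ.val).map fun a => X - Polynomial.C a).prod := by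
      rw [Multiset.map_map]
      rfl
    rw [h3, roots_multiset_prod_X_sub_C]
  have h1 := congrArg Polynomial.roots h
  rw [h2, h2] at h1
  apply Pool.Agent.H738.HC.Chars.perm_of_card
  intro x
  have h4 := congrArg (Multiset.count x) h1
  rw [Multiset.count_map, Multiset.count_map] at h4
  have h5 : ∀ c : Fin n → R, (Finset.univ.filter fun i => c i = x).card =
      (Multiset.filter (fun i => x = c i) (Finset.univ : Finset (Fin n)).val).card := by
    intro c
    have h6 : (Finset.univ.filter fun i => c i = x) = Finset.univ.filter fun i => x = c i :=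
      Finset.filter_congr fun i _ => eq_comm
    rw [h6]
    rfl
  rw [h5, h5]
  exact h4

end

section
variable {K E : Type} [Field K] [NumberField K] [Field E] [NumberField E]

/-- **The roots of `P v` are pure, with weights independent of `v`.** -/
theorem ram (N n : ℕ) (hN : 2 ≤ N) (P : HeightOneSpectrum (𝓞 K) → (𝓞 E)[X])
    (hP : PosUD (SolRes N n P)) : ∃ m : Fin n → ℤ, ∀ (τ : E →+* ℂ) (v : HeightOneSpectrum (𝓞 K)),
      (N : 𝓞 K) ∉ v.asIdeal → ∃ α : Fin n → ℂ,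
        (P v).map (τ.comp (algebraMap (𝓞 E) E)) = ∏ i, (X - Polynomial.C (α i)) ∧
        ∀ i, ‖α i‖ = (Ideal.absNorm v.asIdeal : ℝ) ^ ((m i : ℝ) / 2) := by
  classical
  let j : E →+* QBar := ((IsAlgClosed.lift : E →ₐ[ℚ] QBar) : E →+* QBar)
  obtain ⟨U, L, _, _, _, ι, ε, e, t, ψ, H, hFX, -⟩ := sol_ed all_FXE all_FXF j N n hN P hP
  have hHecke : ∀ i, IsHecke (N ^ (e + 1)) N (t i) (ψ i) := fun i =>
    { cop := H.cop i
      typ := fun x hx => H.typ i x
        (Pool.Agent.H500.HC.InRay.mono (pow_dvd_pow N (Nat.le_succ e)) hx) }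
  have hpos : 0 < N ^ (e + 1) := pow_pos (by omega) _
  have h2 := fun i => all_DIV L (N ^ (e + 1)) N (t i) (ψ i) hpos
    (dvd_pow_self N (Nat.succ_ne_zero e)) (hHecke i)
  choose φ hφ1 hφ2 using h2
  have h3 := fun i => wt_all hpos (hφ1 i)
  choose m hm using h3
  refine ⟨m, fun τ v hv => ?_⟩
  obtain ⟨τ', hτ⟩ := exists_ext j τ
  -- a place above `v`
  obtain ⟨w, hw, -⟩ := H.fld.inert' v 1 (by rw [map_one]; exact inert_one v)
  obtain ⟨f, hf, -⟩ := H.fld.frob v w hw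
  have hwN : (N : 𝓞 L) ∉ w.asIdeal := fun h =>
    hv ((Pool.Agent.H894.TH.TFin.above_nat hw N).2 h)
  have hwM : ((N ^ (e + 1) : ℕ) : 𝓞 L) ∉ w.asIdeal := by
    intro h
    rw [Nat.cast_pow] at h
    exact hwN (w.isPrime.mem_of_pow_mem _ h)
  obtain ⟨hmon, hdeg⟩ := H.monic v hv
  obtain ⟨α, hα⟩ := Pool.Agent.H500.HC.exists_alpha j hmon hdeg
  obtain ⟨π, hπ⟩ := perm_of (H.eq v w f α hv hw hf hα)
  have hone := one_lt_norm w
  have hone' := one_lt_norm v
  have hf0 : f ≠ 0 := by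
    rintro rfl
    rw [pow_zero] at hf
    omega
  refine ⟨fun i => τ' (α (π.symm i) : QBar), ?_, fun i => ?_⟩
  · have h4 : (τ'.comp (algebraMap ZBar QBar)).comp (jz j) = τ.comp (algebraMap (𝓞 E) E) := by
      rw [← hτ]
      rfl
    rw [← h4, ← Polynomial.map_map, hα, Polynomial.map_prod]
    refine (Fintype.prod_equiv π.symm _ _ fun i => ?_).symm
    rw [Polynomial.map_sub, Polynomial.map_X, Polynomial.map_C]
    rfl
  · have h5 := hπ (π.symm i)
    rw [Equiv.apply_symm_apply] at h5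
    have h6 := hm i τ' w hwM
    rw [hφ2 i w hwN, ← h5, hf] at h6
    have e1 : ((α (π.symm i) ^ f : ZBar) : QBar) = (α (π.symm i) : QBar) ^ f := rfl
    rw [e1, map_pow, norm_pow] at h6
    have hb0 : (0 : ℝ) < (Ideal.absNorm v.asIdeal : ℝ) := by
      exact_mod_cast (by omega : 0 < Ideal.absNorm v.asIdeal)
    have h7 : (‖τ' (α (π.symm i) : QBar)‖ ^ 2) ^ f =
        ((Ideal.absNorm v.asIdeal : ℝ) ^ (m i)) ^ f := by
      rw [← pow_mul, mul_comm, pow_mul, h6, Nat.cast_pow, ← zpow_natCast, ← zpow_natCast,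
        ← zpow_mul, ← zpow_mul, mul_comm]
    have h8 : ‖τ' (α (π.symm i) : QBar)‖ ^ 2 = (Ideal.absNorm v.asIdeal : ℝ) ^ (m i) :=
      (pow_left_inj₀ (by positivity) (by positivity) hf0).1 h7
    have h9 : (((Ideal.absNorm v.asIdeal : ℝ) ^ ((m i : ℝ) / 2))) ^ 2 =
        (Ideal.absNorm v.asIdeal : ℝ) ^ (m i) := by
      rw [← Real.rpow_natCast, ← Real.rpow_mul hb0.le, ← Real.rpow_intCast]
      congr 1
      push_cast
      ring
    exact (pow_left_inj₀ (norm_nonneg _) (by positivity) two_ne_zero).1 (h8.trans h9.symm)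

end

end Pool.Agent.H500.ME
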