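import Pool.Agent.H500.ME.Mean9

set_option autoImplicit false
set_option linter.unusedSectionVars false

/-!
# The adjoint representation and irreducibility
-/

namespace Pool.Agent.H500.ME

open NumberField IsDedekindDomain Filter Topology Polynomial
open Pool.Agent.H500.ZO (SemiS)

section
variable {G : Type} [Group G] {n : ℕ} {C : Type} [Field C]

/-- the index set of `V ⊗ V*` -/
abbrev AI (n : ℕ) : Type := (Fin 1 → Fin n) × (Fin 1 → Fin n)

/-- numbering -/
noncomputable def ae (n : ℕ) : AI n ≃ Fin (Fintype.card (AI n)) := Fintype.equivFin _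

/-- the matrices of `V ⊗ V*` -/
noncomputable def adM : GL (Fin n) C →*
    Matrix (Fin (Fintype.card (AI n))) (Fin (Fintype.card (AI n))) C where
  toFun A := (TT 1 1 A).submatrix (ae n).symm (ae n).symm
  map_one' := by rw [map_one, Matrix.submatrix_one_equiv]
  map_mul' A B := by rw [map_mul, Matrix.submatrix_mul_equiv]

/-- `V ⊗ V*` -/
noncomputable def adj (ρ : G →* GL (Fin n) C) : G →* GL (Fin (Fintype.card (AI n))) C :=
  (adM (n := n) (C := C)).toHomUnits.comp ρ

theorem adj_apply (ρ : G →* GL (Fin n) C) (g : G) :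
    (adj ρ g : Matrix (Fin (Fintype.card (AI n))) (Fin (Fintype.card (AI n))) C) =
      (tens 1 1 ρ g).submatrix (ae n).symm (ae n).symm := by
  rw [tens_eq]
  rfl

/-- the intertwiner -/
noncomputable def adT (n : ℕ) (C : Type) [Field C] : Matrix (AI n) (Fin (Fintype.card (AI n))) C :=
  (1 : Matrix (AI n) (AI n) C).submatrix id (ae n).symm

theorem adT_mulVec (x : Fin (Fintype.card (AI n)) → C) (y : AI n) :
    (adT n C).mulVec x y = x (ae n y) := by
  have h0 : (adT n C).mulVec x y = ∑ k, adT n C y k * x k := rfl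
  have h1 : ∀ k, adT n C y k = if y = (ae n).symm k then 1 else 0 := fun k => rfl
  rw [h0, Finset.sum_eq_single (ae n y)]
  · rw [h1, if_pos (Equiv.symm_apply_apply _ _).symm, one_mul]
  · intro k _ hk
    rw [h1, if_neg, zero_mul]
    rintro rfl
    exact hk (Equiv.apply_symm_apply _ _).symm
  · intro h
    exact absurd (Finset.mem_univ _) h

theorem adT_inj (x : Fin (Fintype.card (AI n)) → C) (h : (adT n C).mulVec x = 0) : x = 0 := by
  funext k
  have h1 := congrFun h ((ae n).symm k)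
  rw [adT_mulVec, Equiv.apply_symm_apply] at h1
  exact h1

theorem adT_comm (ρ : G →* GL (Fin n) C) (g : G) : tens 1 1 ρ g * adT n C = adT n C *
    (adj ρ g : Matrix (Fin (Fintype.card (AI n))) (Fin (Fintype.card (AI n))) C) := by
  rw [adj_apply]
  unfold adT
  ext x k
  rw [Matrix.mul_apply, Matrix.mul_apply, Finset.sum_eq_single ((ae n).symm k),
    Finset.sum_eq_single (ae n x)]
  · rw [Matrix.submatrix_apply, Matrix.submatrix_apply, Matrix.submatrix_apply, id,
      Matrix.one_apply_eq, mul_one, id, Equiv.symm_apply_apply, Matrix.one_apply_eq, one_mul]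
  · intro l _ hl
    rw [Matrix.submatrix_apply, id, Matrix.one_apply_ne, zero_mul]
    rintro rfl
    exact hl (Equiv.apply_symm_apply _ _).symm
  · intro h
    exact absurd (Finset.mem_univ _) h
  · intro y _ hy
    rw [Matrix.submatrix_apply, id, Matrix.one_apply_ne hy, mul_zero]
  · intro h
    exact absurd (Finset.mem_univ _) h

theorem adj_trace (ρ : G →* GL (Fin n) C) (g : G) :
    (adj ρ g : Matrix (Fin (Fintype.card (AI n))) (Fin (Fintype.card (AI n))) C).trace =
      (ρ g : Matrix (Fin n) (Fin n) C).trace * (ρ g⁻¹ : Matrix (Fin n) (Fin n) C).trace := by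
  have h1 := (all_TEN G n 1 1 C ρ).2.2.1 g
  rw [pow_one, pow_one] at h1
  rw [← h1, adj_apply]
  unfold Matrix.trace
  exact Fintype.sum_equiv (ae n).symm _ _ fun k => rfl

/-- a matrix as a vector -/
noncomputable def vec (X : Matrix (Fin n) (Fin n) C) : Fin (Fintype.card (AI n)) → C :=
  fun k => X (((ae n).symm k).1 0) (((ae n).symm k).2 0)

theorem vec_ae (X : Matrix (Fin n) (Fin n) C) (i j : Fin n) :
    vec X (ae n (fun _ => i, fun _ => j)) = X i j := by
  unfold vec
  rw [Equiv.symm_apply_apply]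

theorem adj_vec (ρ : G →* GL (Fin n) C) (g : G) (X : Matrix (Fin n) (Fin n) C) :
    (adj ρ g : Matrix (Fin (Fintype.card (AI n))) (Fin (Fintype.card (AI n))) C).mulVec (vec X) =
      vec ((ρ g : Matrix (Fin n) (Fin n) C) * X * (ρ g⁻¹ : Matrix (Fin n) (Fin n) C)) := by
  funext k
  rw [adj_apply]
  unfold Matrix.mulVec dotProduct
  have h1 : ∑ l, (tens 1 1 ρ g).submatrix (ae n).symm (ae n).symm k l * vec X l =
      ∑ y : AI n, tens 1 1 ρ g ((ae n).symm k) y * X (y.1 0) (y.2 0) :=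
    Fintype.sum_equiv (ae n).symm _ _ fun l => rfl
  rw [h1, Fintype.sum_prod_type]
  have h2 : ∀ f : (Fin 1 → Fin n) → C, ∑ y, f y = ∑ i : Fin n, f (fun _ => i) := by
    intro f
    exact Fintype.sum_equiv (Equiv.funUnique (Fin 1) (Fin n)) _ _ fun y => by
      congr 1
      funext t
      rw [Subsingleton.elim t default]
      rfl
  rw [h2]
  show _ = ((ρ g : Matrix (Fin n) (Fin n) C) * X * (ρ g⁻¹ : Matrix (Fin n) (Fin n) C))
    (((ae n).symm k).1 0) (((ae n).symm k).2 0)
  rw [Matrix.mul_apply]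
  simp only [Matrix.mul_apply, Finset.sum_mul, h2]
  rw [Finset.sum_comm]
  refine Finset.sum_congr rfl fun j _ => Finset.sum_congr rfl fun i _ => ?_
  unfold tens
  rw [Fin.prod_univ_one, Fin.prod_univ_one]
  ring

/-- **Irreducibility** -/
theorem irr_of (ρ : G →* GL (Fin n) C) (hρ : SemiS ρ) (hn : 0 < n) (χ : G →* Cˣ)
    (h : Module.finrank C (Eig (adj ρ) χ 0) ≤ 1) (Y : Submodule C (Fin n → C))
    (hY : ∀ g, ∀ u ∈ Y, (ρ g : Matrix (Fin n) (Fin n) C).mulVec u ∈ Y) : Y = ⊥ ∨ Y = ⊤ := by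
  classical
  obtain ⟨Z, hZ, hc⟩ := hρ Y hY
  let p : (Fin n → C) →ₗ[C] (Fin n → C) := Submodule.projection Y Z hc
  have hpY : ∀ u ∈ Y, p u = u := fun u hu => Submodule.projection_apply_left hc ⟨u, hu⟩
  have hpZ : ∀ u ∈ Z, p u = 0 := fun u hu => Submodule.projection_apply_right hc ⟨u, hu⟩
  let X : Matrix (Fin n) (Fin n) C := LinearMap.toMatrix' p
  have hX : ∀ u, X.mulVec u = p u := fun u => by
    show (LinearMap.toMatrix' p).mulVec u = p u
    rw [← Matrix.toLin'_apply, Matrix.toLin'_toMatrix']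
  have hinv : ∀ g, (ρ g : Matrix (Fin n) (Fin n) C) * (ρ g⁻¹ : Matrix (Fin n) (Fin n) C) = 1 := by
    intro g
    rw [← Units.val_mul, ← map_mul, mul_inv_cancel, map_one, Units.val_one]
  have hcomm : ∀ g, (ρ g : Matrix (Fin n) (Fin n) C) * X = X * (ρ g : Matrix (Fin n) (Fin n) C) := by
    intro g
    apply Matrix.ext_of_mulVec_single
    intro i
    rw [← Matrix.mulVec_mulVec, ← Matrix.mulVec_mulVec, hX, hX]
    obtain ⟨y, hy, z, hz, hyz⟩ := Submodule.mem_sup.1
      (show (Pi.single i 1 : Fin n → C) ∈ Y ⊔ Z by rw [hc.sup_eq_top]; trivial)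
    rw [← hyz, map_add, hpY y hy, hpZ z hz, add_zero, Matrix.mulVec_add, map_add,
      hpY _ (hY g y hy), hpZ _ (hZ g z hz), add_zero]
  have hmem : ∀ A : Matrix (Fin n) (Fin n) C, (∀ g, (ρ g : Matrix (Fin n) (Fin n) C) * A =
      A * (ρ g : Matrix (Fin n) (Fin n) C)) → vec A ∈ Eig (adj ρ) χ 0 := by
    intro A hA
    rw [mem_Eig]
    intro g
    rw [adj_vec, hA g, Matrix.mul_assoc, hinv, Matrix.mul_one, zpow_zero, Units.val_one, one_smul]
  obtain ⟨v, hv⟩ := finrank_le_one_iff.1 h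
  obtain ⟨c1, hc1⟩ := hv ⟨vec 1, hmem 1 fun g => by rw [mul_one, one_mul]⟩
  obtain ⟨c2, hc2⟩ := hv ⟨vec X, hmem X hcomm⟩
  have hc1' : c1 • (v : Fin (Fintype.card (AI n)) → C) = vec 1 := congrArg Subtype.val hc1
  have hc2' : c2 • (v : Fin (Fintype.card (AI n)) → C) = vec X := congrArg Subtype.val hc2
  have hc0 : c1 ≠ 0 := by
    rintro rfl
    rw [zero_smul] at hc1'
    have h1 := congrFun hc1' (ae n (fun _ => ⟨0, hn⟩, fun _ => ⟨0, hn⟩))
    rw [vec_ae, Matrix.one_apply_eq] at h1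
    exact zero_ne_one h1
  have hX1 : X = (c2 * c1⁻¹) • (1 : Matrix (Fin n) (Fin n) C) := by
    ext i j
    rw [← vec_ae X i j, ← hc2', Matrix.smul_apply, ← vec_ae (1 : Matrix (Fin n) (Fin n) C) i j,
      ← hc1', Pi.smul_apply, Pi.smul_apply, smul_eq_mul, smul_eq_mul, smul_eq_mul, mul_assoc,
      inv_mul_cancel_left₀ hc0]
  have hp : ∀ u, p u = (c2 * c1⁻¹) • u := by
    intro u
    rw [← hX, hX1, Matrix.smul_mulVec, Matrix.one_mulVec]
  by_cases hc3 : c2 * c1⁻¹ = 0
  · left
    rw [Submodule.eq_bot_iff]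
    intro u hu
    rw [← hpY u hu, hp, hc3, zero_smul]
  · right
    have hZ0 : Z = ⊥ := by
      rw [Submodule.eq_bot_iff]
      intro u hu
      have h1 := hp u
      rw [hpZ u hu] at h1
      exact (smul_eq_zero.1 h1.symm).resolve_left hc3
    have h2 := hc.sup_eq_top
    rwa [hZ0, sup_bot_eq] at h2

/-- the trace of the inverse -/
theorem trace_inv_of (A : GL (Fin n) C) (a : Fin n → C)
    (h : (A : Matrix (Fin n) (Fin n) C).charpoly = ∏ i, (X - Polynomial.C (a i))) :
    ((A⁻¹ : GL (Fin n) C) : Matrix (Fin n) (Fin n) C).trace = ∑ i, (a i)⁻¹ := by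
  classical
  have hdet : (A : Matrix (Fin n) (Fin n) C).det = ∏ i, a i := by
    rw [Matrix.det_eq_sign_charpoly_coeff, h, Polynomial.coeff_zero_eq_eval_zero,
      Polynomial.eval_prod, Fintype.card_fin]
    simp only [Polynomial.eval_sub, Polynomial.eval_X, Polynomial.eval_C, zero_sub]
    rw [Finset.prod_neg, Finset.card_univ, Fintype.card_fin, ← mul_assoc, ← mul_pow]
    norm_num
  have hA : IsUnit (A : Matrix (Fin n) (Fin n) C) := A.isUnit
  have hd0 : (A : Matrix (Fin n) (Fin n) C).det ≠ 0 :=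
    ((Matrix.isUnit_iff_isUnit_det _).1 hA).ne_zero
  have ha : ∀ i, a i ≠ 0 := by
    intro i hi
    apply hd0
    rw [hdet]
    exact Finset.prod_eq_zero (Finset.mem_univ i) hi
  have h1 := Matrix.charpoly_inv (A : Matrix (Fin n) (Fin n) C) hA
  rw [← Matrix.reverse_charpoly, h, rev_split, Fintype.card_fin, Ring.inverse_eq_inv', hdet] at h1
  have h2 : (-1 : C[X]) ^ n * Polynomial.C (∏ i, a i)⁻¹ * ∏ i, (1 - Polynomial.C (a i) * X) =
      ∏ i, (X - Polynomial.C (a i)⁻¹) := by
    have h3 : (-1 : C[X]) ^ n = ∏ _i : Fin n, (-1 : C[X]) := by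
      rw [Finset.prod_const, Finset.card_univ, Fintype.card_fin]
    rw [h3, ← Finset.prod_inv_distrib, map_prod, ← Finset.prod_mul_distrib,
      ← Finset.prod_mul_distrib]
    refine Finset.prod_congr rfl fun i _ => ?_
    have h4 : Polynomial.C (a i)⁻¹ * Polynomial.C (a i) = 1 := by
      rw [← Polynomial.C_mul, inv_mul_cancel₀ (ha i), Polynomial.C_1]
    linear_combination X * h4
  rw [h2] at h1
  have h5 : ((A⁻¹ : GL (Fin n) C) : Matrix (Fin n) (Fin n) C) =
      (A : Matrix (Fin n) (Fin n) C)⁻¹ := Matrix.coe_units_inv A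
  rw [h5, Matrix.trace_eq_neg_charpoly_nextCoeff, h1, prod_X_sub_C_nextCoeff, neg_neg]

end

end Pool.Agent.H500.ME
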