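import Pool.Agent.H500.ME.Adj
import Pool.Agent.H500.ME.Ram

set_option autoImplicit false
set_option linter.unusedSectionVars false

/-!
# Irreducibility from the Rankin-Selberg sum
-/

namespace Pool.Agent.H500.ME

open NumberField IsDedekindDomain Filter Topology Polynomial
open Pool.Agent.W401.Cheb (GK IsFrob IsInert dens)
open Pool.Agent.H500.HC (InRay QBar ZBar jz)
open Pool.Agent.H500.SV (Above Fld)
open Pool.Agent.H500.ZO (PotHecke SemiS)
open Pool.Agent.H500.MW (PosUD)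
open Pool.Agent.H500.TH (SolRes)
open Pool.Agent.H500.ED

section
variable {K E : Type} [Field K] [NumberField K] [Field E] [NumberField E]

/-- the squares of the absolute values of the normalized traces -/
noncomputable def GV (N : ℕ) (P : HeightOneSpectrum (𝓞 K) → (𝓞 E)[X]) (τ : E →+* ℂ) (w : ℤ)
    (v : HeightOneSpectrum (𝓞 K)) : ℝ := by
  classical
  exact if (N : 𝓞 K) ∈ v.asIdeal then 0 else
    ‖τ ((P v).nextCoeff : E)‖ ^ 2 / (Ideal.absNorm v.asIdeal : ℝ) ^ (w : ℝ)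

theorem GV_pos {N : ℕ} {P : HeightOneSpectrum (𝓞 K) → (𝓞 E)[X]} {τ : E →+* ℂ} {w : ℤ}
    {v : HeightOneSpectrum (𝓞 K)} (hv : (N : 𝓞 K) ∉ v.asIdeal) : GV N P τ w v =
      ‖τ ((P v).nextCoeff : E)‖ ^ 2 / (Ideal.absNorm v.asIdeal : ℝ) ^ (w : ℝ) := if_neg hv

theorem GV_neg {N : ℕ} {P : HeightOneSpectrum (𝓞 K) → (𝓞 E)[X]} {τ : E →+* ℂ} {w : ℤ}
    {v : HeightOneSpectrum (𝓞 K)} (hv : (N : 𝓞 K) ∈ v.asIdeal) : GV N P τ w v = 0 := if_pos hv

/-- the mean value of the squares of the absolute values of the traces is the dimension of the space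
of endomorphisms -/
theorem mean_adj (N n : ℕ) (hN : 2 ≤ N)
    (P : HeightOneSpectrum (𝓞 K) → (𝓞 E)[X]) (hP : PosUD (SolRes N n P)) (w0 : ℤ) (τ0 : E →+* ℂ)
    (hpure : ∀ v : HeightOneSpectrum (𝓞 K), (N : 𝓞 K) ∉ v.asIdeal →
      ∀ z ∈ ((P v).map (τ0.comp (algebraMap (𝓞 E) E))).roots,
        ‖z‖ = (Ideal.absNorm v.asIdeal : ℝ) ^ ((w0 : ℝ) / 2))
    (ℓ : ℕ) [hℓ : Fact ℓ.Prime] (κ0 : E →+* PadicAlgCl ℓ)
    (ρ : GK K →* GL (Fin n) (PadicAlgCl ℓ)) (hρ : Att N n P ℓ κ0 ρ)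
    (χ : GK K →* (PadicAlgCl ℓ)ˣ) (hχ : IsCyc ℓ χ) :
    MV (fun v => ((GV N P τ0 w0 v : ℝ) : ℂ))
      (Module.finrank (PadicAlgCl ℓ) (Eig (adj ρ) χ 0) : ℂ) := by
  classical
  let j : E →+* QBar := ((IsAlgClosed.lift : E →ₐ[ℚ] QBar) : E →+* QBar)
  obtain ⟨κ, hκ⟩ := exists_ext j κ0
  obtain ⟨ε, hε⟩ := exists_ext j τ0
  obtain ⟨U, L, _, _, _, ι, e, hU, hUo, hFX, hpot⟩ := pot all_PUR j N n hN P hP w0 τ0 hpure
  obtain ⟨Q, Φ, hAC, hQ⟩ := hpot ℓ κ ρ (by rw [hκ]; exact hρ)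
  obtain ⟨hinjL, hranL, -, -, -, -, -⟩ := all_FXC K _ L ι e hUo hFX
  obtain ⟨Q', Φ', hAC', hQ'⟩ := sub_tens hranL hAC Q hQ 1 1 _ (adj ρ) (adT n (PadicAlgCl ℓ))
    adT_inj (adT_comm ρ)
  have hAC2 : ∀ k, AC κ (-0) (Φ' k) := by
    intro k
    have h1 := hAC' k
    have h2 : -w0 * (((1 : ℕ) : ℤ) - ((1 : ℕ) : ℤ)) = -0 := by push_cast; ring
    rw [h2] at h1
    exact h1
  -- the roots
  have hmon := Pool.Agent.H500.TH.monic_sol N n P hP.infinite
  have hex : ∀ v : HeightOneSpectrum (𝓞 K), ∃ α : Fin n → ZBar, (N : 𝓞 K) ∉ v.asIdeal →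
      (P v).map (jz j) = ∏ i, (X - Polynomial.C (α i)) := by
    intro v
    by_cases hv : (N : 𝓞 K) ∉ v.asIdeal
    · obtain ⟨α, hα⟩ := Pool.Agent.H500.HC.exists_alpha j (hmon v hv).1 (hmon v hv).2
      exact ⟨α, fun _ => hα⟩
    · exact ⟨0, fun h => absurd h hv⟩
  choose α hα using hex
  let av : HeightOneSpectrum (𝓞 K) → QBar := fun v =>
    (∑ i, (α v i : QBar)) * ∑ i, (α v i : QBar)⁻¹
  have h1 : ∀ᶠ v : HeightOneSpectrum (𝓞 K) in cofinite,
      (∀ s, IsInert v s → cjr Q' (adj ρ) s = 1) ∧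
      ∀ s, IsFrob v s → κ (av v) = (cjr Q' (adj ρ) s⁻¹ : Matrix (Fin (Fintype.card (AI n)))
        (Fin (Fintype.card (AI n))) (PadicAlgCl ℓ)).trace := by
    filter_upwards [ev_not_mem (K := K) (N := N) (by omega), ev_not_mem (K := K) hℓ.out.pos]
      with v hv hvℓ
    refine ⟨fun s hs => ?_, fun s hs => ?_⟩
    · have h2 : adj ρ s = 1 := by
        show (adM (n := n) (C := PadicAlgCl ℓ)).toHomUnits (ρ s) = 1
        rw [hρ.unr v hv hvℓ s hs, map_one]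
      rw [cjr_apply, h2, mul_one, inv_mul_cancel]
    · have h3 : (ρ s⁻¹ : Matrix (Fin n) (Fin n) (PadicAlgCl ℓ)).charpoly =
          ∏ i, (X - Polynomial.C (κ (α v i : QBar))) := by
        rw [hρ.frob v hv hvℓ s hs]
        have h4 : (κ.comp (algebraMap ZBar QBar)).comp (jz j) = κ0.comp (algebraMap (𝓞 E) E) := by
          rw [← hκ]
          rfl
        rw [← h4, ← Polynomial.map_map, hα v hv, Polynomial.map_prod]
        refine Finset.prod_congr rfl fun i _ => ?_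
        rw [Polynomial.map_sub, Polynomial.map_X, Polynomial.map_C]
        rfl
      have h5 := trace_inv_of (ρ s⁻¹) _ h3
      rw [cjr_trace, adj_trace, inv_inv, Matrix.trace_eq_neg_charpoly_nextCoeff, h3,
        prod_X_sub_C_nextCoeff, neg_neg]
      have h6 : (ρ s⁻¹)⁻¹ = ρ s := by rw [map_inv, inv_inv]
      rw [h6] at h5
      rw [h5]
      show κ ((∑ i, (α v i : QBar)) * ∑ i, (α v i : QBar)⁻¹) = _
      rw [map_mul, map_sum, map_sum]
      congr 1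
      exact Finset.sum_congr rfl fun i _ => map_inv₀ κ _
  have h2 := (mean_geom all_CYC all_DUI hU hUo hFX hAC2 (ρ := cjr Q' (adj ρ)) hQ' ε av h1 χ hχ).1 0
    (by norm_num)
  rw [eig_cjr, neg_zero] at h2
  refine (all_MVB K).2.2.2 _ _ _ h2 ?_
  filter_upwards [ev_not_mem (K := K) (N := N) (by omega)] with v hv
  have hpos : (0 : ℝ) < (Ideal.absNorm v.asIdeal : ℝ) := Pool.Agent.H358.ME.ACM.norm_pos v
  rw [GV_pos hv]
  have h7 : nf 0 v = 1 := nf_zero v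
  rw [h7, div_one]
  have hα2 : (P v).map (τ0.comp (algebraMap (𝓞 E) E)) =
      ∏ i, (X - Polynomial.C (ε (α v i : QBar))) := by
    have h4 : (ε.comp (algebraMap ZBar QBar)).comp (jz j) = τ0.comp (algebraMap (𝓞 E) E) := by
      rw [← hε]
      rfl
    rw [← h4, ← Polynomial.map_map, hα v hv, Polynomial.map_prod]
    refine Finset.prod_congr rfl fun i _ => ?_
    rw [Polynomial.map_sub, Polynomial.map_X, Polynomial.map_C]
    rfl
  have hnorm : ∀ i, ‖ε (α v i : QBar)‖ = (Ideal.absNorm v.asIdeal : ℝ) ^ ((w0 : ℝ) / 2) := by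
    intro i
    refine hpure v hv _ ?_
    rw [hα2, mem_roots (monic_prod_of_monic _ _ fun k _ => monic_X_sub_C _).ne_zero, IsRoot,
      eval_prod]
    exact Finset.prod_eq_zero (Finset.mem_univ i) (by simp)
  have h8 : τ0 ((P v).nextCoeff : E) = -∑ i, ε (α v i : QBar) := by
    have h9 := congrArg Polynomial.nextCoeff hα2
    rw [Polynomial.nextCoeff_map (show Function.Injective (τ0.comp (algebraMap (𝓞 E) E)) from
      τ0.injective.comp RingOfIntegers.coe_injective), prod_X_sub_C_nextCoeff] at h9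
    exact h9
  rw [h8, norm_neg]
  have hsq : (Ideal.absNorm v.asIdeal : ℝ) ^ (w0 : ℝ) =
      ((Ideal.absNorm v.asIdeal : ℝ) ^ ((w0 : ℝ) / 2)) ^ 2 := by
    rw [← Real.rpow_natCast, ← Real.rpow_mul hpos.le]
    congr 1
    push_cast
    ring
  have hinv : ∀ i, (ε (α v i : QBar))⁻¹ = (starRingEnd ℂ) (ε (α v i : QBar)) /
      (((Ideal.absNorm v.asIdeal : ℝ) ^ (w0 : ℝ) : ℝ) : ℂ) := by
    intro i
    rw [Complex.inv_def, Complex.normSq_eq_norm_sq, hnorm i, ← hsq, div_eq_mul_inv,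
      Complex.ofReal_inv]
  show ε ((∑ i, (α v i : QBar)) * ∑ i, (α v i : QBar)⁻¹) = _
  rw [map_mul, map_sum, map_sum]
  have h10 : ∑ i, ε ((α v i : QBar)⁻¹) = (starRingEnd ℂ) (∑ i, ε (α v i : QBar)) /
      (((Ideal.absNorm v.asIdeal : ℝ) ^ (w0 : ℝ) : ℝ) : ℂ) := by
    rw [map_sum, Finset.sum_div]
    exact Finset.sum_congr rfl fun i _ => by rw [map_inv₀, hinv i]
  rw [h10, ← mul_div_assoc, Complex.mul_conj, Complex.normSq_eq_norm_sq]
  push_cast
  rfl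

end

end Pool.Agent.H500.ME
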