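import Pool.Agent.H500.ME.Parts0

set_option autoImplicit false
set_option linter.unusedSectionVars false

/-!
# Mean values of algebraic Hecke characters; descent
-/

namespace Pool.Agent.H500.ME

open NumberField IsDedekindDomain Filter Topology Polynomial
open Pool.Agent.W401.Cheb (GK IsFrob IsInert dens)
open Pool.Agent.H500.HC (InRay QBar ZBar jz)
open Pool.Agent.H500.SV (Above Fld)
open Pool.Agent.H500.ED
open Pool.Agent.Q92.AR (Dv Ray prin)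
open Pool.Agent.H358.ME.ACM (at1_add at1_neg at1_ne norm_pos)

/-- descent -/
def S_DSC : Prop := ∀ (K : Type) [Field K] [NumberField K] (U : Subgroup (GK K)) (L : Type) [Field L]
  [NumberField L] [Algebra K L] (ι : GK L →* GK K)
  (e : AlgebraicClosure L ≃+* AlgebraicClosure K), U.Normal → IsOpen (U : Set (GK K)) →
  FX U L ι e → ∀ (ℓ : ℕ) [Fact ℓ.Prime] (κ : QBar →+* PadicAlgCl ℓ) (ξ : GK K →* (PadicAlgCl ℓ)ˣ)
  (M : ℕ) (t : (L →+* QBar) → ℤ) (φ : Dv L →+ Additive QBarˣ),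
  Continuous (fun s => (ξ s : PadicAlgCl ℓ)) → IsAC κ M t φ (ξ.comp ι) →
  ∃ (M' : ℕ) (t' : (K →+* QBar) → ℤ) (φ' : Dv K →+ Additive QBarˣ), IsAC κ M' t' φ' ξ ∧
    ∀ m : ℤ, HasWt m φ → HasWt m φ'

theorem dsc_of (h1 : S_DSC1) (h2 : S_DSC2) : S_DSC := by
  intro K _ _ U L _ _ _ ι e hU hUo hFX ℓ _ κ ξ M t φ hc hA
  obtain ⟨M', d, t', φ', hM', hd, ha, hb, hw⟩ := h1 K U L ι e hU hUo hFX ℓ κ ξ M t φ hc hA
  obtain ⟨M'', h⟩ := h2 K ℓ κ ξ M' d t' φ' hc hM' hd ha hb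
  exact ⟨M'', t', φ', h, hw⟩

section
variable {L : Type} [Field L] [NumberField L]

/-- the normalizing factor -/
noncomputable def nf (m : ℤ) (w : HeightOneSpectrum (𝓞 L)) : ℂ :=
  (((Ideal.absNorm w.asIdeal : ℝ) ^ ((m : ℝ) / 2) : ℝ) : ℂ)

theorem nf_ne (m : ℤ) (w : HeightOneSpectrum (𝓞 L)) : nf m w ≠ 0 := by
  unfold nf
  exact_mod_cast (Real.rpow_pos_of_pos (norm_pos w) _).ne'

theorem nf_sq (m : ℤ) (w : HeightOneSpectrum (𝓞 L)) :
    nf m w ^ 2 = ((Ideal.absNorm w.asIdeal : ℕ) : ℂ) ^ m := by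
  unfold nf
  rw [← Complex.ofReal_pow, ← Real.rpow_natCast, ← Real.rpow_mul (norm_pos w).le]
  have h1 : (m : ℝ) / 2 * ((2 : ℕ) : ℝ) = (m : ℝ) := by push_cast; ring
  rw [h1, Real.rpow_intCast]
  push_cast
  rfl

theorem nf_norm (m : ℤ) (w : HeightOneSpectrum (𝓞 L)) :
    ‖nf m w‖ ^ 2 = (Ideal.absNorm w.asIdeal : ℝ) ^ m := by
  rw [← norm_pow, nf_sq, norm_zpow, Complex.norm_natCast]

theorem nf_zero (w : HeightOneSpectrum (𝓞 L)) : nf 0 w = 1 := by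
  unfold nf
  rw [Int.cast_zero, zero_div, Real.rpow_zero, Complex.ofReal_one]

theorem wt_bound {m : ℤ} {φ : Dv L →+ Additive QBarˣ} (hw : HasWt m φ) (τ : QBar →+* ℂ) :
    ∀ᶠ w : HeightOneSpectrum (𝓞 L) in cofinite, ‖τ (at1 φ w) / nf m w‖ = 1 := by
  filter_upwards [hw τ] with w h1
  have h2 : ‖τ (at1 φ w) / nf m w‖ ^ 2 = 1 := by
    rw [norm_div, div_pow, nf_norm, h1, div_self]
    exact (zpow_pos (norm_pos w) m).ne'
  exact (pow_eq_one_iff_of_nonneg (norm_nonneg _) two_ne_zero).1 h2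

/-- mean values of algebraic Hecke characters -/
theorem charMean {M : ℕ} {t : (L →+* QBar) → ℤ} {φ : Dv L →+ Additive QBarˣ} {m : ℤ}
    (τ : QBar →+* ℂ) (hM : 0 < M) (hA : IsAlg M t φ) (hw : HasWt m φ)
    (hn : ¬ ∀ᶠ w : HeightOneSpectrum (𝓞 L) in cofinite, τ (at1 φ w) = nf m w) :
    MV (fun w : HeightOneSpectrum (𝓞 L) => τ (at1 φ w) / nf m w) 0 := by
  obtain ⟨𝔪, k, ν, ψ, hψ, he⟩ := all_CXH L M t φ m τ hM hA hw
  have he' : ∀ᶠ w : HeightOneSpectrum (𝓞 L) in cofinite, ψ w.asIdeal = τ (at1 φ w) / nf m w := he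
  have h1 : ¬ ∀ᶠ w : HeightOneSpectrum (𝓞 L) in cofinite, ψ w.asIdeal = 1 := by
    intro h
    apply hn
    filter_upwards [h, he'] with w h2 h3
    rw [h3, div_eq_one_iff_eq (nf_ne m w)] at h2
    exact h2
  have h2 : ∀ s : ℝ, ¬ ∀ᶠ w : HeightOneSpectrum (𝓞 L) in cofinite,
      ψ w.asIdeal = ((Ideal.absNorm w.asIdeal : ℕ) : ℂ) ^ ((s : ℂ) * Complex.I) := by
    intro s hs
    have h3 : s = 0 := by
      refine all_NIT L M t φ m τ s hM hA ?_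
      filter_upwards [hs, he'] with w h3 h4
      rw [← h3, h4]
      rfl
    apply h1
    filter_upwards [hs] with w h4
    rw [h4, h3, Complex.ofReal_zero, zero_mul, Complex.cpow_zero]
  refine (all_MVB L).2.2.2 _ _ _ ?_ he'
  exact ⟨⟨1, fun v => hψ.norm_le v.asIdeal⟩, all_MVHn L 𝔪 k ν ψ hψ h2, all_MVHe L 𝔪 k ν ψ hψ h1⟩

/-- odd weight: no exceptional characters -/
theorem odd_ne {M : ℕ} {t : (L →+* QBar) → ℤ} {φ : Dv L →+ Additive QBarˣ} {m : ℤ}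
    (τ : QBar →+* ℂ) (hM : 0 < M) (hA : IsAlg M t φ) (hm : Odd m) :
    ¬ ∀ᶠ w : HeightOneSpectrum (𝓞 L) in cofinite, τ (at1 φ w) = nf m w := by
  intro h
  have h1 : ∀ᶠ w : HeightOneSpectrum (𝓞 L) in cofinite,
      at1 φ w ^ (2 : ℤ) = ((Ideal.absNorm w.asIdeal : ℕ) : QBar) ^ m := by
    filter_upwards [h] with w hw
    apply τ.injective
    rw [map_zpow₀, map_zpow₀, hw, map_natCast, ← nf_sq]
    rfl
  have h2 := all_TYU L M t φ 2 m hM hA h1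
  obtain ⟨σ⟩ : Nonempty (L →+* QBar) := ⟨((IsAlgClosed.lift : L →ₐ[ℚ] QBar) : L →+* QBar)⟩
  have h3 := h2 σ
  obtain ⟨c, hc⟩ := hm
  omega

variable {ℓ : ℕ} [Fact ℓ.Prime] {κ : QBar →+* PadicAlgCl ℓ}

/-- the trivial character -/
theorem ac_one : IsAC κ 1 (fun _ => 0) (0 : Dv L →+ Additive QBarˣ) (1 : GK L →* (PadicAlgCl ℓ)ˣ) where
  pos := one_pos
  cont := by
    simp only [MonoidHom.one_apply, Units.val_one]
    exact continuous_const
  alg := by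
    intro x _
    unfold typU
    simp
  inert := fun _ _ _ _ => rfl
  frob := by
    intro w _ s _
    have h1 : at1 (0 : Dv L →+ Additive QBarˣ) w = 1 := rfl
    rw [h1, map_one]
    rfl

/-- weight zero -/
theorem eq_one_of {M : ℕ} {t : (L →+* QBar) → ℤ} {φ : Dv L →+ Additive QBarˣ}
    {Φ : GK L →* (PadicAlgCl ℓ)ˣ} (h : IsAC κ M t φ Φ) (τ : QBar →+* ℂ)
    (h0 : ∀ᶠ w : HeightOneSpectrum (𝓞 L) in cofinite, τ (at1 φ w) = nf 0 w) : Φ = 1 := by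
  refine ((all_ACM L ℓ κ M 1 t (fun _ => 0) φ 0 Φ 1 h ac_one).2.2.2.2).1 ?_
  filter_upwards [h0] with w hw
  apply τ.injective
  rw [hw, nf_zero]
  exact (map_one τ).symm

end

end Pool.Agent.H500.ME
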