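import Pool.Agent.H500.ME.Mean1

set_option autoImplicit false
set_option linter.unusedSectionVars false

/-!
# Mean values on a coset
-/

namespace Pool.Agent.H500.ME

open NumberField IsDedekindDomain Filter Topology Polynomial
open Pool.Agent.W401.Cheb (GK IsFrob IsInert dens)
open Pool.Agent.H500.HC (InRay QBar ZBar jz)
open Pool.Agent.H500.SV (Above Fld)
open Pool.Agent.H500.ED
open Pool.Agent.Q92.AR (Dv Ray prin)
open Pool.Agent.H358.ME.ACM (at1_add at1_neg at1_ne norm_pos)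
open Pool.Agent.H139.ME.CHE (Ig Pg cj geom_roots fin_quot ram_ev decomp)

/-- the data -/
structure PD {K : Type} [Field K] [NumberField K] (U : Subgroup (GK K)) (L : Type) [Field L]
    [NumberField L] [Algebra K L] (ι : GK L →* GK K)
    (e : AlgebraicClosure L ≃+* AlgebraicClosure K) {ℓ : ℕ} [Fact ℓ.Prime]
    (κ : QBar →+* PadicAlgCl ℓ) (m : ℤ) {n : ℕ} (ρ : GK K →* GL (Fin n) (PadicAlgCl ℓ))
    (A : Fin n → ℕ) (t : Fin n → (L →+* QBar) → ℤ) (φ : Fin n → (Dv L →+ Additive QBarˣ))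
    (Φ : Fin n → (GK L →* (PadicAlgCl ℓ)ˣ)) : Prop where
  normal : U.Normal
  isOpen : IsOpen (U : Set (GK K))
  fx : FX U L ι e
  ac : ∀ i, IsAC κ (A i) (t i) (φ i) (Φ i)
  wt : ∀ i, HasWt m (φ i)
  eq : ∀ s, (ρ (ι s) : Matrix (Fin n) (Fin n) (PadicAlgCl ℓ)) =
    Matrix.diagonal fun i => (Φ i s : PadicAlgCl ℓ)

section
variable {K : Type} [Field K] [NumberField K]

theorem ev_not_mem {N : ℕ} (hN : 0 < N) :
    ∀ᶠ v : HeightOneSpectrum (𝓞 K) in cofinite, (N : 𝓞 K) ∉ v.asIdeal := by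
  have h1 := Pool.Agent.H500.Kum.fin_mem (E := K) (x := (N : 𝓞 K)) (by exact_mod_cast hN.ne')
  refine h1.subset ?_
  intro v hv
  exact not_not.1 hv

theorem ev_above {M : Type} [Field M] [NumberField M] [Algebra K M]
    {P : HeightOneSpectrum (𝓞 M) → Prop} (h : ∀ᶠ u in cofinite, P u) :
    ∀ᶠ v : HeightOneSpectrum (𝓞 K) in cofinite, ∀ u : HeightOneSpectrum (𝓞 M), Above u v → P u := by
  have hbadfin : {u : HeightOneSpectrum (𝓞 M) | ¬ P u}.Finite := h
  have h2 : (⋃ u ∈ {u : HeightOneSpectrum (𝓞 M) | ¬ P u},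
      {v : HeightOneSpectrum (𝓞 K) | Above u v}).Finite := by
    refine hbadfin.biUnion fun u _ => ?_
    refine Set.Subsingleton.finite ?_
    intro v hv v' hv'
    exact HeightOneSpectrum.ext (hv.symm.trans hv')
  refine h2.subset ?_
  intro v hv
  have hv' : ¬ ∀ u : HeightOneSpectrum (𝓞 M), Above u v → P u := hv
  rw [not_forall] at hv'
  obtain ⟨u, hu⟩ := hv'
  rw [Classical.not_imp] at hu
  exact Set.mem_biUnion (show u ∈ _ from hu.2) hu.1

theorem one_lt_norm (v : HeightOneSpectrum (𝓞 K)) : 1 < Ideal.absNorm v.asIdeal := by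
  have h4 : Ideal.absNorm v.asIdeal ≠ 0 := by
    rw [Ne, Ideal.absNorm_eq_zero_iff]
    exact v.ne_bot
  have h5 : Ideal.absNorm v.asIdeal ≠ 1 := by
    rw [Ne, Ideal.absNorm_eq_one_iff]
    exact v.isPrime.ne_top
  omega

/-- a homomorphism which is continuous on an open subgroup is continuous -/
theorem cont_hom {C : Type} [NormedField C] (ξ : GK K →* Cˣ) (V : Subgroup (GK K))
    (hV : IsOpen (V : Set (GK K))) (f : GK K → C) (hf : Continuous f)
    (h : ∀ s ∈ V, (ξ s : C) = f s) : Continuous fun s => (ξ s : C) := by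
  rw [continuous_iff_continuousAt]
  intro s0
  have h1 : Continuous fun s => (ξ s0 : C) * f (s0⁻¹ * s) :=
    continuous_const.mul (hf.comp (continuous_const.mul continuous_id))
  refine (h1.continuousAt).congr ?_
  have h2 : {s : GK K | s0⁻¹ * s ∈ V} ∈ 𝓝 s0 := by
    refine IsOpen.mem_nhds (hV.preimage (continuous_const.mul continuous_id)) ?_
    show s0⁻¹ * s0 ∈ V
    rw [inv_mul_cancel]
    exact V.one_mem
  filter_upwards [h2] with s hs
  rw [← h _ hs, ← Units.val_mul, ← map_mul, mul_inv_cancel_left]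

end

section
variable {K : Type} [Field K] [NumberField K] {U : Subgroup (GK K)} {L : Type} [Field L]
  [NumberField L] [Algebra K L] {ι : GK L →* GK K}
  {e : AlgebraicClosure L ≃+* AlgebraicClosure K} {ℓ : ℕ} [hℓ : Fact ℓ.Prime]
  {κ : QBar →+* PadicAlgCl ℓ} {m : ℤ} {n : ℕ} {ρ : GK K →* GL (Fin n) (PadicAlgCl ℓ)}
  {A : Fin n → ℕ} {t : Fin n → (L →+* QBar) → ℤ} {φ : Fin n → (Dv L →+ Additive QBarˣ)}
  {Φ : Fin n → (GK L →* (PadicAlgCl ℓ)ˣ)}

theorem coset (hDSC : S_DSC) (hDEU : S_DEU) (h : PD U L ι e κ m ρ A t φ Φ) (τ : QBar →+* ℂ)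
    (hnt : Odd m ∨ (m = 0 ∧ ∀ i, Φ i ≠ 1)) (a : HeightOneSpectrum (𝓞 K) → QBar)
    (ha : ∀ᶠ v : HeightOneSpectrum (𝓞 K) in cofinite, (∀ s, IsInert v s → ρ s = 1) ∧
      ∀ s, IsFrob v s → κ (a v) = (ρ s : Matrix (Fin n) (Fin n) (PadicAlgCl ℓ)).trace)
    (g : GK K) : MV (fun v => τ (a v) / nf m v * Ig U g v) 0 := by
  classical
  have hUn : U.Normal := h.normal
  have hUo := h.isOpen
  have hFX := h.fx
  have hHo : IsOpen ((U ⊔ Subgroup.zpowers g : Subgroup (GK K)) : Set (GK K)) :=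
    Subgroup.isOpen_mono le_sup_left hUo
  obtain ⟨M, _, _, _, ιM, eM, hFM⟩ := all_FXE K (U ⊔ Subgroup.zpowers g) hHo
  obtain ⟨hinj, hran, hcont, hmapo, hinertM, hfrob, hlast⟩ := all_FXC K _ M ιM eM hHo hFM
  obtain ⟨hinjL, hranL, hcontL, -, -, -, -⟩ := all_FXC K _ L ι e hUo hFX
  obtain ⟨_, ι', hKML, hML, hFL', hcomp⟩ := all_TOW K U (U ⊔ Subgroup.zpowers g) L ι e M ιM eM hUo
    hHo le_sup_left hFX hFM
  obtain ⟨g', hg'⟩ : g ∈ ιM.range := by
    rw [hran]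
    exact Subgroup.mem_sup_right (Subgroup.mem_zpowers g)
  obtain ⟨W', hWdef⟩ : ∃ W' : Subgroup (GK M), W' = U.comap ιM := ⟨_, rfl⟩
  rw [← hWdef] at hFL'
  have hmemW' : ∀ s, s ∈ W' ↔ ιM s ∈ U := by
    intro s
    rw [hWdef]
    exact Subgroup.mem_comap
  have hnorm : W'.Normal := by
    rw [hWdef]
    exact hUn.comap ιM
  have hW' : IsOpen (W' : Set (GK M)) := by
    rw [hWdef]
    exact hUo.preimage hcont
  have := fin_quot W' hW'
  have := Fintype.ofFinite (GK M ⧸ W')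
  have hfiU : U.FiniteIndex := by
    have := Subgroup.quotient_finite_of_isOpen _ hUo
    exact Subgroup.finiteIndex_of_finite_quotient
  -- the characters `ξ`
  have hdiag : ∀ u ∈ U, (ρ u : Matrix (Fin n) (Fin n) (PadicAlgCl ℓ)).IsDiag := by
    intro u hu
    rw [← hranL] at hu
    obtain ⟨s, rfl⟩ := hu
    rw [h.eq]
    exact Matrix.isDiag_diagonal _
  obtain ⟨r, i, ξ, hξ1, hξ2⟩ := all_LA (GK K) U n (PadicAlgCl ℓ) ρ hUn hfiU hdiag g
  have hmemH : ∀ s, ιM s ∈ U ⊔ Subgroup.zpowers g := by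
    intro s
    rw [← hran]
    exact ⟨s, rfl⟩
  obtain ⟨ξM, hξM⟩ : ∃ ξM : Fin r → (GK M →* (PadicAlgCl ℓ)ˣ), ∀ k s, ξM k s = ξ k ⟨ιM s, hmemH s⟩ :=
    ⟨fun k => (ξ k).comp (ιM.codRestrict (U ⊔ Subgroup.zpowers g) hmemH), fun k s => rfl⟩
  have hξL : ∀ k s, ξM k (ι' s) = Φ (i k) s := by
    intro k s
    apply Units.ext
    rw [hξM]
    have h1 : ιM (ι' s) ∈ U := by
      rw [hcomp, ← hranL]
      exact ⟨s, rfl⟩
    rw [hξ1 k (ιM (ι' s)) h1 (hmemH _), hcomp, h.eq, Matrix.diagonal_apply_eq]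
  have hranL' : ∀ s ∈ W', ∃ s' : GK L, ι' s' = s := by
    intro s hs
    rw [hmemW', ← hranL] at hs
    obtain ⟨s', hs'⟩ := hs
    exact ⟨s', hinj (by rw [hcomp, hs'])⟩
  have hρc : ∀ j, Continuous fun s : GK L => ((ρ (ι s) : Matrix (Fin n) (Fin n) (PadicAlgCl ℓ)) j j) := by
    intro j
    have h1 : (fun s : GK L => ((ρ (ι s) : Matrix (Fin n) (Fin n) (PadicAlgCl ℓ)) j j)) =
        fun s => (Φ j s : PadicAlgCl ℓ) := by
      funext s
      rw [h.eq, Matrix.diagonal_apply_eq]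
    rw [h1]
    exact (h.ac j).cont
  obtain ⟨hinjL', hranL'', hcontL', hmapoL', -, -, -⟩ := all_FXC M W' L ι' _ hW' hFL'
  have hξc : ∀ k, Continuous fun s => (ξM k s : PadicAlgCl ℓ) := by
    intro k
    rw [continuous_iff_continuousAt]
    intro s0
    rw [Metric.continuousAt_iff']
    intro ε hε
    have hn0 : 0 < ‖(ξM k s0 : PadicAlgCl ℓ)‖ := norm_pos_iff.2 (Units.ne_zero _)
    obtain ⟨V, hVn, hVo, hV⟩ := Pool.Agent.H139.ZO.ABL.nhd
      (fun s => (Φ (i k) s : PadicAlgCl ℓ)) (h.ac (i k)).cont 1 (div_pos hε hn0)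
    have hVM := hmapoL' V hVo
    have h2 : {s : GK M | s0⁻¹ * s ∈ V.map ι'} ∈ 𝓝 s0 := by
      refine IsOpen.mem_nhds (hVM.preimage (continuous_const.mul continuous_id)) ?_
      show s0⁻¹ * s0 ∈ V.map ι'
      rw [inv_mul_cancel]
      exact Subgroup.one_mem _
    filter_upwards [h2] with s hs
    obtain ⟨s', hs', hs1⟩ := hs
    have h3 : s = s0 * ι' s' := by
      rw [hs1, mul_inv_cancel_left]
    have h4 := hV s' hs'
    rw [one_mul, map_one, Units.val_one] at h4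
    rw [h3, map_mul, hξL, Units.val_mul, dist_eq_norm]
    have h5 : (ξM k s0 : PadicAlgCl ℓ) * (Φ (i k) s' : PadicAlgCl ℓ) - (ξM k s0 : PadicAlgCl ℓ) =
        (ξM k s0 : PadicAlgCl ℓ) * ((Φ (i k) s' : PadicAlgCl ℓ) - 1) := by ring
    rw [h5, norm_mul]
    exact (lt_div_iff₀' hn0).1 h4
  have hcompΦ : ∀ k, (ξM k).comp ι' = Φ (i k) := fun k => MonoidHom.ext fun s => hξL k s
  have hdsc : ∀ k, ∃ (M' : ℕ) (t' : (M →+* QBar) → ℤ) (φ' : Dv M →+ Additive QBarˣ),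
      IsAC κ M' t' φ' (ξM k) ∧ HasWt m φ' := by
    intro k
    obtain ⟨M', t', φ', h1, h2⟩ := hDSC M W' L ι' _ hnorm hW' hFL' ℓ κ (ξM k) (A (i k)) (t (i k))
      (φ (i k)) (hξc k) (by rw [hcompΦ]; exact h.ac (i k))
    exact ⟨M', t', φ', h1, h2 m (h.wt (i k))⟩
  choose A' t' φ' hA' hwt' using hdsc
  -- the quotient is cyclic
  have hgen : ∀ q : GK M ⧸ W', q ∈ Subgroup.zpowers (QuotientGroup.mk g' : GK M ⧸ W') := by
    intro q
    obtain ⟨s, rfl⟩ := QuotientGroup.mk_surjective q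
    have hs := hmemH s
    obtain ⟨w, hw, z, ⟨k, rfl⟩, hwz⟩ := Subgroup.mem_sup_of_normal_left.1 hs
    refine ⟨k, ?_⟩
    show (QuotientGroup.mk g' : GK M ⧸ W') ^ k = QuotientGroup.mk s
    rw [← QuotientGroup.mk_zpow, QuotientGroup.eq, hmemW', map_mul, map_inv, map_zpow, hg', ← hwz]
    have h2 := hUn.conj_mem _ hw (g ^ k)⁻¹
    rw [inv_inv] at h2
    rw [← mul_assoc]
    exact h2
  have hcyc : IsCyclic (GK M ⧸ W') := ⟨⟨_, hgen⟩⟩
  obtain ⟨N, hN⟩ : ∃ N : ℕ, N = Nat.card (GK M ⧸ W') := ⟨_, rfl⟩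
  have hN0 : N ≠ 0 := by
    rw [hN]
    exact Nat.card_pos.ne'
  have : NeZero N := ⟨hN0⟩
  have hEn : HasEnoughRootsOfUnity QBar N := inferInstance
  have hcard : Nat.card (GK M ⧸ W') = Nat.card (rootsOfUnity N QBar) := by
    rw [HasEnoughRootsOfUnity.natCard_rootsOfUnity QBar N, hN]
  let eq1 : GK M ⧸ W' ≃* rootsOfUnity N QBar := mulEquivOfCyclicCardEq hcard
  obtain ⟨lam, hlam⟩ : ∃ lam : GK M ⧸ W' →* QBarˣ, Function.Injective lam :=
    ⟨(rootsOfUnity N QBar).subtype.comp eq1.toMonoidHom,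
      (Subgroup.subtype_injective _).comp eq1.injective⟩
  have hlamn : ∀ q, lam q ^ N = 1 := by
    intro q
    rw [← map_pow, hN, pow_card_eq_one', map_one]
  let θ : ℕ → (GK M →* QBarˣ) := fun j => (lam ^ j).comp (QuotientGroup.mk' W')
  have hθ : ∀ j s, θ j s = lam (QuotientGroup.mk s) ^ j := fun j s => rfl
  have hθ1 : ∀ j, ∀ s ∈ W', θ j s = 1 := by
    intro j s hs
    rw [hθ, (QuotientGroup.eq_one_iff s).2 hs, map_one, one_pow]
  have hθker : ∀ j, IsOpen ((θ j).ker : Set (GK M)) := by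
    intro j
    refine Subgroup.isOpen_mono (H₁ := W') ?_ hW'
    intro s hs
    exact hθ1 j s hs
  choose Aθ φθ hAθ hwθ using fun j => all_ARC M (θ j) (hθker j) ℓ κ
  -- the products
  have hprod : ∀ j k, IsAC κ (Aθ j * A' k) ((fun _ => 0) + t' k) (φθ j + φ' k)
      (((Units.map (κ : QBar →* PadicAlgCl ℓ)).comp (θ j)) * ξM k) ∧ HasWt m (φθ j + φ' k) := by
    intro j k
    obtain ⟨h1, -, h3, -, -⟩ := all_ACM M ℓ κ _ _ _ _ _ _ _ _ (hAθ j) (hA' k)
    refine ⟨h1, ?_⟩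
    have h4 := h3 0 m (hwθ j) (hwt' k)
    rw [zero_add] at h4
    exact h4
  have hMVc : ∀ j k, MV (fun u : HeightOneSpectrum (𝓞 M) =>
      τ (at1 (φθ j + φ' k) u) / nf m u) 0 := by
    intro j k
    refine charMean τ (hprod j k).1.pos (hprod j k).1.alg (hprod j k).2 ?_
    rcases hnt with hodd | ⟨rfl, h0⟩
    · exact odd_ne τ (hprod j k).1.pos (hprod j k).1.alg hodd
    · intro h1
      have h2 := eq_one_of (hprod j k).1 τ h1
      apply h0 (i k)
      ext s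
      have h3 := DFunLike.congr_fun h2 (ι' s)
      rw [MonoidHom.mul_apply, MonoidHom.comp_apply, hθ1 j (ι' s) (by
        rw [hmemW', hcomp, ← hranL]
        exact ⟨s, rfl⟩), map_one, one_mul, hξL] at h3
      rw [h3]
      rfl
  obtain ⟨b, hb⟩ : ∃ b : ℂ, b = τ (((lam (QuotientGroup.mk g'))⁻¹ : QBarˣ) : QBar) := ⟨_, rfl⟩
  obtain ⟨FM, hFMd⟩ : ∃ FM : HeightOneSpectrum (𝓞 M) → ℂ, FM = fun u => ∑ j : Fin N,
      b ^ (j : ℕ) / (N : ℂ) * ∑ k : Fin r, τ (at1 (φθ j + φ' k) u) / nf m u := ⟨_, rfl⟩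
  have hMV : MV FM 0 := by
    have h2 := (all_MVB M).2.2.1 N (fun j u => b ^ (j : ℕ) / (N : ℂ) *
        ∑ k : Fin r, τ (at1 (φθ j + φ' k) u) / nf m u) (fun j => b ^ (j : ℕ) / (N : ℂ) *
        ∑ k : Fin r, (0 : ℂ))
      (fun j => (all_MVB M).2.1 _ _ _ ((all_MVB M).2.2.1 r _ _ fun k => hMVc j k))
    rw [hFMd]
    simpa using h2
  -- the values at the good places
  have hκinj := κ.injective
  have hnm : ∀ᶠ u : HeightOneSpectrum (𝓞 M) in cofinite,
      (∀ j : Fin N, ((Aθ j : ℕ) : 𝓞 M) ∉ u.asIdeal) ∧ (∀ k, ((A' k : ℕ) : 𝓞 M) ∉ u.asIdeal) ∧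
      ∀ k, ‖τ (at1 (φ' k) u) / nf m u‖ = 1 := by
    refine (Filter.eventually_all.2 fun j : Fin N => ev_not_mem (hAθ j).pos).and
      ((Filter.eventually_all.2 fun k => ev_not_mem (hA' k).pos).and
        (Filter.eventually_all.2 fun k => wt_bound (hwt' k) τ))
  have hval : ∀ u : HeightOneSpectrum (𝓞 M),
      (∀ j : Fin N, ((Aθ j : ℕ) : 𝓞 M) ∉ u.asIdeal) → ∀ s, IsFrob u s →
      FM u = if g⁻¹ * ιM s ∈ U then ∑ k : Fin r, τ (at1 (φ' k) u) / nf m u else 0 := by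
    intro u hu s hs
    have h1 : ∀ j : Fin N, at1 (φθ j) u = (θ j s : QBar) := by
      intro j
      apply hκinj
      rw [← (hAθ j).frob u (hu j) s hs]
      rfl
    have h3 : ∀ j : Fin N, b ^ (j : ℕ) / (N : ℂ) * ∑ k : Fin r, τ (at1 (φθ j + φ' k) u) / nf m u =
        (b * τ ((lam (QuotientGroup.mk s) : QBarˣ) : QBar)) ^ (j : ℕ) / (N : ℂ) *
          ∑ k : Fin r, τ (at1 (φ' k) u) / nf m u := by
      intro j
      have h4 : ∀ k : Fin r, τ (at1 (φθ j + φ' k) u) / nf m u =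
          τ ((lam (QuotientGroup.mk s) : QBarˣ) : QBar) ^ (j : ℕ) *
            (τ (at1 (φ' k) u) / nf m u) := by
        intro k
        rw [at1_add, h1 j, hθ, Units.val_pow_eq_pow_val, map_mul, map_pow]
        ring
      rw [Finset.sum_congr rfl fun k _ => h4 k, ← Finset.mul_sum, mul_pow]
      ring
    have h4 : (b * τ ((lam (QuotientGroup.mk s) : QBarˣ) : QBar)) ^ N = 1 := by
      rw [hb, ← map_mul, ← Units.val_mul, ← map_pow, ← Units.val_pow_eq_pow_val, mul_pow, inv_pow,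
        hlamn, hlamn, inv_one, mul_one, Units.val_one, map_one]
    rw [hFMd]
    show ∑ j : Fin N, b ^ (j : ℕ) / (N : ℂ) * ∑ k : Fin r, τ (at1 (φθ j + φ' k) u) / nf m u = _
    rw [Finset.sum_congr rfl fun j _ => h3 j, ← Finset.sum_mul, geom_roots hN0 h4]
    have h5 : b * τ ((lam (QuotientGroup.mk s) : QBarˣ) : QBar) = 1 ↔ g⁻¹ * ιM s ∈ U := by
      rw [hb, ← map_mul, ← Units.val_mul, map_eq_one_iff τ τ.injective, Units.val_eq_one,
        inv_mul_eq_one, hlam.eq_iff, QuotientGroup.eq, hmemW', map_mul, map_inv, hg']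
    simp only [h5]
    split_ifs
    · rw [one_mul]
    · rw [zero_mul]
  -- the traces
  have htr : ∀ u : HeightOneSpectrum (𝓞 M), (∀ k, ((A' k : ℕ) : 𝓞 M) ∉ u.asIdeal) →
      ∀ s s', IsFrob u s → IsInert u s' → g⁻¹ * ιM (s * s') ∈ U →
      (ρ (ιM (s * s')) : Matrix (Fin n) (Fin n) (PadicAlgCl ℓ)).trace =
        κ (∑ k, at1 (φ' k) u) := by
    intro u hu s s' hs hs' hg
    have h1 : ∀ x, g * (g⁻¹ * ιM (s * s')) = x → ∀ hx : x ∈ U ⊔ Subgroup.zpowers g,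
        (ρ x : Matrix (Fin n) (Fin n) (PadicAlgCl ℓ)).trace =
          ∑ k, (ξ k ⟨x, hx⟩ : PadicAlgCl ℓ) := by
      rintro x rfl hx
      exact hξ2 _ hg hx
    rw [h1 _ (mul_inv_cancel_left _ _) (hmemH _), map_sum]
    refine Finset.sum_congr rfl fun k _ => ?_
    rw [← hξM, map_mul, (hA' k).inert u (hu k) s' hs', mul_one, (hA' k).frob u (hu k) s hs]
  have hab := ev_above (K := K) hnm
  have hram := ram_ev U hUo
  -- the cyclotomic character
  obtain ⟨φN, χ, hχ, hφN⟩ := all_NMC K ℓ κ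
  have hℓev := ev_not_mem (K := K) (Fact.out : ℓ.Prime).pos
  -- the bound
  have hbd : ∀ᶠ v : HeightOneSpectrum (𝓞 K) in cofinite, ‖τ (a v) / nf m v * Ig U g v‖ ≤ (r : ℝ) := by
    filter_upwards [hab, ha, hℓev] with v hv1 hv2 hv3
    unfold Ig
    split_ifs with hP
    · rw [mul_one]
      obtain ⟨σ, ⟨y, hy⟩, hσ⟩ := hP
      have h1 : y⁻¹ * σ * y ∈ U ⊔ Subgroup.zpowers g := by
        have h2 : y⁻¹ * σ * y = g * (g⁻¹ * (y⁻¹ * σ * y)) := by group
        rw [h2]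
        exact Subgroup.mul_mem _ (Subgroup.mem_sup_right (Subgroup.mem_zpowers g))
          (Subgroup.mem_sup_left hy)
      obtain ⟨u, s, s', d, huv, hs, hs', hd, h2⟩ := hlast v σ hσ y 1 one_pos (by rw [pow_one]; exact h1)
      rw [pow_one] at h2
      obtain ⟨f, hf, hNf, hst⟩ := hfrob v u huv
      obtain ⟨σ', τ', hσ', hτ', h3⟩ := hst s hs
      have h4 : χ σ = (χ σ' ^ f) ^ d := by
        have h5 : χ (y⁻¹ * σ * y) = χ σ := by
          rw [map_mul, map_mul, map_inv, mul_comm (χ y)⁻¹ (χ σ), inv_mul_cancel_right]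
        rw [← h5, h2, map_mul ιM, map_mul χ, map_pow ιM, map_pow χ, h3, map_mul, map_pow,
          hχ.inert v hv3 τ' hτ', hχ.inert v hv3 _ (hinertM v u huv s' hs'), mul_one, mul_one]
      have h5 : ((Ideal.absNorm v.asIdeal : ℕ) : QBar) =
          ((Ideal.absNorm v.asIdeal : ℕ) : QBar) ^ (f * d) := by
        apply hκinj
        have h6 := congrArg (fun x : (PadicAlgCl ℓ)ˣ => (x : PadicAlgCl ℓ)) h4
        simp only [Units.val_pow_eq_pow_val] at h6
        rw [hχ.frob v hv3 σ hσ, hχ.frob v hv3 σ' hσ', hφN, ← pow_mul] at h6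
        rw [map_pow]
        exact h6
      have h6 : f * d = 1 := by
        have h7 : Ideal.absNorm v.asIdeal ^ 1 = Ideal.absNorm v.asIdeal ^ (f * d) := by
          rw [pow_one]
          exact_mod_cast h5
        exact (Nat.pow_right_injective (one_lt_norm v) h7).symm
      obtain ⟨hf1, hd1⟩ : f = 1 ∧ d = 1 := ⟨Nat.eq_one_of_mul_eq_one_right h6,
        Nat.eq_one_of_mul_eq_one_left h6⟩
      rw [hd1, pow_one] at h2
      rw [hf1, pow_one] at hNf
      obtain ⟨-, hu2, hu3⟩ := hv1 u huv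
      have h7 := htr u hu2 s s' hs hs' (by rw [← h2]; exact hy)
      rw [← h2] at h7
      have h8 : (ρ (y⁻¹ * σ * y) : Matrix (Fin n) (Fin n) (PadicAlgCl ℓ)).trace =
          (ρ σ : Matrix (Fin n) (Fin n) (PadicAlgCl ℓ)).trace := by
        rw [map_mul, map_mul, Units.val_mul, Units.val_mul, Matrix.trace_mul_comm, ← mul_assoc,
          ← Units.val_mul, ← map_mul, mul_inv_cancel, map_one, Units.val_one, one_mul]
      rw [h8, ← hv2.2 σ hσ] at h7
      have h9 := hκinj h7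
      have h10 : nf m v = nf m u := by
        unfold nf
        rw [hNf]
      rw [h9, h10, map_sum, Finset.sum_div]
      refine (norm_sum_le _ _).trans ?_
      rw [Finset.sum_congr rfl fun k _ => hu3 k]
      simp
    · rw [mul_zero, norm_zero]
      exact Nat.cast_nonneg r
  obtain ⟨F, hF⟩ : ∃ F : HeightOneSpectrum (𝓞 K) → ℂ, F = fun v =>
      if ‖τ (a v) / nf m v * Ig U g v‖ ≤ (r : ℝ) then τ (a v) / nf m v * Ig U g v else 0 := ⟨_, rfl⟩
  have hFeq : ∀ᶠ v : HeightOneSpectrum (𝓞 K) in cofinite, F v = τ (a v) / nf m v * Ig U g v := by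
    filter_upwards [hbd] with v hv
    rw [hF]
    exact if_pos hv
  have key := hDEU K U g M ιM eM hUn hUo hFM F FM 0 ?_ ?_ ?_ ?_ hMV
  · rw [mul_zero] at key
    exact (all_MVB K).2.2.2 _ _ _ key hFeq
  · refine ⟨r, fun v => ?_⟩
    rw [hF]
    dsimp only
    split_ifs with h1
    · exact h1
    · rw [norm_zero]
      exact Nat.cast_nonneg r
  · filter_upwards [hFeq] with v hv h1
    rw [hv]
    unfold Ig
    rw [if_neg, mul_zero]
    rintro ⟨σ, hσ1, hσ2⟩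
    exact h1 σ hσ2 hσ1
  · filter_upwards [hnm] with u hu s hs hs'
    rw [hval u hu.1 s hs, if_neg hs']
  · filter_upwards [hab, ha, hFeq, hram] with v hv1 hv2 hv3 hv4 u huv hNu s hs hgs
    obtain ⟨hu1, hu2, hu3⟩ := hv1 u huv
    rw [hval u hu1 s hs, if_pos hgs, hv3]
    obtain ⟨f, hf0, hNf, hst⟩ := hfrob v u huv
    obtain ⟨σ, τ', hσ, hτ, h3⟩ := hst s hs
    have hf1 : f = 1 := by
      rw [hNu] at hNf
      have h4 : Ideal.absNorm v.asIdeal ^ 1 = Ideal.absNorm v.asIdeal ^ f := by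
        rw [pow_one]
        exact hNf
      exact (Nat.pow_right_injective (one_lt_norm v) h4).symm
    rw [hf1, pow_one] at h3
    have h4 : Pg U g v := by
      refine ⟨σ, ⟨1, ?_⟩, hσ⟩
      have h4 : g⁻¹ * (1⁻¹ * σ * 1) = (g⁻¹ * ιM s) * τ'⁻¹ := by
        rw [h3]
        group
      rw [h4]
      exact U.mul_mem hgs (U.inv_mem (hv4 τ' hτ))
    have h5 : IsInert u (1 : GK M) := by
      obtain ⟨Q, hQ1, hQ2, -⟩ := hs
      refine ⟨Q, hQ1, hQ2, fun x => ?_⟩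
      rw [one_smul, sub_self]
      exact Q.zero_mem
    have h6 := htr u hu2 s 1 hs h5 (by rw [mul_one]; exact hgs)
    rw [mul_one, h3, map_mul, hv2.1 τ' hτ, mul_one, ← hv2.2 σ hσ] at h6
    have h7 := hκinj h6
    have h8 : nf m v = nf m u := by
      unfold nf
      rw [hNu]
    unfold Ig
    rw [if_pos h4, mul_one, h7, h8, map_sum, Finset.sum_div]

end

end Pool.Agent.H500.ME
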