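import Pool.Agent.H500.ME.Mean2

set_option autoImplicit false
set_option linter.unusedSectionVars false

/-!
# Mean values: all cosets
-/

namespace Pool.Agent.H500.ME

open NumberField IsDedekindDomain Filter Topology Polynomial
open Pool.Agent.W401.Cheb (GK IsFrob IsInert dens)
open Pool.Agent.H500.HC (InRay QBar ZBar jz)
open Pool.Agent.H500.SV (Above Fld)
open Pool.Agent.H500.ED
open Pool.Agent.Q92.AR (Dv Ray prin)
open Pool.Agent.H358.ME.ACM (at1_add at1_neg at1_ne norm_pos)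
open Pool.Agent.H139.ME.CHE (Ig Pg cj geom_roots fin_quot ram_ev decomp)

section
variable {K : Type} [Field K] [NumberField K] {U : Subgroup (GK K)} {L : Type} [Field L]
  [NumberField L] [Algebra K L] {ι : GK L →* GK K}
  {e : AlgebraicClosure L ≃+* AlgebraicClosure K} {ℓ : ℕ} [hℓ : Fact ℓ.Prime]
  {κ : QBar →+* PadicAlgCl ℓ} {m : ℤ} {n : ℕ} {ρ : GK K →* GL (Fin n) (PadicAlgCl ℓ)}
  {A : Fin n → ℕ} {t : Fin n → (L →+* QBar) → ℤ} {φ : Fin n → (Dv L →+ Additive QBarˣ)}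
  {Φ : Fin n → (GK L →* (PadicAlgCl ℓ)ˣ)}

theorem mean_zero (hDSC : S_DSC) (hDEU : S_DEU) (h : PD U L ι e κ m ρ A t φ Φ) (τ : QBar →+* ℂ)
    (hnt : Odd m ∨ (m = 0 ∧ ∀ i, Φ i ≠ 1)) (a : HeightOneSpectrum (𝓞 K) → QBar)
    (ha : ∀ᶠ v : HeightOneSpectrum (𝓞 K) in cofinite, (∀ s, IsInert v s → ρ s = 1) ∧
      ∀ s, IsFrob v s → κ (a v) = (ρ s : Matrix (Fin n) (Fin n) (PadicAlgCl ℓ)).trace) :
    MV (fun v => τ (a v) / nf m v) 0 := by
  classical
  have hUn : U.Normal := h.normal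
  have hUo := h.isOpen
  have := fin_quot U hUo
  have := Fintype.ofFinite (GK K ⧸ U)
  set E := Fintype.equivFin (GK K ⧸ U) with hE
  have h2 := (all_MVB K).2.2.1 (Fintype.card (GK K ⧸ U))
    (fun i v => 1 / ((cj U (Quotient.out (E.symm i))).ncard : ℂ) *
      (τ (a v) / nf m v * Ig U (Quotient.out (E.symm i)) v))
    (fun i => 1 / ((cj U (Quotient.out (E.symm i))).ncard : ℂ) * 0)
    (fun i => (all_MVB K).2.1 _ _ _ (coset hDSC hDEU h τ hnt a ha _))
  have h3 : ∑ i : Fin (Fintype.card (GK K ⧸ U)),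
      1 / ((cj U (Quotient.out (E.symm i))).ncard : ℂ) * 0 = 0 := by simp
  rw [h3] at h2
  refine (all_MVB K).2.2.2 _ _ _ h2 ?_
  filter_upwards [ram_ev U hUo] with v hv
  obtain ⟨σ, hσ⟩ := (Pool.Agent.W401.Frob.main K).1 v
  have h4 := decomp (W := U) (f := fun _ => (1 : ℂ)) (fun _ _ _ => rfl) (fun _ _ => rfl) hσ hv
  have h5 : ∑ x : GK K ⧸ U, 1 / ((cj U (Quotient.out x)).ncard : ℂ) *
      (τ (a v) / nf m v * Ig U (Quotient.out x) v) = τ (a v) / nf m v := by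
    have h6 : ∀ x : GK K ⧸ U, 1 / ((cj U (Quotient.out x)).ncard : ℂ) *
        (τ (a v) / nf m v * Ig U (Quotient.out x) v) = τ (a v) / nf m v *
          (1 / ((cj U (Quotient.out x)).ncard : ℂ) * Ig U (Quotient.out x) v) := fun x => by ring
    rw [Finset.sum_congr rfl fun x _ => h6 x, ← Finset.mul_sum, h4, mul_one]
  refine Eq.trans ?_ h5
  exact Fintype.sum_equiv E.symm _ _ fun i => rfl

end

end Pool.Agent.H500.ME
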