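import Pool.Agent.H500.ME.Parts

set_option autoImplicit false
set_option linter.unusedSectionVars false

/-!
# Mean values: weight zero
-/

namespace Pool.Agent.H500.ME

open NumberField IsDedekindDomain Filter Topology Polynomial
open Pool.Agent.W401.Cheb (GK IsFrob IsInert dens)
open Pool.Agent.H500.HC (InRay QBar ZBar jz)
open Pool.Agent.H500.SV (Above Fld)
open Pool.Agent.H500.ED
open Pool.Agent.Q92.AR (Dv Ray prin)
open Pool.Agent.H358.ME.ACM (at1_add at1_neg at1_ne norm_pos)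
open Pool.Agent.H139.ME.CHE (Ig Pg cj geom_roots fin_quot ram_ev decomp)

/-- the traces of matrices of finite order are algebraic -/
theorem trace_alg {C : Type} [Field C] [CharZero C] [IsAlgClosed C] (κ : QBar →+* C) {n : ℕ}
    (G : Matrix (Fin n) (Fin n) C) (N : ℕ) (hN : 0 < N) (hG : G ^ N = 1) :
    ∃ z : QBar, κ z = G.trace := by
  classical
  obtain ⟨b, d, hbd⟩ := Pool.Agent.Y800.diag_of_pow_eq_one G N hN hG
  obtain ⟨h, hh⟩ := Pool.Agent.Y800.conj_of_basis G b d hbd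
  have h1 : ∀ i, d i ^ N = 1 := by
    intro i
    have h2 : ∀ k : ℕ, (G ^ k).mulVec (b i) = d i ^ k • b i := by
      intro k
      induction k with
      | zero => rw [pow_zero, pow_zero, Matrix.one_mulVec, one_smul]
      | succ k ih =>
        rw [pow_succ', ← Matrix.mulVec_mulVec, ih, Matrix.mulVec_smul, hbd, smul_smul, pow_succ]
    have h3 := h2 N
    rw [hG, Matrix.one_mulVec] at h3
    have h4 : (d i ^ N - 1) • b i = 0 := by
      rw [sub_smul, one_smul, ← h3, sub_self]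
    rcases smul_eq_zero.1 h4 with h5 | h5
    · exact sub_eq_zero.1 h5
    · exact absurd h5 (b.ne_zero i)
  have h2 : ∀ i, ∃ z : QBar, κ z = d i := by
    intro i
    have h3 := (IsAlgClosed.splits (X ^ N - 1 : QBar[X])).roots_map κ
    have h4 : d i ∈ ((X ^ N - 1 : QBar[X]).map κ).roots := by
      rw [Polynomial.map_sub, Polynomial.map_pow, Polynomial.map_X, Polynomial.map_one,
        mem_roots (X_pow_sub_C_ne_zero (R := C) hN 1 |> fun h => by simpa using h)]
      simp [IsRoot, h1 i]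
    rw [h3] at h4
    obtain ⟨z, -, hz⟩ := Multiset.mem_map.1 h4
    exact ⟨z, hz⟩
  choose z hz using h2
  refine ⟨∑ i, z i, ?_⟩
  rw [map_sum, hh, Matrix.trace_mul_comm, ← mul_assoc]
  have h3 : ((h⁻¹ : GL (Fin n) C) : Matrix (Fin n) (Fin n) C) * (h : Matrix (Fin n) (Fin n) C) = 1 := by
    rw [← Units.val_mul, inv_mul_cancel, Units.val_one]
  rw [h3, one_mul, Matrix.trace_diagonal]
  exact Finset.sum_congr rfl fun i _ => hz i

section
variable {K : Type} [Field K] [NumberField K] {U : Subgroup (GK K)} {L : Type} [Field L]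
  [NumberField L] [Algebra K L] {ι : GK L →* GK K}
  {e : AlgebraicClosure L ≃+* AlgebraicClosure K} {ℓ : ℕ} [hℓ : Fact ℓ.Prime]
  {κ : QBar →+* PadicAlgCl ℓ} {n : ℕ} {ρ : GK K →* GL (Fin n) (PadicAlgCl ℓ)}
  {A : Fin n → ℕ} {t : Fin n → (L →+* QBar) → ℤ} {φ : Fin n → (Dv L →+ Additive QBarˣ)}
  {Φ : Fin n → (GK L →* (PadicAlgCl ℓ)ˣ)}

/-- a continuous character of finite order has open kernel -/
theorem ker_open {L : Type} [Field L] [NumberField L] (Φ : GK L →* (PadicAlgCl ℓ)ˣ)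
    (hc : Continuous fun s => (Φ s : PadicAlgCl ℓ)) (b : ℕ) (hb : 0 < b)
    (h : ∀ s, (Φ s : PadicAlgCl ℓ) ^ b = 1) : IsOpen (Φ.ker : Set (GK L)) := by
  classical
  have hT : ({x : PadicAlgCl ℓ | x ^ b = 1 ∧ x ≠ 1}).Finite := by
    have h1 : {x : PadicAlgCl ℓ | x ^ b = 1 ∧ x ≠ 1} ⊆
        ((X ^ b - 1 : (PadicAlgCl ℓ)[X]).roots.toFinset : Set (PadicAlgCl ℓ)) := by
      rintro x ⟨hx, -⟩
      rw [Finset.mem_coe, Multiset.mem_toFinset, mem_roots
        (X_pow_sub_C_ne_zero (R := PadicAlgCl ℓ) hb 1 |> fun h => by simpa using h)]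
      simp [IsRoot, hx]
    exact (Finset.finite_toSet _).subset h1
  have h2 : (Φ.ker : Set (GK L)) = (fun s => (Φ s : PadicAlgCl ℓ)) ⁻¹'
      {x : PadicAlgCl ℓ | x ^ b = 1 ∧ x ≠ 1}ᶜ := by
    ext s
    rw [Set.mem_preimage, Set.mem_compl_iff, Set.mem_setOf_eq, SetLike.mem_coe, MonoidHom.mem_ker]
    constructor
    · intro h3 h4
      exact h4.2 (by rw [h3, Units.val_one])
    · intro h3
      by_contra h4
      exact h3 ⟨h s, fun h5 => h4 (Units.ext h5)⟩
  rw [h2]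
  exact hT.isClosed.isOpen_compl.preimage hc

theorem mean_wt0 (h : PD U L ι e κ 0 ρ A t φ Φ) (τ : QBar →+* ℂ)
    (a : HeightOneSpectrum (𝓞 K) → QBar)
    (ha : ∀ᶠ v : HeightOneSpectrum (𝓞 K) in cofinite, (∀ s, IsInert v s → ρ s = 1) ∧
      ∀ s, IsFrob v s → κ (a v) = (ρ s : Matrix (Fin n) (Fin n) (PadicAlgCl ℓ)).trace) :
    MV (fun v => τ (a v) / nf 0 v) (Module.finrank (PadicAlgCl ℓ) (Inv ρ) : ℂ) := by
  classical
  have hUn : U.Normal := h.normal
  have hUo := h.isOpen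
  have hκinj := κ.injective
  have hfiU : U.FiniteIndex := by
    have := Subgroup.quotient_finite_of_isOpen _ hUo
    exact Subgroup.finiteIndex_of_finite_quotient
  obtain ⟨hinjL, hranL, hcontL, hmapL, -, -, -⟩ := all_FXC K _ L ι e hUo h.fx
  have hdiag : ∀ u ∈ U, (ρ u : Matrix (Fin n) (Fin n) (PadicAlgCl ℓ)).IsDiag := by
    intro u hu
    rw [← hranL] at hu
    obtain ⟨s, rfl⟩ := hu
    rw [h.eq]
    exact Matrix.isDiag_diagonal _
  obtain ⟨n0, n1, ρ0, ρ1, i0, i1, hu0, hu1, ho0, ho1, he0, he1, htr, hinv⟩ :=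
    all_SPL (GK K) U n (PadicAlgCl ℓ) ρ hUn hfiU hdiag
  have hmemU : ∀ s, ι s ∈ U := by
    intro s
    rw [← hranL]
    exact ⟨s, rfl⟩
  have hΦ : ∀ s i, (ρ (ι s) : Matrix (Fin n) (Fin n) (PadicAlgCl ℓ)) i i = (Φ i s : PadicAlgCl ℓ) := by
    intro s i
    rw [h.eq, Matrix.diagonal_apply_eq]
  -- the kernel of `ρ0` is open
  have hV : IsOpen ((⨅ k : Fin n0, (Φ (i0 k)).ker : Subgroup (GK L)) : Set (GK L)) := by
    rw [Subgroup.coe_iInf]
    refine isOpen_iInter_of_finite fun k => ?_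
    obtain ⟨b, hb, hb1⟩ := ho0 k
    refine ker_open (Φ (i0 k)) (h.ac (i0 k)).cont b hb fun s => ?_
    rw [← hΦ]
    exact hb1 _ (hmemU s)
  have hW : IsOpen (ρ0.ker : Set (GK K)) := by
    refine Subgroup.isOpen_mono ?_ (hmapL _ hV)
    rintro g ⟨s, hs, rfl⟩
    rw [MonoidHom.mem_ker]
    apply Units.ext
    rw [hu0 _ (hmemU s), Units.val_one, ← Matrix.diagonal_one]
    congr 1
    funext k
    have h1 : s ∈ (Φ (i0 k)).ker := (Subgroup.mem_iInf.1 hs) k
    rw [hΦ, MonoidHom.mem_ker.1 h1]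
    rfl
  have := fin_quot ρ0.ker hW
  have := Fintype.ofFinite (GK K ⧸ ρ0.ker)
  have hWfi : ρ0.ker.FiniteIndex := Subgroup.finiteIndex_of_finite_quotient
  -- the traces of `ρ0`
  have hx : ∀ g, ∃ z : QBar, κ z = (ρ0 g : Matrix (Fin n0) (Fin n0) (PadicAlgCl ℓ)).trace := by
    intro g
    have h1 : g ^ ρ0.ker.index ∈ ρ0.ker := ρ0.ker.pow_index_mem g
    have h2 : (ρ0 g : Matrix (Fin n0) (Fin n0) (PadicAlgCl ℓ)) ^ ρ0.ker.index = 1 := by
      rw [← Units.val_pow_eq_pow_val, ← map_pow, MonoidHom.mem_ker.1 h1, Units.val_one]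
    exact trace_alg κ _ _ (Nat.pos_of_ne_zero hWfi.index_ne_zero) h2
  choose x hx using hx
  have hf1 : ∀ g, ∀ w ∈ ρ0.ker, τ (x (g * w)) = τ (x g) := by
    intro g w hw
    congr 1
    apply hκinj
    rw [hx, hx, map_mul, MonoidHom.mem_ker.1 hw, mul_one]
  have hf2 : ∀ g y, τ (x (y⁻¹ * g * y)) = τ (x g) := by
    intro g y
    congr 1
    apply hκinj
    rw [hx, hx, map_mul, map_mul, Units.val_mul, Units.val_mul, Matrix.trace_mul_comm, ← mul_assoc,
      ← Units.val_mul, ← map_mul, mul_inv_cancel, map_one, Units.val_one, one_mul]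
  choose fr hfr using (Pool.Agent.W401.Frob.main K).1
  have h3 := all_CHE K ρ0.ker inferInstance hW (fun g => τ (x g)) (fun v => τ (x (fr v))) hf1 hf2
    (by
      intro v σ hσ hin
      obtain ⟨y, i, hi, h1⟩ := (Pool.Agent.W401.Frob.main K).2.1 v (fr v) σ (hfr v) hσ
      show τ (x (fr v)) = τ (x σ)
      rw [h1, hf1 _ _ (hin i hi)]
      have h2 := hf2 (fr v) y⁻¹
      rw [inv_inv] at h2
      exact h2.symm)
    (by
      refine ⟨∑ q : GK K ⧸ ρ0.ker, ‖τ (x (Quotient.out q))‖, fun v => ?_⟩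
      have h1 : τ (x (fr v)) = τ (x (Quotient.out (QuotientGroup.mk (fr v) : GK K ⧸ ρ0.ker))) := by
        have h2 : (QuotientGroup.mk (fr v) : GK K ⧸ ρ0.ker) =
            QuotientGroup.mk (Quotient.out (QuotientGroup.mk (fr v) : GK K ⧸ ρ0.ker)) :=
          (Quotient.out_eq' _).symm
        have h4 := hf1 (fr v) _ (QuotientGroup.eq.1 h2)
        rw [mul_inv_cancel_left] at h4
        exact h4.symm
      rw [h1]
      exact Finset.single_le_sum (f := fun q : GK K ⧸ ρ0.ker => ‖τ (x (Quotient.out q))‖)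
        (fun q _ => norm_nonneg _) (Finset.mem_univ _))
  have h4 : (∑ᶠ q : GK K ⧸ ρ0.ker, τ (x (Quotient.out q))) / (ρ0.ker.index : ℂ) =
      (Module.finrank (PadicAlgCl ℓ) (Inv ρ) : ℂ) := by
    have h5 := all_AVT (GK K) ρ0.ker n0 (PadicAlgCl ℓ) ρ0 inferInstance hWfi le_rfl
    rw [finsum_eq_sum_of_fintype] at h5 ⊢
    have h6 : ∑ q : GK K ⧸ ρ0.ker, x (Quotient.out q) =
        (ρ0.ker.index : QBar) * (Module.finrank (PadicAlgCl ℓ) (Inv ρ0) : QBar) := by
      apply hκinj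
      rw [map_sum, map_mul, map_natCast, map_natCast, ← h5]
      exact Finset.sum_congr rfl fun q _ => hx _
    rw [← map_sum, h6, map_mul, map_natCast, map_natCast, hinv, mul_comm, mul_div_assoc, div_self,
      mul_one]
    exact_mod_cast hWfi.index_ne_zero
  rw [h4] at h3
  -- the second part
  have hPD1 : PD U L ι e κ 0 ρ1 (fun k => A (i1 k)) (fun k => t (i1 k)) (fun k => φ (i1 k))
      (fun k => Φ (i1 k)) :=
    { normal := h.normal
      isOpen := h.isOpen
      fx := h.fx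
      ac := fun k => h.ac (i1 k)
      wt := fun k => h.wt (i1 k)
      eq := fun s => by
        rw [hu1 _ (hmemU s)]
        congr 1
        funext k
        exact hΦ s (i1 k) }
  have hin0 : ∀ g, ρ g = 1 → ρ0 g = 1 := by
    intro g hg
    apply Units.ext
    ext i j
    have h1 := he0 1 i j
    rw [map_one, map_one] at h1
    rw [he0, hg, h1]
  have hin1 : ∀ g, ρ g = 1 → ρ1 g = 1 := by
    intro g hg
    apply Units.ext
    ext i j
    have h1 := he1 1 i j
    rw [map_one, map_one] at h1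
    rw [he1, hg, h1]
  have h5 := mean_zero all_DSC all_DEU hPD1 τ (Or.inr ⟨rfl, fun k hk => ho1 k ⟨1, one_pos, by
      intro u hu
      rw [← hranL] at hu
      obtain ⟨s, rfl⟩ := hu
      rw [hΦ, hk, pow_one]
      rfl⟩⟩) (fun v => a v - x (fr v)) (by
    filter_upwards [ha] with v hv
    refine ⟨fun s hs => hin1 s (hv.1 s hs), fun s hs => ?_⟩
    obtain ⟨y, i, hi, h1⟩ := (Pool.Agent.W401.Frob.main K).2.1 v (fr v) s (hfr v) hs
    have h2 : x (fr v) = x s := by
      apply τ.injective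
      rw [h1, hf1 _ _ (MonoidHom.mem_ker.2 (hin0 i (hv.1 i hi)))]
      have h2 := hf2 (fr v) y⁻¹
      rw [inv_inv] at h2
      exact h2.symm
    rw [map_sub, h2, hx, hv.2 s hs, htr, add_sub_cancel_left])
  have h6 := (all_MVB K).1 _ _ _ _ h3 h5
  rw [add_zero] at h6
  refine (all_MVB K).2.2.2 _ _ _ h6 (Eventually.of_forall fun v => ?_)
  show τ (x (fr v)) + τ (a v - x (fr v)) / nf 0 v = τ (a v) / nf 0 v
  rw [nf_zero, div_one, div_one, map_sub]
  ring

end

end Pool.Agent.H500.ME
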