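import Pool.Agent.H500.ME.Stm
import Pool.Agent.H328.ZO.SYS

set_option autoImplicit false
set_option linter.unusedSectionVars false

/-!
# Project ME (helper500), part 2: cyclotomic characters, duals, purity
-/

namespace Pool.Agent.H500.ME

open NumberField IsDedekindDomain Filter Topology Polynomial
open Pool.Agent.W401.Cheb (GK IsFrob IsInert dens)
open Pool.Agent.H500.HC (InRay QBar ZBar jz)
open Pool.Agent.H500.SV (Above Fld)
open Pool.Agent.H500.ZO (PotHecke SemiS)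
open Pool.Agent.H500.ED
open Pool.Agent.Q92.AR (Dv Ray prin)

/-- `χ` is the `ℓ-adic` cyclotomic character: it is continuous, unramified at the places `v ∤ ℓ`, and maps
the Frobenius elements at `v` to the norm of `v` -/
structure IsCyc {K : Type} [Field K] [NumberField K] (ℓ : ℕ) [Fact ℓ.Prime]
    (χ : GK K →* (PadicAlgCl ℓ)ˣ) : Prop where
  cont : Continuous fun s => (χ s : PadicAlgCl ℓ)
  unr : ∀ v : HeightOneSpectrum (𝓞 K), (ℓ : 𝓞 K) ∉ v.asIdeal → ∀ s, IsInert v s → χ s = 1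
  frob : ∀ v : HeightOneSpectrum (𝓞 K), (ℓ : 𝓞 K) ∉ v.asIdeal → ∀ s, IsFrob v s →
    (χ s : PadicAlgCl ℓ) = ((Ideal.absNorm v.asIdeal : ℕ) : PadicAlgCl ℓ)

/-- algebraic of weight `m` -/
def AC {L : Type} [Field L] [NumberField L] {ℓ : ℕ} [Fact ℓ.Prime] (κ : QBar →+* PadicAlgCl ℓ)
    (m : ℤ) (Φ : GK L →* (PadicAlgCl ℓ)ˣ) : Prop :=
  ∃ (M : ℕ) (t : (L →+* QBar) → ℤ) (φ : Dv L →+ Additive QBarˣ), IsAC κ M t φ Φ ∧ HasWt m φ

/-- PART E1 (cyclotomic characters).  To be proved: `S_NMC → S_ACM → S_FXC → S_CYC`.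
Proof.  Existence: `S_NMC`.  Two cyclotomic characters are equal: continuity and Chebotarev
(`Pool.Agent.H139.ZO.frob_ex`, `Pool.Agent.H139.ZO.ABL.nhd`); so `χ` is the one of `S_NMC`, of weight `2`.  The composition
with `ι`: `S_FXC` (`ι s = σ^f τ`, `N u = (N v)^f`); every place of `L` lies above a place of `K`. -/
def S_CYC : Prop := ∀ (K : Type) [Field K] [NumberField K] (ℓ : ℕ) [Fact ℓ.Prime]
  (κ : QBar →+* PadicAlgCl ℓ),
  (∃ χ : GK K →* (PadicAlgCl ℓ)ˣ, IsCyc ℓ χ) ∧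
  ∀ χ : GK K →* (PadicAlgCl ℓ)ˣ, IsCyc ℓ χ → AC κ 2 χ ∧
    (∀ χ' : GK K →* (PadicAlgCl ℓ)ˣ, IsCyc ℓ χ' → χ' = χ) ∧
    ∀ (U : Subgroup (GK K)) (L : Type) [Field L] [NumberField L] [Algebra K L] (ι : GK L →* GK K)
      (e : AlgebraicClosure L ≃+* AlgebraicClosure K), IsOpen (U : Set (GK K)) → FX U L ι e →
      IsCyc ℓ (χ.comp ι)

/-- PART E2 (invariants of the dual representation).
Proof.  `V = V^G ⊕ W`, `W` stable.  An invariant functional `f` (`f (ρ(g) x) = f x`) vanishes on `W`: otherwise `ker f ∩ W`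
is a stable subspace, it has a stable complement in `V`, so `W = (ker f ∩ W) ⊕ D` with a stable line `D` (modular law), on
which `f` is injective and so `G` acts trivially: `D ≤ V^G ∩ W = 0`.  So the invariant functionals are the functionals
of `V / W ≅ V^G`.  Vectors `x` with `dual (ρ g) x = x` for all `g` are the invariant functionals `y ↦ x ⬝ᵥ y`
(`Pool/Agent/H328/ZO/SYS.lean`: `coe_dual`, `orth`). -/
def S_DUI : Prop := ∀ (G : Type) [Group G] (n : ℕ) (C : Type) [Field C] (ρ : G →* GL (Fin n) C),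
  SemiS ρ → Module.finrank C (Inv (Pool.Agent.H328.ZO.SYS.dual.comp ρ)) = Module.finrank C (Inv ρ)

/-- PART E3 (the traces are algebraic).  To be proved: `S_FXC → S_TRI`.
Proof.  `d` = index of `U`, `s` Frobenius at `v`: `s^d ∈ U`, and `s^d = ι (s_w^a τ)` (`S_FXC`, last part, `y = 1`), so for almost
all `v`: `(ρ s)^d` is the diagonal matrix with entries `κ(at1 (φ i) w)^a`.  The eigenvalues `y` of `ρ s` satisfy
`y^d = κ(z)` (an eigenvector of `ρ s` is one of `(ρ s)^d`), so they are in the range of `κ` (`QBar` is algebraically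
closed: the polynomial `X^d - z` splits), and the trace is the sum of the roots of the characteristic
polynomial. -/
def S_TRI : Prop := ∀ (K : Type) [Field K] [NumberField K] (U : Subgroup (GK K)) (L : Type) [Field L]
  [NumberField L] [Algebra K L] (ι : GK L →* GK K)
  (e : AlgebraicClosure L ≃+* AlgebraicClosure K), U.Normal → IsOpen (U : Set (GK K)) →
  FX U L ι e → ∀ (ℓ : ℕ) [Fact ℓ.Prime] (κ : QBar →+* PadicAlgCl ℓ) (n : ℕ)
  (ρ : GK K →* GL (Fin n) (PadicAlgCl ℓ)) (Φ : Fin n → (GK L →* (PadicAlgCl ℓ)ˣ)),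
  (∀ i, ∃ (M : ℕ) (t : (L →+* QBar) → ℤ) (φ : Dv L →+ Additive QBarˣ), IsAC κ M t φ (Φ i)) →
  (∀ s, (ρ (ι s) : Matrix (Fin n) (Fin n) (PadicAlgCl ℓ)) =
    Matrix.diagonal fun i => (Φ i s : PadicAlgCl ℓ)) →
  ∀ᶠ v : HeightOneSpectrum (𝓞 K) in cofinite, ∀ s, IsFrob v s →
    ∃ z : QBar, κ z = (ρ s : Matrix (Fin n) (Fin n) (PadicAlgCl ℓ)).trace

/-- PART E4 (purity).  To be proved: `S_WT → S_PUR`.
Proof.  `S_WT` gives the weight `m` of `φ`.  For a place `v ∤ N` of `K` and `w` above `v` of residue degree `f` write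
`(P v).map (jz j) = ∏ (X - α i)` (`Pool.Agent.H37`/`H894`: every monic polynomial over `ZBar` splits), then by
`PotHecke.eq` `ψ_i(w) = α_k^f` for some `k`, so `‖τ(ψ_i w)‖ = (N v)^(f w0 / 2) = (N w)^(w0 / 2)` by the hypothesis for
`τ0 = τ ∘ j`.  Compare with `HasWt m` at one of these places (`N w > 1`): `m = w0`. -/
def S_PUR : Prop := ∀ (K E : Type) [Field K] [NumberField K] [Field E] [NumberField E]
  (j : E →+* QBar) (N n : ℕ) (P : HeightOneSpectrum (𝓞 K) → (𝓞 E)[X])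
  (U : Subgroup (GK K)) (L : Type) [Field L] [NumberField L] [Algebra K L] (ι : GK L →* GK K)
  (e : ℕ) (t : Fin n → (L →+* QBar) → ℕ) (ψ : Fin n → (Ideal (𝓞 L) →*₀ ZBar)), 2 ≤ N →
  PotHecke j N n P U L ι e t ψ → ∀ (w0 : ℤ) (τ0 : E →+* ℂ),
  (∀ v : HeightOneSpectrum (𝓞 K), (N : 𝓞 K) ∉ v.asIdeal →
    ∀ z ∈ ((P v).map (τ0.comp (algebraMap (𝓞 E) E))).roots,
      ‖z‖ = (Ideal.absNorm v.asIdeal : ℝ) ^ ((w0 : ℝ) / 2)) →
  ∀ (i : Fin n) (M : ℕ) (φ : Dv L →+ Additive QBarˣ), 0 < M → IsAlg M (fun σ => (t i σ : ℤ)) φ →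
  (∀ w : HeightOneSpectrum (𝓞 L), (N : 𝓞 L) ∉ w.asIdeal → at1 φ w = ((ψ i w.asIdeal : ZBar) : QBar)) →
  HasWt w0 φ

end Pool.Agent.H500.ME
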