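import Pool.Agent.H500.ME.Mean4
import Pool.Agent.H500.ME.Stm2

set_option autoImplicit false
set_option linter.unusedSectionVars false

/-!
# Mean values: all weights
-/

namespace Pool.Agent.H500.ME

open NumberField IsDedekindDomain Filter Topology Polynomial
open Pool.Agent.W401.Cheb (GK IsFrob IsInert dens)
open Pool.Agent.H500.HC (InRay QBar ZBar jz)
open Pool.Agent.H500.SV (Above Fld)
open Pool.Agent.H500.ZO (PotHecke SemiS)
open Pool.Agent.H500.ED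
open Pool.Agent.Q92.AR (Dv Ray prin)
open Pool.Agent.Q92.FP (twist coe_twist)
open Pool.Agent.H358.ME.ACM (at1_add at1_neg at1_ne norm_pos)
open Pool.Agent.H328.ZO.SYS (dual coe_dual charpoly_dual dual_inj semi_dual)

/-- the vectors on which `G` acts by the character `χ^q` -/
def Eig {G : Type} [Group G] {n : ℕ} {C : Type} [Field C] (ρ : G →* GL (Fin n) C) (χ : G →* Cˣ)
    (q : ℤ) : Submodule C (Fin n → C) where
  carrier := {x | ∀ g, (ρ g : Matrix (Fin n) (Fin n) C).mulVec x = (((χ g) ^ q : Cˣ) : C) • x}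
  add_mem' := fun {x y} hx hy g => by rw [Matrix.mulVec_add, hx g, hy g, smul_add]
  zero_mem' := fun g => by rw [Matrix.mulVec_zero, smul_zero]
  smul_mem' := fun c x hx g => by rw [Matrix.mulVec_smul, hx g, smul_comm]

theorem mem_Eig {G : Type} [Group G] {n : ℕ} {C : Type} [Field C] {ρ : G →* GL (Fin n) C}
    {χ : G →* Cˣ} {q : ℤ} {x : Fin n → C} : x ∈ Eig ρ χ q ↔
    ∀ g, (ρ g : Matrix (Fin n) (Fin n) C).mulVec x = (((χ g) ^ q : Cˣ) : C) • x := Iff.rfl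

theorem mem_Inv {G : Type} [Group G] {n : ℕ} {C : Type} [Field C] {ρ : G →* GL (Fin n) C}
    {x : Fin n → C} : x ∈ Inv ρ ↔
    ∀ g, (ρ g : Matrix (Fin n) (Fin n) C).mulVec x = x := Iff.rfl

theorem inv_twist {G : Type} [Group G] {n : ℕ} {C : Type} [Field C] (ρ : G →* GL (Fin n) C)
    (χ : G →* Cˣ) (q : ℤ) : Inv (twist ρ (χ ^ (-q))) = Eig ρ χ q := by
  ext x
  rw [mem_Inv, mem_Eig]
  refine forall_congr' fun g => ?_
  rw [coe_twist, Matrix.smul_mulVec]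
  have h1 : ((χ ^ (-q)) g : Cˣ) = ((χ g) ^ q)⁻¹ := by
    rw [MonoidHom.zpow_apply, zpow_neg]
  rw [h1, Units.val_inv_eq_inv_val]
  have h2 : (((χ g) ^ q : Cˣ) : C) ≠ 0 := Units.ne_zero _
  constructor
  · intro h
    have h3 := congrArg (fun y => (((χ g) ^ q : Cˣ) : C) • y) h
    simp only [smul_smul, mul_inv_cancel₀ h2, one_smul] at h3
    exact h3
  · intro h
    rw [h, smul_smul, inv_mul_cancel₀ h2, one_smul]

section
variable {L : Type} [Field L] [NumberField L] {ℓ : ℕ} [Fact ℓ.Prime] {κ : QBar →+* PadicAlgCl ℓ}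

theorem AC.mul {m m' : ℤ} {Φ Φ' : GK L →* (PadicAlgCl ℓ)ˣ} (h : AC κ m Φ) (h' : AC κ m' Φ') :
    AC κ (m + m') (Φ * Φ') := by
  obtain ⟨M, t, φ, h1, h2⟩ := h
  obtain ⟨M', t', φ', h1', h2'⟩ := h'
  obtain ⟨a, -, b, -, -⟩ := all_ACM L ℓ κ _ _ _ _ _ _ _ _ h1 h1'
  exact ⟨_, _, _, a, b m m' h2 h2'⟩

theorem AC.inv {m : ℤ} {Φ : GK L →* (PadicAlgCl ℓ)ˣ} (h : AC κ m Φ) : AC κ (-m) Φ⁻¹ := by
  obtain ⟨M, t, φ, h1, h2⟩ := h
  obtain ⟨-, a, -, b, -⟩ := all_ACM L ℓ κ _ _ _ _ _ _ _ _ h1 h1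
  exact ⟨_, _, _, a, b m h2⟩

theorem AC.one : AC κ 0 (1 : GK L →* (PadicAlgCl ℓ)ˣ) := by
  refine ⟨_, _, _, ac_one, fun τ => Eventually.of_forall fun w => ?_⟩
  have h1 : at1 (0 : Dv L →+ Additive QBarˣ) w = 1 := rfl
  rw [h1, map_one, norm_one, one_pow, zpow_zero]

theorem AC.pow {m : ℤ} {Φ : GK L →* (PadicAlgCl ℓ)ˣ} (h : AC κ m Φ) (k : ℕ) :
    AC κ (k * m) (Φ ^ k) := by
  induction k with
  | zero =>
    have h0 : Φ ^ 0 = 1 := MonoidHom.ext fun s => by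
      rw [MonoidHom.pow_apply, _root_.pow_zero]
      rfl
    rw [h0, Nat.cast_zero, zero_mul]
    exact AC.one
  | succ k ih =>
    have h1 := ih.mul h
    have h0 : Φ ^ (k + 1) = Φ ^ k * Φ := MonoidHom.ext fun s => by
      rw [MonoidHom.mul_apply, MonoidHom.pow_apply, MonoidHom.pow_apply, _root_.pow_succ]
    rw [h0]
    have h2 : (((k + 1 : ℕ) : ℤ)) * m = k * m + m := by push_cast; ring
    rw [h2]
    exact h1

theorem AC.zpow {m : ℤ} {Φ : GK L →* (PadicAlgCl ℓ)ˣ} (h : AC κ m Φ) (k : ℤ) :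
    AC κ (k * m) (Φ ^ k) := by
  obtain ⟨k, rfl | rfl⟩ := k.eq_nat_or_neg
  · have h0 : Φ ^ (k : ℤ) = Φ ^ k := MonoidHom.ext fun s => by
      rw [MonoidHom.zpow_apply, MonoidHom.pow_apply, zpow_natCast]
    rw [h0]
    exact h.pow k
  · have h0 : Φ ^ (-(k : ℤ)) = (Φ ^ k)⁻¹ := MonoidHom.ext fun s => by
      rw [MonoidHom.zpow_apply, MonoidHom.inv_apply, MonoidHom.pow_apply, zpow_neg, zpow_natCast]
    rw [h0, neg_mul]
    exact (h.pow k).inv

theorem AC.prod {α : Type} (s : Finset α) {m : ℤ} (Φ : α → (GK L →* (PadicAlgCl ℓ)ˣ))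
    (h : ∀ i ∈ s, AC κ m (Φ i)) : AC κ (s.card * m) (∏ i ∈ s, Φ i) := by
  classical
  induction s using Finset.induction_on with
  | empty =>
    rw [Finset.prod_empty, Finset.card_empty, Nat.cast_zero, zero_mul]
    exact AC.one
  | insert a s ha ih =>
    rw [Finset.prod_insert ha, Finset.card_insert_of_notMem ha]
    have h1 := (h a (Finset.mem_insert_self a s)).mul (ih fun i hi => h i (Finset.mem_insert_of_mem hi))
    have h2 : (((s.card + 1 : ℕ) : ℤ)) * m = m + s.card * m := by push_cast; ring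
    rw [h2]
    exact h1

theorem nf_even {q : ℤ} (w : HeightOneSpectrum (𝓞 L)) :
    nf (2 * q) w = ((Ideal.absNorm w.asIdeal : ℕ) : ℂ) ^ q := by
  unfold nf
  have h1 : ((2 * q : ℤ) : ℝ) / 2 = (q : ℝ) := by push_cast; ring
  rw [h1, Real.rpow_intCast]
  push_cast
  rfl

end

section
variable {K : Type} [Field K] [NumberField K] {U : Subgroup (GK K)} {L : Type} [Field L]
  [NumberField L] [Algebra K L] {ι : GK L →* GK K}
  {e : AlgebraicClosure L ≃+* AlgebraicClosure K} {ℓ : ℕ} [hℓ : Fact ℓ.Prime]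
  {κ : QBar →+* PadicAlgCl ℓ} {m : ℤ} {n : ℕ} {ρ : GK K →* GL (Fin n) (PadicAlgCl ℓ)}
  {Φ : Fin n → (GK L →* (PadicAlgCl ℓ)ˣ)}

/-- arithmetic Frobenius elements -/
theorem mean_arith (hCYC : S_CYC) (hU : U.Normal) (hUo : IsOpen (U : Set (GK K)))
    (hFX : FX U L ι e) (hAC : ∀ i, AC κ m (Φ i))
    (heq : ∀ s, (ρ (ι s) : Matrix (Fin n) (Fin n) (PadicAlgCl ℓ)) =
      Matrix.diagonal fun i => (Φ i s : PadicAlgCl ℓ))
    (τ : QBar →+* ℂ) (a : HeightOneSpectrum (𝓞 K) → QBar)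
    (ha : ∀ᶠ v : HeightOneSpectrum (𝓞 K) in cofinite, (∀ s, IsInert v s → ρ s = 1) ∧
      ∀ s, IsFrob v s → κ (a v) = (ρ s : Matrix (Fin n) (Fin n) (PadicAlgCl ℓ)).trace)
    (χ : GK K →* (PadicAlgCl ℓ)ˣ) (hχ : IsCyc ℓ χ) :
    (∀ q : ℤ, m = 2 * q → MV (fun v => τ (a v) / nf m v)
      (Module.finrank (PadicAlgCl ℓ) (Eig ρ χ q) : ℂ)) ∧
    (Odd m → MV (fun v => τ (a v) / nf m v) 0) := by
  constructor
  · rintro q rfl
    have hχL : IsCyc ℓ (χ.comp ι) := ((hCYC K ℓ κ).2 χ hχ).2.2 U L ι e hUo hFX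
    have hχA : AC κ 2 (χ.comp ι) := ((hCYC L ℓ κ).2 _ hχL).1
    have hAC' : ∀ i, AC κ 0 ((χ.comp ι) ^ (-q) * Φ i) := by
      intro i
      have h1 := (hχA.zpow (-q)).mul (hAC i)
      have h2 : -q * 2 + 2 * q = 0 := by ring
      rw [h2] at h1
      exact h1
    choose M t φ hA hw using hAC'
    have hPD : PD U L ι e κ 0 (twist ρ (χ ^ (-q))) M t φ (fun i => (χ.comp ι) ^ (-q) * Φ i) :=
      { normal := hU
        isOpen := hUo
        fx := hFX
        ac := hA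
        wt := hw
        eq := fun s => by
          rw [coe_twist, heq, ← Matrix.diagonal_smul]
          congr 1 }
    have h1 := mean_wt0 hPD τ (fun v => (((Ideal.absNorm v.asIdeal : ℕ) : QBar) ^ q)⁻¹ * a v) (by
      filter_upwards [ha, ev_not_mem (K := K) hℓ.out.pos] with v hv hv2
      refine ⟨fun s hs => ?_, fun s hs => ?_⟩
      · apply Units.ext
        rw [coe_twist, hv.1 s hs, MonoidHom.zpow_apply, hχ.unr v hv2 s hs, one_zpow, Units.val_one,
          Units.val_one, one_smul]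
      · rw [coe_twist, Matrix.trace_smul, ← hv.2 s hs, map_mul, smul_eq_mul]
        congr 1
        rw [MonoidHom.zpow_apply, zpow_neg, Units.val_inv_eq_inv_val, Units.val_zpow_eq_zpow_val,
          hχ.frob v hv2 s hs, map_inv₀, map_zpow₀, map_natCast])
    rw [inv_twist] at h1
    refine (all_MVB K).2.2.2 _ _ _ h1 (Eventually.of_forall fun v => ?_)
    show τ ((((Ideal.absNorm v.asIdeal : ℕ) : QBar) ^ q)⁻¹ * a v) / nf 0 v = _
    rw [nf_zero, div_one, nf_even, map_mul, map_inv₀, map_zpow₀, map_natCast, mul_comm]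
    rfl
  · intro hm
    choose M t φ hA hw using hAC
    have hPD : PD U L ι e κ m ρ M t φ Φ :=
      { normal := hU
        isOpen := hUo
        fx := hFX
        ac := hA
        wt := hw
        eq := heq }
    exact mean_zero all_DSC all_DEU hPD τ (Or.inl hm) a ha

theorem dual_twist (ρ : GK K →* GL (Fin n) (PadicAlgCl ℓ)) (X : GK K →* (PadicAlgCl ℓ)ˣ) :
    dual.comp (twist ρ X) = twist (dual.comp ρ) X⁻¹ := by
  ext1 g
  apply Units.ext
  rw [coe_twist]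
  show (dual (twist ρ X g) : Matrix (Fin n) (Fin n) (PadicAlgCl ℓ)) =
    _ • (dual (ρ g) : Matrix (Fin n) (Fin n) (PadicAlgCl ℓ))
  rw [coe_dual, coe_dual, ← map_inv, ← map_inv, coe_twist, Matrix.transpose_smul]
  rw [map_inv X, MonoidHom.inv_apply]

/-- geometric Frobenius elements -/
theorem mean_geom (hCYC : S_CYC) (hDUI : S_DUI) (hU : U.Normal) (hUo : IsOpen (U : Set (GK K)))
    (hFX : FX U L ι e) (hAC : ∀ i, AC κ (-m) (Φ i))
    (heq : ∀ s, (ρ (ι s) : Matrix (Fin n) (Fin n) (PadicAlgCl ℓ)) =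
      Matrix.diagonal fun i => (Φ i s : PadicAlgCl ℓ))
    (τ : QBar →+* ℂ) (a : HeightOneSpectrum (𝓞 K) → QBar)
    (ha : ∀ᶠ v : HeightOneSpectrum (𝓞 K) in cofinite, (∀ s, IsInert v s → ρ s = 1) ∧
      ∀ s, IsFrob v s → κ (a v) = (ρ s⁻¹ : Matrix (Fin n) (Fin n) (PadicAlgCl ℓ)).trace)
    (χ : GK K →* (PadicAlgCl ℓ)ˣ) (hχ : IsCyc ℓ χ) :
    (∀ q : ℤ, m = 2 * q → MV (fun v => τ (a v) / nf m v)
      (Module.finrank (PadicAlgCl ℓ) (Eig ρ χ (-q)) : ℂ)) ∧
    (Odd m → MV (fun v => τ (a v) / nf m v) 0) := by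
  have heq' : ∀ s, ((dual.comp ρ) (ι s) : Matrix (Fin n) (Fin n) (PadicAlgCl ℓ)) =
      Matrix.diagonal fun i => (((Φ i)⁻¹ s : (PadicAlgCl ℓ)ˣ) : PadicAlgCl ℓ) := by
    intro s
    show (dual (ρ (ι s)) : Matrix (Fin n) (Fin n) (PadicAlgCl ℓ)) = _
    rw [coe_dual, ← map_inv, ← map_inv, heq, Matrix.diagonal_transpose]
    congr 1
    funext i
    rw [map_inv, MonoidHom.inv_apply]
  have h1 := mean_arith hCYC hU hUo hFX (κ := κ) (m := m) (ρ := dual.comp ρ)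
    (Φ := fun i => (Φ i)⁻¹) (fun i => by
      have h2 := (hAC i).inv
      rw [neg_neg] at h2
      exact h2) heq' τ a (by
      filter_upwards [ha] with v hv
      refine ⟨fun s hs => ?_, fun s hs => ?_⟩
      · show dual (ρ s) = 1
        rw [hv.1 s hs, map_one]
      · rw [hv.2 s hs]
        show _ = (dual (ρ s) : Matrix (Fin n) (Fin n) (PadicAlgCl ℓ)).trace
        rw [coe_dual, Matrix.trace_transpose, ← map_inv]) χ hχ
  refine ⟨fun q hq => ?_, h1.2⟩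
  have h2 := h1.1 q hq
  have hfi : U.FiniteIndex := by
    have := Subgroup.quotient_finite_of_isOpen _ hUo
    exact Subgroup.finiteIndex_of_finite_quotient
  obtain ⟨-, hranL, -, -, -, -, -⟩ := all_FXC K _ L ι e hUo hFX
  have h3 : SemiS (twist ρ (χ ^ q)) := by
    refine all_SEM (GK K) U n (PadicAlgCl ℓ) (twist ρ (χ ^ q)) hfi ?_
    intro u hu
    rw [← hranL] at hu
    obtain ⟨s, rfl⟩ := hu
    rw [coe_twist, heq, ← Matrix.diagonal_smul]
    exact Matrix.isDiag_diagonal _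
  have h4 := hDUI (GK K) n (PadicAlgCl ℓ) (twist ρ (χ ^ q)) h3
  have h5 : (χ ^ q)⁻¹ = χ ^ (-q) := MonoidHom.ext fun s => by
    rw [MonoidHom.inv_apply, MonoidHom.zpow_apply, MonoidHom.zpow_apply, zpow_neg]
  rw [dual_twist, h5, inv_twist] at h4
  have h6 : Inv (twist ρ (χ ^ q)) = Eig ρ χ (-q) := by
    rw [← inv_twist, neg_neg]
  rw [h4, h6] at h2
  exact h2

end

end Pool.Agent.H500.ME
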