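import Pool.Agent.H500.ME.Mean5

set_option autoImplicit false
set_option linter.unusedSectionVars false

/-!
# Representations attached to `P`, and their tensor constructions
-/

namespace Pool.Agent.H500.ME

open NumberField IsDedekindDomain Filter Topology Polynomial
open Pool.Agent.W401.Cheb (GK IsFrob IsInert dens)
open Pool.Agent.H500.HC (InRay QBar ZBar jz)
open Pool.Agent.H500.SV (Above Fld)
open Pool.Agent.H500.ZO (PotHecke SemiS)
open Pool.Agent.H500.MW (PosUD)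
open Pool.Agent.H500.TH (SolRes)
open Pool.Agent.H500.ED
open Pool.Agent.Q92.AR (Dv Ray prin)
open Pool.Agent.Q92.FP (twist coe_twist)
open Pool.Agent.H358.ME.ACM (at1_add at1_neg at1_ne norm_pos ray_mul_left)
open Pool.Agent.H328.ZO.SYS (dual coe_dual charpoly_dual dual_inj semi_dual)

/-- `ρ` is a continuous semisimple representation, unramified at the places `v ∤ N ℓ`, where the
characteristic polynomial of a geometric Frobenius element is `P v` -/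
structure Att {K E : Type} [Field K] [NumberField K] [Field E] [NumberField E] (N n : ℕ)
    (P : HeightOneSpectrum (𝓞 K) → (𝓞 E)[X]) (ℓ : ℕ) [Fact ℓ.Prime] (κ : E →+* PadicAlgCl ℓ)
    (ρ : GK K →* GL (Fin n) (PadicAlgCl ℓ)) : Prop where
  cont : Continuous (fun g => (ρ g : Matrix (Fin n) (Fin n) (PadicAlgCl ℓ)))
  semi : SemiS ρ
  unr : ∀ v : HeightOneSpectrum (𝓞 K), (N : 𝓞 K) ∉ v.asIdeal → (ℓ : 𝓞 K) ∉ v.asIdeal →
    ∀ τ, IsInert v τ → ρ τ = 1
  frob : ∀ v : HeightOneSpectrum (𝓞 K), (N : 𝓞 K) ∉ v.asIdeal → (ℓ : 𝓞 K) ∉ v.asIdeal →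
    ∀ σ, IsFrob v σ → (ρ σ⁻¹ : Matrix (Fin n) (Fin n) (PadicAlgCl ℓ)).charpoly =
      (P v).map (κ.comp (algebraMap (𝓞 E) E))

theorem dual_dual {n : ℕ} {R : Type} [CommRing R] (A : GL (Fin n) R) : dual (dual A) = A := by
  apply Units.ext
  rw [coe_dual, ← map_inv, coe_dual, inv_inv, Matrix.transpose_transpose]

section
variable {K E : Type} [Field K] [NumberField K] [Field E] [NumberField E]

theorem pot (hPUR : S_PUR) (j : E →+* QBar) (N n : ℕ) (hN : 2 ≤ N)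
    (P : HeightOneSpectrum (𝓞 K) → (𝓞 E)[X]) (hP : PosUD (SolRes N n P)) (w0 : ℤ) (τ0 : E →+* ℂ)
    (hpure : ∀ v : HeightOneSpectrum (𝓞 K), (N : 𝓞 K) ∉ v.asIdeal →
      ∀ z ∈ ((P v).map (τ0.comp (algebraMap (𝓞 E) E))).roots,
        ‖z‖ = (Ideal.absNorm v.asIdeal : ℝ) ^ ((w0 : ℝ) / 2)) :
    ∃ (U : Subgroup (GK K)) (L : Type) (_ : Field L) (_ : NumberField L) (_ : Algebra K L)
      (ι : GK L →* GK K) (e : AlgebraicClosure L ≃+* AlgebraicClosure K), U.Normal ∧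
      IsOpen (U : Set (GK K)) ∧ FX U L ι e ∧
      ∀ (ℓ : ℕ) [Fact ℓ.Prime] (κ : QBar →+* PadicAlgCl ℓ)
        (ρ : GK K →* GL (Fin n) (PadicAlgCl ℓ)), Att N n P ℓ (κ.comp j) ρ →
        ∃ (Q : GL (Fin n) (PadicAlgCl ℓ)) (Φ : Fin n → (GK L →* (PadicAlgCl ℓ)ˣ)),
          (∀ i, AC κ (-w0) (Φ i)) ∧ ∀ s,
          ((Q⁻¹ * ρ (ι s) * Q : GL (Fin n) (PadicAlgCl ℓ)) : Matrix (Fin n) (Fin n) (PadicAlgCl ℓ)) =
            Matrix.diagonal fun i => (Φ i s : PadicAlgCl ℓ) := by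
  obtain ⟨U, L, _, _, _, ι, ε, e, t, ψ, H, hFX, -⟩ := sol_ed all_FXE all_FXF j N n hN P hP
  refine ⟨U, L, inferInstance, inferInstance, inferInstance, ι, ε, H.normal, H.isOpen, hFX, ?_⟩
  intro ℓ hℓ κ ρ hρ
  have hHecke : ∀ i, IsHecke (N ^ (e + 1)) N (t i) (ψ i) := fun i =>
    { cop := H.cop i
      typ := fun x hx => H.typ i x
        (Pool.Agent.H500.HC.InRay.mono (pow_dvd_pow N (Nat.le_succ e)) hx) }
  have hpos : 0 < N ^ (e + 1) := pow_pos (by omega) _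
  have h1 := fun i => all_AVA L (N ^ (e + 1)) N (t i) (ψ i) hpos
    (dvd_pow_self N (Nat.succ_ne_zero e)) (hHecke i) ℓ κ
  choose Ψ hΨc hΨ using h1
  have h2 := fun i => all_DIV L (N ^ (e + 1)) N (t i) (ψ i) hpos
    (dvd_pow_self N (Nat.succ_ne_zero e)) (hHecke i)
  choose φ hφ1 hφ2 using h2
  have hpow : ∀ w : HeightOneSpectrum (𝓞 L), ((N ^ (e + 1) : ℕ) : 𝓞 L) ∉ w.asIdeal →
      (N : 𝓞 L) ∉ w.asIdeal := by
    intro w hw h
    apply hw
    rw [Nat.cast_pow, pow_succ]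
    exact w.asIdeal.mul_mem_left _ h
  have hpow' : ∀ w : HeightOneSpectrum (𝓞 L), (N : 𝓞 L) ∉ w.asIdeal →
      ((N ^ (e + 1) : ℕ) : 𝓞 L) ∉ w.asIdeal := by
    intro w hw h
    rw [Nat.cast_pow] at h
    exact hw (w.isPrime.mem_of_pow_mem _ h)
  have hAC : ∀ i, AC κ w0 (Ψ i) := by
    intro i
    refine ⟨N ^ (e + 1) * ℓ, fun σ => (t i σ : ℤ), φ i, ?_, ?_⟩
    · have hsp : ∀ w : HeightOneSpectrum (𝓞 L), ((N ^ (e + 1) * ℓ : ℕ) : 𝓞 L) ∉ w.asIdeal →
          ((N ^ (e + 1) : ℕ) : 𝓞 L) ∉ w.asIdeal ∧ (ℓ : 𝓞 L) ∉ w.asIdeal :=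
        fun w hw => Pool.Agent.H358.ME.ACM.not_mem_mul hw
      exact
        { pos := Nat.mul_pos hpos hℓ.out.pos
          cont := hΨc i
          alg := fun x hx => hφ1 i x (ray_mul_left hx)
          inert := fun w hw s hs => (hΨ i w (hsp w hw).1 (hsp w hw).2).1 s hs
          frob := fun w hw s hs => by
            rw [(hΨ i w (hsp w hw).1 (hsp w hw).2).2 s hs, hφ2 i w (hpow w (hsp w hw).1)] }
    · exact hPUR K E j N n P U L ι e t ψ hN H w0 τ0 hpure i (N ^ (e + 1)) (φ i) hpos (hφ1 i) (hφ2 i)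
  obtain ⟨Q, hQ⟩ := all_MAT K E j N n P U L ι e t ψ hN H ℓ κ Ψ hΨc
    (fun i w hw hwℓ => (hΨ i w (hpow' w hw) hwℓ).2) (dual.comp ρ) (by
      have h4 : (fun g : GK K => ((dual.comp ρ) g : Matrix (Fin n) (Fin n) (PadicAlgCl ℓ))) =
          fun g : GK K => (ρ g⁻¹ : Matrix (Fin n) (Fin n) (PadicAlgCl ℓ)).transpose := by
        funext g
        show (dual (ρ g) : Matrix (Fin n) (Fin n) (PadicAlgCl ℓ)) = _
        rw [coe_dual, map_inv]
      rw [h4]
      exact (hρ.cont.comp continuous_inv).matrix_transpose) (semi_dual ρ hρ.semi) (by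
      intro v hv hvℓ
      refine ⟨fun τ hτ => ?_, fun σ hσ => ?_⟩
      · show dual (ρ τ) = 1
        rw [hρ.unr v hv hvℓ τ hτ, map_one]
      · show (dual (ρ σ) : Matrix (Fin n) (Fin n) (PadicAlgCl ℓ)).charpoly = _
        rw [charpoly_dual, ← map_inv]
        exact hρ.frob v hv hvℓ σ hσ)
  refine ⟨dual Q, fun i => (Ψ i)⁻¹, fun i => (hAC i).inv, fun s => ?_⟩
  have h5 : (dual Q)⁻¹ * ρ (ι s) * dual Q = dual (Q⁻¹ * (dual.comp ρ) (ι s) * Q) := by
    rw [map_mul, map_mul, map_inv]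
    show _ = (dual Q)⁻¹ * dual (dual (ρ (ι s))) * dual Q
    rw [dual_dual]
  rw [h5, coe_dual]
  have h6 := hQ s⁻¹
  have h7 : (Q⁻¹ * (dual.comp ρ) (ι s) * Q)⁻¹ = Q⁻¹ * (dual.comp ρ) (ι s⁻¹) * Q := by
    rw [map_inv, map_inv, mul_inv_rev, mul_inv_rev, inv_inv, mul_assoc]
  rw [h7, h6, Matrix.diagonal_transpose]
  congr 1
  funext i
  rw [map_inv, MonoidHom.inv_apply]

end

section tensors
variable {n : ℕ} {C : Type} [Field C]

/-- the tensor representation of `GL n` -/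
noncomputable def TT (a b : ℕ) : GL (Fin n) C →*
    Matrix ((Fin a → Fin n) × (Fin b → Fin n)) ((Fin a → Fin n) × (Fin b → Fin n)) C where
  toFun := tens a b (MonoidHom.id (GL (Fin n) C))
  map_one' := (all_TEN (GL (Fin n) C) n a b C (MonoidHom.id _)).1
  map_mul' := (all_TEN (GL (Fin n) C) n a b C (MonoidHom.id _)).2.1

theorem tens_eq {G : Type} [Group G] (a b : ℕ) (ρ : G →* GL (Fin n) C) (g : G) :
    tens a b ρ g = TT a b (ρ g) := by
  ext x y
  show _ = tens a b (MonoidHom.id (GL (Fin n) C)) (ρ g) x y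
  unfold tens
  simp only [MonoidHom.id_apply, map_inv]

end tensors

section
variable {K : Type} [Field K] [NumberField K] {U : Subgroup (GK K)} {L : Type} [Field L]
  [NumberField L] [Algebra K L] {ι : GK L →* GK K}
  {e : AlgebraicClosure L ≃+* AlgebraicClosure K} {ℓ : ℕ} [hℓ : Fact ℓ.Prime]
  {κ : QBar →+* PadicAlgCl ℓ} {n : ℕ} {ρ : GK K →* GL (Fin n) (PadicAlgCl ℓ)}
  {Φ : Fin n → (GK L →* (PadicAlgCl ℓ)ˣ)}

/-- subrepresentations of the tensor constructions -/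
theorem sub_tens (hran : ι.range = U) {w : ℤ} (hAC : ∀ i, AC κ w (Φ i))
    (Q : GL (Fin n) (PadicAlgCl ℓ))
    (hQ : ∀ s, ((Q⁻¹ * ρ (ι s) * Q : GL (Fin n) (PadicAlgCl ℓ)) :
      Matrix (Fin n) (Fin n) (PadicAlgCl ℓ)) = Matrix.diagonal fun i => (Φ i s : PadicAlgCl ℓ))
    (a b m : ℕ) (W : GK K →* GL (Fin m) (PadicAlgCl ℓ))
    (T : Matrix ((Fin a → Fin n) × (Fin b → Fin n)) (Fin m) (PadicAlgCl ℓ))
    (hT : ∀ x : Fin m → PadicAlgCl ℓ, T.mulVec x = 0 → x = 0)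
    (hTW : ∀ g, tens a b ρ g * T = T * (W g : Matrix (Fin m) (Fin m) (PadicAlgCl ℓ))) :
    ∃ (Q' : GL (Fin m) (PadicAlgCl ℓ)) (Φ' : Fin m → (GK L →* (PadicAlgCl ℓ)ˣ)),
      (∀ k, AC κ (w * (a - b)) (Φ' k)) ∧ ∀ s,
      ((Q'⁻¹ * W (ι s) * Q' : GL (Fin m) (PadicAlgCl ℓ)) :
        Matrix (Fin m) (Fin m) (PadicAlgCl ℓ)) = Matrix.diagonal fun k => (Φ' k s : PadicAlgCl ℓ) := by
  classical
  let R : GK K →* Matrix ((Fin a → Fin n) × (Fin b → Fin n)) ((Fin a → Fin n) × (Fin b → Fin n))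
      (PadicAlgCl ℓ) :=
    { toFun := fun g => TT a b (Q⁻¹ * ρ g * Q)
      map_one' := by rw [map_one, mul_one, inv_mul_cancel, map_one]
      map_mul' := fun g h => by
        rw [← map_mul (TT a b)]
        congr 1
        rw [map_mul]
        group }
  have hR : ∀ g, R g = TT a b (Q⁻¹ * ρ g * Q) := fun g => rfl
  have hRd : ∀ s, (R (ι s)).IsDiag ∧ ∀ x, R (ι s) x x =
      (∏ k, (Φ (x.1 k) s : PadicAlgCl ℓ)) * ∏ k, ((Φ (x.2 k) s : PadicAlgCl ℓ))⁻¹ := by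
    intro s
    have h1 := (all_TEN (GL (Fin n) (PadicAlgCl ℓ)) n a b (PadicAlgCl ℓ) (MonoidHom.id _)).2.2.2
      (Q⁻¹ * ρ (ι s) * Q) (by
        rw [MonoidHom.id_apply, hQ]
        exact Matrix.isDiag_diagonal _)
    refine ⟨h1.1, fun x => ?_⟩
    have h2 := h1.2 x
    simp only [MonoidHom.id_apply, hQ, Matrix.diagonal_apply_eq] at h2
    exact h2
  have hinv : TT a b Q * TT a b Q⁻¹ = 1 := by
    rw [← map_mul, mul_inv_cancel, map_one]
  obtain ⟨Q', i, hQ'⟩ := all_SUB (GK K) U m ((Fin a → Fin n) × (Fin b → Fin n)) (PadicAlgCl ℓ) R W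
    (TT a b Q⁻¹ * T) (by
      intro u hu
      rw [← hran] at hu
      obtain ⟨s, rfl⟩ := hu
      exact (hRd s).1) (by
      intro g
      rw [hR, map_mul, map_mul, Matrix.mul_assoc (TT a b Q⁻¹ * TT a b (ρ g)),
        ← Matrix.mul_assoc (TT a b Q), hinv, Matrix.one_mul, Matrix.mul_assoc, ← tens_eq, hTW,
        Matrix.mul_assoc]) (by
      intro x hx
      apply hT
      rw [← Matrix.mulVec_mulVec] at hx
      have h1 := congrArg (fun y => (TT a b Q).mulVec y) hx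
      simp only [Matrix.mulVec_mulVec, Matrix.mulVec_zero] at h1
      rw [← Matrix.mul_assoc, hinv, Matrix.one_mul] at h1
      exact h1)
  refine ⟨Q', fun k => (∏ c ∈ (Finset.univ : Finset (Fin a)), Φ ((i k).1 c)) *
    (∏ c ∈ (Finset.univ : Finset (Fin b)), Φ ((i k).2 c))⁻¹, fun k => ?_, fun s => ?_⟩
  · have h1 := (AC.prod (Finset.univ : Finset (Fin a)) (fun c => Φ ((i k).1 c))
      fun c _ => hAC _).mul (AC.prod (Finset.univ : Finset (Fin b)) (fun c => Φ ((i k).2 c))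
      fun c _ => hAC _).inv
    have h2 : w * ((a : ℤ) - (b : ℤ)) = ((Finset.univ : Finset (Fin a)).card : ℤ) * w +
        -(((Finset.univ : Finset (Fin b)).card : ℤ) * w) := by
      rw [Finset.card_univ, Finset.card_univ, Fintype.card_fin, Fintype.card_fin]
      ring
    rw [h2]
    exact h1
  · rw [hQ' (ι s) (by rw [← hran]; exact ⟨s, rfl⟩)]
    congr 1
    funext k
    rw [(hRd s).2, MonoidHom.mul_apply, MonoidHom.inv_apply, MonoidHom.finsetProd_apply,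
      MonoidHom.finsetProd_apply, Units.val_mul, Units.val_inv_eq_inv_val, Units.coe_prod,
      Units.coe_prod, Finset.prod_inv_distrib]

end

end Pool.Agent.H500.ME
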