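import Pool.Agent.H500.ME.Mean6

set_option autoImplicit false
set_option linter.unusedSectionVars false

/-!
# The mean values of the Frobenius traces of all tensor constructions
-/

namespace Pool.Agent.H500.ME

open NumberField IsDedekindDomain Filter Topology Polynomial
open Pool.Agent.W401.Cheb (GK IsFrob IsInert dens)
open Pool.Agent.H500.HC (InRay QBar ZBar jz)
open Pool.Agent.H500.SV (Above Fld)
open Pool.Agent.H500.ZO (PotHecke SemiS)
open Pool.Agent.H500.MW (PosUD)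
open Pool.Agent.H500.TH (SolRes)
open Pool.Agent.H500.ED
open Pool.Agent.Q92.AR (Dv Ray prin)
open Pool.Agent.Q92.FP (twist coe_twist)
open Pool.Agent.H358.ME.ACM (at1_add at1_neg at1_ne norm_pos ray_mul_left)
open Pool.Agent.H328.ZO.SYS (dual coe_dual charpoly_dual dual_inj semi_dual)

/-- conjugation -/
def cjr {G : Type} [Group G] {m : ℕ} {C : Type} [Field C] (Q : GL (Fin m) C)
    (W : G →* GL (Fin m) C) : G →* GL (Fin m) C where
  toFun g := Q⁻¹ * W g * Q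
  map_one' := by rw [map_one, mul_one, inv_mul_cancel]
  map_mul' g h := by rw [map_mul]; group

theorem cjr_apply {G : Type} [Group G] {m : ℕ} {C : Type} [Field C] (Q : GL (Fin m) C)
    (W : G →* GL (Fin m) C) (g : G) : cjr Q W g = Q⁻¹ * W g * Q := rfl

theorem cjr_trace {G : Type} [Group G] {m : ℕ} {C : Type} [Field C] (Q : GL (Fin m) C)
    (W : G →* GL (Fin m) C) (g : G) : (cjr Q W g : Matrix (Fin m) (Fin m) C).trace =
      (W g : Matrix (Fin m) (Fin m) C).trace := by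
  rw [cjr_apply, Units.val_mul, Units.val_mul, Matrix.trace_mul_comm, ← mul_assoc,
    ← Units.val_mul, mul_inv_cancel, Units.val_one, one_mul]

theorem eig_cjr {G : Type} [Group G] {m : ℕ} {C : Type} [Field C] (Q : GL (Fin m) C)
    (W : G →* GL (Fin m) C) (χ : G →* Cˣ) (q : ℤ) :
    Module.finrank C (Eig (cjr Q W) χ q) = Module.finrank C (Eig W χ q) := by
  have h1 : (Q : Matrix (Fin m) (Fin m) C) * ((Q⁻¹ : GL (Fin m) C) : Matrix (Fin m) (Fin m) C) = 1 := by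
    rw [← Units.val_mul, mul_inv_cancel, Units.val_one]
  have h2 : ((Q⁻¹ : GL (Fin m) C) : Matrix (Fin m) (Fin m) C) * (Q : Matrix (Fin m) (Fin m) C) = 1 := by
    rw [← Units.val_mul, inv_mul_cancel, Units.val_one]
  let E : (Fin m → C) ≃ₗ[C] (Fin m → C) := LinearEquiv.ofLinear
    (Matrix.toLin' (Q : Matrix (Fin m) (Fin m) C))
    (Matrix.toLin' ((Q⁻¹ : GL (Fin m) C) : Matrix (Fin m) (Fin m) C))
    (by rw [← Matrix.toLin'_mul, h1, Matrix.toLin'_one])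
    (by rw [← Matrix.toLin'_mul, h2, Matrix.toLin'_one])
  have hE : ∀ x, E x = (Q : Matrix (Fin m) (Fin m) C).mulVec x := fun x => rfl
  have h3 : (Eig (cjr Q W) χ q).map (E : (Fin m → C) →ₗ[C] (Fin m → C)) = Eig W χ q := by
    ext y
    rw [Submodule.mem_map]
    constructor
    · rintro ⟨x, hx, rfl⟩
      rw [mem_Eig] at hx ⊢
      intro g
      have h4 := congrArg (fun z => (Q : Matrix (Fin m) (Fin m) C).mulVec z) (hx g)
      simp only [cjr_apply, Units.val_mul, Matrix.mulVec_mulVec, Matrix.mulVec_smul] at h4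
      rw [← mul_assoc, ← mul_assoc, h1, one_mul, ← Matrix.mulVec_mulVec] at h4
      exact h4
    · intro hy
      rw [mem_Eig] at hy
      refine ⟨((Q⁻¹ : GL (Fin m) C) : Matrix (Fin m) (Fin m) C).mulVec y, ?_, ?_⟩
      · rw [mem_Eig]
        intro g
        rw [cjr_apply, Units.val_mul, Units.val_mul, Matrix.mulVec_mulVec, mul_assoc, h1, mul_one,
          ← Matrix.mulVec_mulVec, hy g, Matrix.mulVec_smul]
      · show (Q : Matrix (Fin m) (Fin m) C).mulVec _ = y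
        rw [Matrix.mulVec_mulVec, h1, Matrix.one_mulVec]
  rw [← h3]
  exact (LinearEquiv.finrank_map_eq E _).symm

section
variable {K E : Type} [Field K] [NumberField K] [Field E] [NumberField E]

theorem mean_W (hCYC : S_CYC) (hDUI : S_DUI) (hTRI : S_TRI) (hPUR : S_PUR) (N n : ℕ) (hN : 2 ≤ N)
    (P : HeightOneSpectrum (𝓞 K) → (𝓞 E)[X]) (hP : PosUD (SolRes N n P)) (w0 : ℤ) (τ0 : E →+* ℂ)
    (hpure : ∀ v : HeightOneSpectrum (𝓞 K), (N : 𝓞 K) ∉ v.asIdeal →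
      ∀ z ∈ ((P v).map (τ0.comp (algebraMap (𝓞 E) E))).roots,
        ‖z‖ = (Ideal.absNorm v.asIdeal : ℝ) ^ ((w0 : ℝ) / 2))
    (ℓ : ℕ) [hℓ : Fact ℓ.Prime] (κ0 : E →+* PadicAlgCl ℓ) (ιc : PadicAlgCl ℓ ≃+* ℂ)
    (ρ : GK K →* GL (Fin n) (PadicAlgCl ℓ)) (hρ : Att N n P ℓ κ0 ρ)
    (χ : GK K →* (PadicAlgCl ℓ)ˣ) (hχ : IsCyc ℓ χ) (a b m : ℕ)
    (W : GK K →* GL (Fin m) (PadicAlgCl ℓ))
    (T : Matrix ((Fin a → Fin n) × (Fin b → Fin n)) (Fin m) (PadicAlgCl ℓ))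
    (hT : ∀ x : Fin m → PadicAlgCl ℓ, T.mulVec x = 0 → x = 0)
    (hTW : ∀ g, tens a b ρ g * T = T * (W g : Matrix (Fin m) (Fin m) (PadicAlgCl ℓ)))
    (F : HeightOneSpectrum (𝓞 K) → ℂ)
    (hF : ∀ᶠ v : HeightOneSpectrum (𝓞 K) in cofinite, ∀ s, IsFrob v s →
      F v = ιc (W s⁻¹ : Matrix (Fin m) (Fin m) (PadicAlgCl ℓ)).trace /
        nf (w0 * ((a : ℤ) - (b : ℤ))) v) :
    (∀ q : ℤ, w0 * ((a : ℤ) - (b : ℤ)) = 2 * q → MV F
      (Module.finrank (PadicAlgCl ℓ) (Eig W χ (-q)) : ℂ)) ∧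
    (Odd (w0 * ((a : ℤ) - (b : ℤ))) → MV F 0) := by
  classical
  let j : E →+* QBar := ((IsAlgClosed.lift : E →ₐ[ℚ] QBar) : E →+* QBar)
  obtain ⟨κ, hκ⟩ := exists_ext j κ0
  obtain ⟨U, L, _, _, _, ι, e, hU, hUo, hFX, hpot⟩ := pot hPUR j N n hN P hP w0 τ0 hpure
  obtain ⟨Q, Φ, hAC, hQ⟩ := hpot ℓ κ ρ (by rw [hκ]; exact hρ)
  obtain ⟨hinjL, hranL, -, -, -, -, -⟩ := all_FXC K _ L ι e hUo hFX
  obtain ⟨Q', Φ', hAC', hQ'⟩ := sub_tens hranL hAC Q hQ a b m W T hT hTW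
  have hAC2 : ∀ k, AC κ (-(w0 * ((a : ℤ) - (b : ℤ)))) (Φ' k) := by
    intro k
    rw [← neg_mul]
    exact hAC' k
  have hκinj := κ.injective
  have heq : ∀ s, (cjr Q' W (ι s) : Matrix (Fin m) (Fin m) (PadicAlgCl ℓ)) =
      Matrix.diagonal fun k => (Φ' k s : PadicAlgCl ℓ) := hQ'
  -- unramified
  have hun : ∀ᶠ v : HeightOneSpectrum (𝓞 K) in cofinite, ∀ s, IsInert v s → W s = 1 := by
    filter_upwards [ev_not_mem (K := K) (N := N) (by omega), ev_not_mem (K := K) hℓ.out.pos]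
      with v hv hvℓ s hs
    have h1 := hTW s
    rw [tens_eq, hρ.unr v hv hvℓ s hs, map_one, Matrix.one_mul] at h1
    apply Units.ext
    rw [Units.val_one]
    have h2 : ∀ x : Fin m → PadicAlgCl ℓ,
        (W s : Matrix (Fin m) (Fin m) (PadicAlgCl ℓ)).mulVec x = x := by
      intro x
      have h3 := hT ((W s : Matrix (Fin m) (Fin m) (PadicAlgCl ℓ)).mulVec x - x) (by
        rw [Matrix.mulVec_sub, Matrix.mulVec_mulVec, ← h1, sub_self])
      exact sub_eq_zero.1 h3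
    exact Matrix.ext_of_mulVec_single fun i => by rw [h2, Matrix.one_mulVec]
  have hun' : ∀ᶠ v : HeightOneSpectrum (𝓞 K) in cofinite, ∀ s, IsInert v s → cjr Q' W s = 1 := by
    filter_upwards [hun] with v hv s hs
    rw [cjr_apply, hv s hs, mul_one, inv_mul_cancel]
  -- the traces
  have h1 := hTRI K U L ι e hU hUo hFX ℓ κ m (dual.comp (cjr Q' W)) (fun k => (Φ' k)⁻¹) (by
    intro k
    obtain ⟨M, t, φ, h2, -⟩ := (hAC2 k).inv
    exact ⟨M, t, φ, h2⟩) (by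
    intro s
    show (dual (cjr Q' W (ι s)) : Matrix (Fin m) (Fin m) (PadicAlgCl ℓ)) = _
    rw [coe_dual, ← map_inv, ← map_inv, heq, Matrix.diagonal_transpose]
    congr 1
    funext i
    rw [map_inv, MonoidHom.inv_apply])
  choose fr hfr using (Pool.Agent.W401.Frob.main K).1
  have h2 : ∀ v : HeightOneSpectrum (𝓞 K), ∃ z : QBar,
      (∃ z : QBar, κ z = ((dual.comp (cjr Q' W)) (fr v) :
        Matrix (Fin m) (Fin m) (PadicAlgCl ℓ)).trace) →
      κ z = ((dual.comp (cjr Q' W)) (fr v) : Matrix (Fin m) (Fin m) (PadicAlgCl ℓ)).trace := by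
    intro v
    by_cases h : ∃ z : QBar, κ z = ((dual.comp (cjr Q' W)) (fr v) :
        Matrix (Fin m) (Fin m) (PadicAlgCl ℓ)).trace
    · obtain ⟨z, hz⟩ := h
      exact ⟨z, fun _ => hz⟩
    · exact ⟨0, fun h' => absurd h' h⟩
  choose av hav using h2
  have h3 : ∀ᶠ v : HeightOneSpectrum (𝓞 K) in cofinite, (∀ s, IsInert v s → cjr Q' W s = 1) ∧
      ∀ s, IsFrob v s → κ (av v) =
        (cjr Q' W s⁻¹ : Matrix (Fin m) (Fin m) (PadicAlgCl ℓ)).trace := by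
    filter_upwards [h1, hun'] with v hv hv'
    refine ⟨hv', fun s hs => ?_⟩
    have h4 := hav v (hv (fr v) (hfr v))
    have h5 : ∀ g, ((dual.comp (cjr Q' W)) g : Matrix (Fin m) (Fin m) (PadicAlgCl ℓ)).trace =
        (cjr Q' W g⁻¹ : Matrix (Fin m) (Fin m) (PadicAlgCl ℓ)).trace := by
      intro g
      show (dual (cjr Q' W g) : Matrix (Fin m) (Fin m) (PadicAlgCl ℓ)).trace = _
      rw [coe_dual, Matrix.trace_transpose, ← map_inv]
    rw [h5] at h4
    rw [h4]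
    obtain ⟨y, i, hi, h6⟩ := (Pool.Agent.W401.Frob.main K).2.1 v (fr v) s (hfr v) hs
    have h7 : cjr Q' W s⁻¹ = cjr Q' W y * cjr Q' W (fr v)⁻¹ * (cjr Q' W y)⁻¹ := by
      rw [h6, mul_inv_rev, mul_inv_rev, mul_inv_rev, inv_inv, map_mul, map_mul, map_mul,
        map_inv _ i, hv' i hi, inv_one, one_mul, map_inv _ y, mul_assoc]
    rw [h7, Units.val_mul, Units.val_mul, Matrix.trace_mul_comm, ← mul_assoc,
      ← Units.val_mul, inv_mul_cancel, Units.val_one, one_mul]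
  have h4 := mean_geom hCYC hDUI hU hUo hFX hAC2 heq ((ιc : PadicAlgCl ℓ →+* ℂ).comp κ) av h3 χ hχ
  have h5 : ∀ᶠ v : HeightOneSpectrum (𝓞 K) in cofinite,
      ((ιc : PadicAlgCl ℓ →+* ℂ).comp κ) (av v) / nf (w0 * ((a : ℤ) - (b : ℤ))) v = F v := by
    filter_upwards [h3, hF] with v hv hv'
    rw [hv' (fr v) (hfr v)]
    congr 1
    show ιc (κ (av v)) = _
    rw [hv.2 (fr v) (hfr v), cjr_trace]
  refine ⟨fun q hq => ?_, fun hodd => ?_⟩
  · have h6 := h4.1 q hq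
    rw [eig_cjr] at h6
    exact (all_MVB K).2.2.2 _ _ _ h6 h5
  · exact (all_MVB K).2.2.2 _ _ _ (h4.2 hodd) h5

end

end Pool.Agent.H500.ME
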