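import Pool.Agent.H500.ME.Stm2

set_option autoImplicit false
set_option linter.unusedSectionVars false

/-!
# Project ME (helper500), part 3: absolute values of the eigenvalues
-/

namespace Pool.Agent.H500.ME

open NumberField IsDedekindDomain Filter Topology Polynomial
open Pool.Agent.W401.Cheb (GK IsFrob IsInert dens)
open Pool.Agent.H500.HC (InRay QBar ZBar jz)
open Pool.Agent.H500.ED

/-- PART E5 (absolute values).  To be proved: `S_FXC → S_CYC → S_EIG`.
Proof.  Let `d > 0` be the index of `U` and `s` Frobenius at `v`: `s^d ∈ U`, and `s^d = ι (s_w^a τ)`, `s_w` Frobenius and `τ`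
inertia at a place `w` above `v` (`S_FXC`, last part, `y = 1`), `N w = (N v)^f`, `ι s_w = σ^f τ'`.  For `v ∤ ℓ` the cyclotomic
character `χ` (`S_CYC`) gives `(N v)^d = χ(s^d) = χ(ι s_w)^a = (N v)^(f a)`, so `f a = d`.  For almost all `v` (all the places
above `v` are good for the `IsAC` data, and `HasWt` holds there for the embedding `ιc ∘ κ`) `(ρ s)^d` is the diagonal
matrix with entries `κ(at1 (φ i) w)^a`, of absolute value squared `(N w)^(m a) = (N v)^(m d)` under `ιc`.  For an eigenvalue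
`y` of `ρ s` (an eigenvector of `ρ s` is one of `(ρ s)^d`): `y^d` is one of these entries, so
`‖ιc y‖^(2 d) = (N v)^(m d)`, `‖ιc y‖ = (N v)^(m/2)`.  Compare `Pool/Agent/H396/ME/TRI.lean` (the same argument for the
algebraicity of `y`). -/
def S_EIG : Prop := ∀ (K : Type) [Field K] [NumberField K] (U : Subgroup (GK K)) (L : Type) [Field L]
  [NumberField L] [Algebra K L] (ι : GK L →* GK K)
  (e : AlgebraicClosure L ≃+* AlgebraicClosure K), U.Normal → IsOpen (U : Set (GK K)) →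
  FX U L ι e → ∀ (ℓ : ℕ) [Fact ℓ.Prime] (κ : QBar →+* PadicAlgCl ℓ) (n : ℕ) (m : ℤ)
  (ρ : GK K →* GL (Fin n) (PadicAlgCl ℓ)) (Φ : Fin n → (GK L →* (PadicAlgCl ℓ)ˣ)),
  (∀ i, AC κ m (Φ i)) →
  (∀ s, (ρ (ι s) : Matrix (Fin n) (Fin n) (PadicAlgCl ℓ)) =
    Matrix.diagonal fun i => (Φ i s : PadicAlgCl ℓ)) → ∀ ιc : PadicAlgCl ℓ →+* ℂ,
  ∀ᶠ v : HeightOneSpectrum (𝓞 K) in cofinite, ∀ s, IsFrob v s →
    ∀ y ∈ (ρ s : Matrix (Fin n) (Fin n) (PadicAlgCl ℓ)).charpoly.roots,
      ‖ιc y‖ = (Ideal.absNorm v.asIdeal : ℝ) ^ ((m : ℝ) / 2)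

end Pool.Agent.H500.ME
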