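import Pool.Agent.H500.ME.Mean7
import Pool.Agent.H500.ME.Stm3

set_option autoImplicit false
set_option linter.unusedSectionVars false

/-!
# Systems with solvable residual images: existence, Frobenius traces, the `L`-function at the edge
-/

namespace Pool.Agent.H500.ME

open NumberField IsDedekindDomain Filter Topology Polynomial
open Pool.Agent.W401.Cheb (GK IsFrob IsInert dens)
open Pool.Agent.H500.HC (InRay QBar ZBar jz)
open Pool.Agent.H500.SV (Above Fld)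
open Pool.Agent.H500.ZO (PotHecke SemiS)
open Pool.Agent.H500.MW (PosUD)
open Pool.Agent.H500.TH (SolRes)
open Pool.Agent.H500.ED
open Pool.Agent.H328.ZO.SYS (dual coe_dual charpoly_dual dual_inj semi_dual)

/-- There is a residual representation with solvable image at `lam` attached to `P`: a representation of
dimension `n` of the absolute Galois group of `K` over a field which contains the residue field of
`lam`, with open kernel and solvable image, unramified at the places `v` which do not contain `N` nor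
the norm of `lam`, where the characteristic polynomial of a geometric Frobenius element is `P v` modulo
`lam`. -/
def SolvableAt {K E : Type} [Field K] [NumberField K] [Field E] [NumberField E] (N n : ℕ)
    (P : HeightOneSpectrum (𝓞 K) → (𝓞 E)[X]) (lam : HeightOneSpectrum (𝓞 E)) : Prop :=
  ∃ (k : Type) (_ : Field k) (φ : 𝓞 E →+* k) (ρ : GK K →* GL (Fin n) k),
    RingHom.ker φ = lam.asIdeal ∧ IsOpen (ρ.ker : Set (GK K)) ∧ Group.IsSolvable ρ.range ∧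
    ∀ v : HeightOneSpectrum (𝓞 K), (N : 𝓞 K) ∉ v.asIdeal →
      ((Ideal.absNorm lam.asIdeal : ℕ) : 𝓞 K) ∉ v.asIdeal →
      (∀ τ, IsInert v τ → ρ τ = 1) ∧ ∀ σ, IsFrob v σ →
        (ρ σ⁻¹ : Matrix (Fin n) (Fin n) k).charpoly = (P v).map φ

section
variable {K E : Type} [Field K] [NumberField K] [Field E] [NumberField E]

theorem SolvableAt.solRes {N n : ℕ} {P : HeightOneSpectrum (𝓞 K) → (𝓞 E)[X]}
    {lam : HeightOneSpectrum (𝓞 E)} (h : SolvableAt N n P lam) : SolRes N n P lam := by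
  obtain ⟨k, _, φ, ρ, h1, h2, h3, h4⟩ := h
  have hdual : ∀ g : GK K, dual (ρ g) = 1 ↔ ρ g = 1 := by
    intro g
    constructor
    · intro h
      exact dual_inj (h.trans (map_one dual).symm)
    · intro h
      rw [h, map_one]
  refine ⟨k, inferInstance, φ, dual.comp ρ, h1, ?_, ?_, ?_, ?_⟩
  · have h5 : ((dual.comp ρ).ker : Set (GK K)) = (ρ.ker : Set (GK K)) := by
      ext g
      exact hdual g
    rw [h5]
    exact h2
  · intro v hv τ hτ
    rw [Nat.cast_mul] at hv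
    have hv1 : (N : 𝓞 K) ∉ v.asIdeal := fun h => hv (v.asIdeal.mul_mem_right _ h)
    have hv2 : ((Ideal.absNorm lam.asIdeal : ℕ) : 𝓞 K) ∉ v.asIdeal :=
      fun h => hv (v.asIdeal.mul_mem_left _ h)
    exact (hdual τ).2 ((h4 v hv1 hv2).1 τ hτ)
  · intro v hv1 hv2 σ hσ
    show (dual (ρ σ) : Matrix (Fin n) (Fin n) k).charpoly = _
    rw [charpoly_dual, ← map_inv]
    exact (h4 v hv1 hv2).2 σ hσ
  · exact Pool.Agent.H500.TH.sol_of_ker ρ (dual.comp ρ) (fun g hg => (hdual g).2 hg) h3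

/-- existence -/
theorem att_exists {N n : ℕ} (hN : 2 ≤ N) {P : HeightOneSpectrum (𝓞 K) → (𝓞 E)[X]}
    (hP : PosUD (SolRes N n P)) (ℓ : ℕ) [Fact ℓ.Prime] (κ : E →+* PadicAlgCl ℓ) :
    ∃ ρ : GK K →* GL (Fin n) (PadicAlgCl ℓ), Att N n P ℓ κ ρ := by
  let j : E →+* QBar := ((IsAlgClosed.lift : E →ₐ[ℚ] QBar) : E →+* QBar)
  obtain ⟨κ', hκ⟩ := exists_ext j κ
  obtain ⟨U, L, _, _, _, ι, e, t, ψ, H, hex⟩ := all_EDM K E j N n hN P hP
  obtain ⟨R, hR1, hR2, hR3, hR4⟩ := hex ℓ κ'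
  refine ⟨dual.comp R, ?_, semi_dual R hR2, fun v hv hℓ τ hτ => ?_, fun v hv hℓ σ hσ => ?_⟩
  · have h4 : (fun g : GK K => ((dual.comp R) g : Matrix (Fin n) (Fin n) (PadicAlgCl ℓ))) =
        fun g : GK K => (R g⁻¹ : Matrix (Fin n) (Fin n) (PadicAlgCl ℓ)).transpose := by
      funext g
      show (dual (R g) : Matrix (Fin n) (Fin n) (PadicAlgCl ℓ)) = _
      rw [coe_dual, map_inv]
    rw [h4]
    exact (hR1.comp continuous_inv).matrix_transpose
  · show dual (R τ) = 1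
    rw [(hR4 v hv hℓ).1 τ hτ, map_one]
  · show (dual (R σ⁻¹) : Matrix (Fin n) (Fin n) (PadicAlgCl ℓ)).charpoly = _
    rw [charpoly_dual, ← map_inv, inv_inv, (hR4 v hv hℓ).2 σ hσ, hκ]

/-- the normalized trace -/
noncomputable def FV (P : HeightOneSpectrum (𝓞 K) → (𝓞 E)[X]) (τ : E →+* ℂ) (w : ℤ)
    (v : HeightOneSpectrum (𝓞 K)) : ℂ :=
  τ (-((P v).nextCoeff : E)) / nf w v

theorem mean_V (hCYC : S_CYC) (hDUI : S_DUI) (hPUR : S_PUR) (N n : ℕ) (hN : 2 ≤ N)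
    (P : HeightOneSpectrum (𝓞 K) → (𝓞 E)[X]) (hP : PosUD (SolRes N n P)) (w0 : ℤ) (τ0 : E →+* ℂ)
    (hpure : ∀ v : HeightOneSpectrum (𝓞 K), (N : 𝓞 K) ∉ v.asIdeal →
      ∀ z ∈ ((P v).map (τ0.comp (algebraMap (𝓞 E) E))).roots,
        ‖z‖ = (Ideal.absNorm v.asIdeal : ℝ) ^ ((w0 : ℝ) / 2))
    (ℓ : ℕ) [hℓ : Fact ℓ.Prime] (κ0 : E →+* PadicAlgCl ℓ)
    (ρ : GK K →* GL (Fin n) (PadicAlgCl ℓ)) (hρ : Att N n P ℓ κ0 ρ)
    (χ : GK K →* (PadicAlgCl ℓ)ˣ) (hχ : IsCyc ℓ χ) :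
    (∀ q : ℤ, w0 = 2 * q → MV (FV P τ0 w0)
      (Module.finrank (PadicAlgCl ℓ) (Eig ρ χ (-q)) : ℂ)) ∧
    (Odd w0 → MV (FV P τ0 w0) 0) := by
  classical
  let j : E →+* QBar := ((IsAlgClosed.lift : E →ₐ[ℚ] QBar) : E →+* QBar)
  obtain ⟨κ, hκ⟩ := exists_ext j κ0
  obtain ⟨ε, hε⟩ := exists_ext j τ0
  obtain ⟨U, L, _, _, _, ι, e, hU, hUo, hFX, hpot⟩ := pot hPUR j N n hN P hP w0 τ0 hpure
  obtain ⟨Q, Φ, hAC, hQ⟩ := hpot ℓ κ ρ (by rw [hκ]; exact hρ)
  have h1 : ∀ᶠ v : HeightOneSpectrum (𝓞 K) in cofinite, (∀ s, IsInert v s → cjr Q ρ s = 1) ∧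
      ∀ s, IsFrob v s → κ (j (-((P v).nextCoeff : E))) =
        (cjr Q ρ s⁻¹ : Matrix (Fin n) (Fin n) (PadicAlgCl ℓ)).trace := by
    filter_upwards [ev_not_mem (K := K) (N := N) (by omega), ev_not_mem (K := K) hℓ.out.pos]
      with v hv hvℓ
    refine ⟨fun s hs => ?_, fun s hs => ?_⟩
    · rw [cjr_apply, hρ.unr v hv hvℓ s hs, mul_one, inv_mul_cancel]
    · rw [cjr_trace, Matrix.trace_eq_neg_charpoly_nextCoeff, hρ.frob v hv hvℓ s hs,
        Polynomial.nextCoeff_map (show Function.Injective (κ0.comp (algebraMap (𝓞 E) E)) from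
          κ0.injective.comp RingOfIntegers.coe_injective), ← hκ, map_neg, map_neg]
      rfl
  have h2 := mean_geom hCYC hDUI hU hUo hFX hAC hQ ε (fun v => j (-((P v).nextCoeff : E))) h1 χ hχ
  have h3 : (fun v => ε (j (-((P v).nextCoeff : E))) / nf w0 v) = FV P τ0 w0 := by
    funext v
    unfold FV
    rw [← hε]
    rfl
  rw [h3] at h2
  refine ⟨fun q hq => ?_, h2.2⟩
  have h4 := h2.1 q hq
  have h5 : Eig (cjr Q ρ) χ (-q) = Eig (cjr Q ρ) χ (-q) := rfl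
  rw [eig_cjr] at h4
  exact h4

/-- the limit of natural density determines the mean value -/
theorem mv_unique {F : HeightOneSpectrum (𝓞 K) → ℂ} {r s : ℂ} (h : MV F r) (h' : MV F s) : r = s :=
  tendsto_nhds_unique h.nat h'.nat

/-- **The `L`-function at the edge.** -/
theorem edge (hCYC : S_CYC) (hDUI : S_DUI) (hPUR : S_PUR) (N n : ℕ) (hN : 2 ≤ N)
    (P : HeightOneSpectrum (𝓞 K) → (𝓞 E)[X]) (hP : PosUD (SolRes N n P)) (τ : E →+* ℂ)
    (α : HeightOneSpectrum (𝓞 K) → Fin n → ℂ)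
    (hα : ∀ v : HeightOneSpectrum (𝓞 K), (N : 𝓞 K) ∉ v.asIdeal →
      (P v).map (τ.comp (algebraMap (𝓞 E) E)) = ∏ i, (X - C (α v i))) (w : ℤ)
    (hw : ∀ v : HeightOneSpectrum (𝓞 K), (N : 𝓞 K) ∉ v.asIdeal → ∀ i,
      ‖α v i‖ = (Ideal.absNorm v.asIdeal : ℝ) ^ ((w : ℝ) / 2)) :
    ∃ r : ℕ, (Odd w → r = 0) ∧
      (∀ (ℓ : ℕ) [Fact ℓ.Prime] (κ : E →+* PadicAlgCl ℓ),
        (∃ ρ : GK K →* GL (Fin n) (PadicAlgCl ℓ), Att N n P ℓ κ ρ) ∧
        (∃ χ : GK K →* (PadicAlgCl ℓ)ˣ, IsCyc ℓ χ) ∧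
        ∀ ρ : GK K →* GL (Fin n) (PadicAlgCl ℓ), Att N n P ℓ κ ρ →
          ∀ χ : GK K →* (PadicAlgCl ℓ)ˣ, IsCyc ℓ χ → ∀ q : ℤ, w = 2 * q →
          Module.finrank (PadicAlgCl ℓ) (Eig ρ χ (-q)) = r) ∧
      ∀ B : HeightOneSpectrum (𝓞 K) → ℂ[X],
        (∀ v : HeightOneSpectrum (𝓞 K), (N : 𝓞 K) ∉ v.asIdeal →
          B v = ∏ i, (1 - C (α v i) * X)) →
        (∀ v : HeightOneSpectrum (𝓞 K), (N : 𝓞 K) ∈ v.asIdeal →
          (B v).eval (((Ideal.absNorm v.asIdeal : ℝ) ^ (-((w : ℝ) / 2 + 1)) : ℝ) : ℂ) ≠ 0) →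
        ∃ c : ℂ, c ≠ 0 ∧ Tendsto (fun ε : ℝ => (ε : ℂ) ^ r * ∏' v : HeightOneSpectrum (𝓞 K),
          ((B v).eval (((Ideal.absNorm v.asIdeal : ℝ) ^ (-((w : ℝ) / 2 + 1 + ε)) : ℝ) : ℂ))⁻¹)
          (𝓝[>] 0) (𝓝 c) := by
  classical
  have hpure : ∀ v : HeightOneSpectrum (𝓞 K), (N : 𝓞 K) ∉ v.asIdeal →
      ∀ z ∈ ((P v).map (τ.comp (algebraMap (𝓞 E) E))).roots,
        ‖z‖ = (Ideal.absNorm v.asIdeal : ℝ) ^ ((w : ℝ) / 2) := by
    intro v hv z hz
    rw [hα v hv, Polynomial.mem_roots', IsRoot, Polynomial.eval_prod, Finset.prod_eq_zero_iff] at hz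
    obtain ⟨-, i, -, hi⟩ := hz
    rw [Polynomial.eval_sub, Polynomial.eval_X, Polynomial.eval_C, sub_eq_zero] at hi
    rw [hi]
    exact hw v hv i
  have hMV : ∃ r : ℕ, (Odd w → r = 0) ∧ MV (FV P τ w) (r : ℂ) := by
    have : Fact (Nat.Prime 2) := ⟨Nat.prime_two⟩
    let κ : E →+* PadicAlgCl 2 := ((IsAlgClosed.lift : E →ₐ[ℚ] PadicAlgCl 2) : E →+* PadicAlgCl 2)
    obtain ⟨ρ, hρ⟩ := att_exists hN hP 2 κ
    let j : E →+* QBar := ((IsAlgClosed.lift : E →ₐ[ℚ] QBar) : E →+* QBar)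
    obtain ⟨κ', -⟩ := exists_ext j κ
    obtain ⟨χ, hχ⟩ := (hCYC K 2 κ').1
    have h1 := mean_V hCYC hDUI hPUR N n hN P hP w τ hpure 2 κ ρ hρ χ hχ
    rcases Int.even_or_odd w with h2 | h2
    · obtain ⟨q, hq⟩ := h2
      refine ⟨_, fun h3 => ?_, h1.1 q (by omega)⟩
      exact absurd h3 (Int.not_odd_iff_even.2 ⟨q, hq⟩)
    · refine ⟨0, fun _ => rfl, ?_⟩
      rw [Nat.cast_zero]
      exact h1.2 h2
  obtain ⟨r, hr0, hr⟩ := hMV
  refine ⟨r, hr0, ?_, ?_⟩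
  · intro ℓ _ κ
    refine ⟨att_exists hN hP ℓ κ, ?_, ?_⟩
    · let j : E →+* QBar := ((IsAlgClosed.lift : E →ₐ[ℚ] QBar) : E →+* QBar)
      obtain ⟨κ', -⟩ := exists_ext j κ
      exact (hCYC K ℓ κ').1
    · intro ρ hρ χ hχ q hq
      have h1 := (mean_V hCYC hDUI hPUR N n hN P hP w τ hpure ℓ κ ρ hρ χ hχ).1 q hq
      exact_mod_cast mv_unique h1 hr
  · intro B hB hB0
    refine all_LFN K n (w : ℝ) r α B ?_ ?_ ?_ ?_
    · filter_upwards [ev_not_mem (K := K) (N := N) (by omega)] with v hv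
      exact hw v hv
    · filter_upwards [ev_not_mem (K := K) (N := N) (by omega)] with v hv
      exact hB v hv
    · intro v
      by_cases hv : (N : 𝓞 K) ∈ v.asIdeal
      · exact hB0 v hv
      · rw [hB v hv, Polynomial.eval_prod, Finset.prod_ne_zero_iff]
        intro i _
        rw [Polynomial.eval_sub, Polynomial.eval_one, Polynomial.eval_mul, Polynomial.eval_C,
          Polynomial.eval_X, sub_ne_zero]
        intro h1
        have h2 := congrArg norm h1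
        have hpos : (0 : ℝ) < (Ideal.absNorm v.asIdeal : ℝ) :=
          Pool.Agent.H358.ME.ACM.norm_pos v
        rw [norm_one, norm_mul, hw v hv i, Complex.norm_real, Real.norm_of_nonneg
          (Real.rpow_nonneg hpos.le _), ← Real.rpow_add hpos] at h2
        have h3 : (w : ℝ) / 2 + -((w : ℝ) / 2 + 1) = -1 := by ring
        rw [h3, Real.rpow_neg_one] at h2
        have h4 : (1 : ℝ) < (Ideal.absNorm v.asIdeal : ℝ) := by exact_mod_cast one_lt_norm v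
        have h5 : ((Ideal.absNorm v.asIdeal : ℝ))⁻¹ < 1 := inv_lt_one_of_one_lt₀ h4
        linarith
    · have h1 : MV (fun v : HeightOneSpectrum (𝓞 K) => (∑ i, α v i) /
          (((Ideal.absNorm v.asIdeal : ℝ) ^ ((w : ℝ) / 2) : ℝ) : ℂ)) (r : ℂ) := by
        refine (all_MVB K).2.2.2 _ _ _ hr ?_
        filter_upwards [ev_not_mem (K := K) (N := N) (by omega)] with v hv
        unfold FV nf
        congr 1
        have h2 := congrArg Polynomial.nextCoeff (hα v hv)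
        rw [Polynomial.nextCoeff_map (show Function.Injective (τ.comp (algebraMap (𝓞 E) E)) from
          τ.injective.comp RingOfIntegers.coe_injective),
          prod_X_sub_C_nextCoeff] at h2
        rw [map_neg]
        have h3 : τ ((P v).nextCoeff : E) = -∑ i, α v i := h2
        rw [h3, neg_neg]
      exact h1.edge

end

end Pool.Agent.H500.ME
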