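import Pool.Agent.H500.ME.All
import Pool.Agent.H696.ME.EIG

set_option autoImplicit false
set_option linter.unusedSectionVars false

/-!
# The order of the pole at the edge, for all subrepresentations of the tensor constructions
-/

namespace Pool.Agent.H500.ME

open NumberField IsDedekindDomain Filter Topology Polynomial
open Pool.Agent.W401.Cheb (GK IsFrob IsInert dens)
open Pool.Agent.H500.HC (InRay QBar ZBar jz)
open Pool.Agent.H500.SV (Above Fld)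
open Pool.Agent.H500.ZO (PotHecke SemiS)
open Pool.Agent.H500.MW (PosUD)
open Pool.Agent.H500.TH (SolRes)
open Pool.Agent.H500.ED
open Pool.Agent.H328.ZO.SYS (dual coe_dual charpoly_dual dual_inj semi_dual)

theorem all_EIG : S_EIG := Pool.Agent.H696.ME.EIG.main all_FXC all_CYC

/-- the reversed characteristic polynomial -/
theorem rev_split {R : Type} [CommRing R] [IsDomain R] {m : ℕ} (a : Fin m → R) :
    (∏ i, (X - Polynomial.C (a i))).reverse = ∏ i, (1 - Polynomial.C (a i) * X) := by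
  classical
  have h1 : ∀ x : R, (X - Polynomial.C x).reverse = 1 - Polynomial.C x * X := by
    intro x
    have h2 : (X - Polynomial.C x) = Polynomial.C 1 * X + Polynomial.C (-x) := by
      rw [map_one, one_mul, map_neg, sub_eq_add_neg]
    rw [h2, Polynomial.reverse, Polynomial.natDegree_linear one_ne_zero,
      Polynomial.reflect_add, Polynomial.reflect_C_mul, Polynomial.reflect_C]
    rw [Polynomial.reflect_one_X]
    simp [sub_eq_add_neg]
  have h4 : ∀ s : Finset (Fin m), (∏ i ∈ s, (X - Polynomial.C (a i))).reverse =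
      ∏ i ∈ s, (1 - Polynomial.C (a i) * X) := by
    intro s
    induction s using Finset.induction_on with
    | empty => rw [Finset.prod_empty, Finset.prod_empty, ← Polynomial.C_1, Polynomial.reverse_C]
    | insert i s hi ih =>
      rw [Finset.prod_insert hi, Finset.prod_insert hi, Polynomial.reverse_mul_of_domain, ih, h1]
  exact h4 _

theorem cjr_charpoly {G : Type} [Group G] {m : ℕ} {C : Type} [Field C] (Q : GL (Fin m) C)
    (W : G →* GL (Fin m) C) (g : G) : (cjr Q W g : Matrix (Fin m) (Fin m) C).charpoly =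
      (W g : Matrix (Fin m) (Fin m) C).charpoly := by
  rw [cjr_apply, Units.val_mul, Units.val_mul, Matrix.charpoly_mul_comm, ← mul_assoc,
    ← Units.val_mul, mul_inv_cancel, Units.val_one, one_mul]

theorem dual_cjr_charpoly {G : Type} [Group G] {m : ℕ} {C : Type} [Field C] (Q : GL (Fin m) C)
    (W : G →* GL (Fin m) C) (g : G) :
    ((dual.comp (cjr Q W)) g : Matrix (Fin m) (Fin m) C).charpoly =
      (W g⁻¹ : Matrix (Fin m) (Fin m) C).charpoly := by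
  have h1 : (dual.comp (cjr Q W)) g = dual (cjr Q W g) := rfl
  rw [h1, charpoly_dual, ← map_inv, cjr_charpoly]

section
variable {K E : Type} [Field K] [NumberField K] [Field E] [NumberField E]

theorem edge_W (N n : ℕ) (hN : 2 ≤ N)
    (P : HeightOneSpectrum (𝓞 K) → (𝓞 E)[X]) (hP : PosUD (SolRes N n P)) (w0 : ℤ) (τ0 : E →+* ℂ)
    (hpure : ∀ v : HeightOneSpectrum (𝓞 K), (N : 𝓞 K) ∉ v.asIdeal →
      ∀ z ∈ ((P v).map (τ0.comp (algebraMap (𝓞 E) E))).roots,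
        ‖z‖ = (Ideal.absNorm v.asIdeal : ℝ) ^ ((w0 : ℝ) / 2))
    (ℓ : ℕ) [hℓ : Fact ℓ.Prime] (κ0 : E →+* PadicAlgCl ℓ) (ιc : PadicAlgCl ℓ ≃+* ℂ)
    (ρ : GK K →* GL (Fin n) (PadicAlgCl ℓ)) (hρ : Att N n P ℓ κ0 ρ)
    (χ : GK K →* (PadicAlgCl ℓ)ˣ) (hχ : IsCyc ℓ χ) (a b m : ℕ)
    (W : GK K →* GL (Fin m) (PadicAlgCl ℓ))
    (T : Matrix ((Fin a → Fin n) × (Fin b → Fin n)) (Fin m) (PadicAlgCl ℓ))
    (hT : ∀ x : Fin m → PadicAlgCl ℓ, T.mulVec x = 0 → x = 0)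
    (hTW : ∀ g, tens a b ρ g * T = T * (W g : Matrix (Fin m) (Fin m) (PadicAlgCl ℓ)))
    (B : HeightOneSpectrum (𝓞 K) → ℂ[X])
    (hB : ∀ᶠ v : HeightOneSpectrum (𝓞 K) in cofinite, ∀ s, IsFrob v s →
      B v = ((W s⁻¹ : Matrix (Fin m) (Fin m) (PadicAlgCl ℓ)).charpolyRev).map
        (ιc : PadicAlgCl ℓ →+* ℂ))
    (hB0 : ∀ v : HeightOneSpectrum (𝓞 K), (B v).eval (((Ideal.absNorm v.asIdeal : ℝ) ^
      (-((((w0 * ((a : ℤ) - (b : ℤ)) : ℤ) : ℝ)) / 2 + 1)) : ℝ) : ℂ) ≠ 0) :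
    ∃ r : ℕ, (∀ q : ℤ, w0 * ((a : ℤ) - (b : ℤ)) = 2 * q →
        r = Module.finrank (PadicAlgCl ℓ) (Eig W χ (-q))) ∧
      (Odd (w0 * ((a : ℤ) - (b : ℤ))) → r = 0) ∧
      ∃ c : ℂ, c ≠ 0 ∧ Tendsto (fun ε : ℝ => (ε : ℂ) ^ r * ∏' v : HeightOneSpectrum (𝓞 K),
        ((B v).eval (((Ideal.absNorm v.asIdeal : ℝ) ^
          (-((((w0 * ((a : ℤ) - (b : ℤ)) : ℤ) : ℝ)) / 2 + 1 + ε)) : ℝ) : ℂ))⁻¹)
        (𝓝[>] 0) (𝓝 c) := by
  classical
  -- the absolute values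
  have hEv : ∀ᶠ v : HeightOneSpectrum (𝓞 K) in cofinite, ∀ s, IsFrob v s →
      ∀ y ∈ (W s⁻¹ : Matrix (Fin m) (Fin m) (PadicAlgCl ℓ)).charpoly.roots,
        ‖ιc y‖ = (Ideal.absNorm v.asIdeal : ℝ) ^
          ((((w0 * ((a : ℤ) - (b : ℤ)) : ℤ) : ℝ)) / 2) := by
    let j : E →+* QBar := ((IsAlgClosed.lift : E →ₐ[ℚ] QBar) : E →+* QBar)
    obtain ⟨κ, hκ⟩ := exists_ext j κ0
    obtain ⟨U, L, _, _, _, ι, e, hU, hUo, hFX, hpot⟩ := pot all_PUR j N n hN P hP w0 τ0 hpure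
    obtain ⟨Q, Φ, hAC, hQ⟩ := hpot ℓ κ ρ (by rw [hκ]; exact hρ)
    obtain ⟨hinjL, hranL, -, -, -, -, -⟩ := all_FXC K _ L ι e hUo hFX
    obtain ⟨Q', Φ', hAC', hQ'⟩ := sub_tens hranL hAC Q hQ a b m W T hT hTW
    have hAC2 : ∀ k, AC κ (-(w0 * ((a : ℤ) - (b : ℤ)))) (Φ' k) := by
      intro k
      rw [← neg_mul]
      exact hAC' k
    have heq : ∀ s, (cjr Q' W (ι s) : Matrix (Fin m) (Fin m) (PadicAlgCl ℓ)) =
        Matrix.diagonal fun k => (Φ' k s : PadicAlgCl ℓ) := hQ'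
    have h1 := all_EIG K U L ι e hU hUo hFX ℓ κ m (w0 * ((a : ℤ) - (b : ℤ)))
      (dual.comp (cjr Q' W)) (fun k => (Φ' k)⁻¹) (by
      intro k
      have h2 := (hAC2 k).inv
      rw [neg_neg] at h2
      exact h2) (by
      intro s
      show (dual (cjr Q' W (ι s)) : Matrix (Fin m) (Fin m) (PadicAlgCl ℓ)) = _
      rw [coe_dual, ← map_inv, ← map_inv, heq, Matrix.diagonal_transpose]
      congr 1
      funext i
      rw [map_inv, MonoidHom.inv_apply]) (ιc : PadicAlgCl ℓ →+* ℂ)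
    filter_upwards [h1] with v hv s hs y hy
    refine hv s hs y ?_
    rw [dual_cjr_charpoly]
    exact hy
  -- the eigenvalues
  choose fr hfr using (Pool.Agent.W401.Frob.main K).1
  have hsplit : ∀ v : HeightOneSpectrum (𝓞 K), ∃ y : Fin m → PadicAlgCl ℓ,
      (W (fr v)⁻¹ : Matrix (Fin m) (Fin m) (PadicAlgCl ℓ)).charpoly =
        ∏ i, (X - Polynomial.C (y i)) := by
    intro v
    obtain ⟨y, hy⟩ := Pool.Agent.H500.MW.exists_roots
      (W (fr v)⁻¹ : Matrix (Fin m) (Fin m) (PadicAlgCl ℓ)).charpoly (Matrix.charpoly_monic _)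
    have hdeg : (W (fr v)⁻¹ : Matrix (Fin m) (Fin m) (PadicAlgCl ℓ)).charpoly.natDegree = m := by
      rw [Matrix.charpoly_natDegree_eq_dim, Fintype.card_fin]
    refine ⟨fun i => y (Fin.cast hdeg.symm i), ?_⟩
    conv_lhs => rw [hy]
    exact Fintype.prod_equiv (finCongr hdeg) _ _ fun i => rfl
  choose y hy using hsplit
  let α : HeightOneSpectrum (𝓞 K) → Fin m → ℂ := fun v i => ιc (y v i)
  have hα : ∀ᶠ v : HeightOneSpectrum (𝓞 K) in cofinite, ∀ i, ‖α v i‖ =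
      (Ideal.absNorm v.asIdeal : ℝ) ^ ((((w0 * ((a : ℤ) - (b : ℤ)) : ℤ) : ℝ)) / 2) := by
    filter_upwards [hEv] with v hv i
    refine hv (fr v) (hfr v) (y v i) ?_
    rw [hy v, mem_roots (monic_prod_of_monic _ _ fun k _ => monic_X_sub_C _).ne_zero, IsRoot,
      eval_prod]
    exact Finset.prod_eq_zero (Finset.mem_univ i) (by simp)
  have hBα : ∀ᶠ v : HeightOneSpectrum (𝓞 K) in cofinite,
      B v = ∏ i, (1 - Polynomial.C (α v i) * X) := by
    filter_upwards [hB] with v hv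
    rw [hv (fr v) (hfr v), ← Matrix.reverse_charpoly, hy v, rev_split, Polynomial.map_prod]
    refine Finset.prod_congr rfl fun i _ => ?_
    rw [Polynomial.map_sub, Polynomial.map_one, Polynomial.map_mul, Polynomial.map_C,
      Polynomial.map_X]
    rfl
  have htr : ∀ v, ιc (W (fr v)⁻¹ : Matrix (Fin m) (Fin m) (PadicAlgCl ℓ)).trace = ∑ i, α v i := by
    intro v
    rw [Matrix.trace_eq_neg_charpoly_nextCoeff, hy v, prod_X_sub_C_nextCoeff, neg_neg, map_sum]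
  -- the mean value
  have hMV := mean_W all_CYC all_DUI all_TRI all_PUR N n hN P hP w0 τ0 hpure ℓ κ0 ιc ρ hρ χ hχ a b m
    W T hT hTW (fun v => ιc (W (fr v)⁻¹ : Matrix (Fin m) (Fin m) (PadicAlgCl ℓ)).trace /
      nf (w0 * ((a : ℤ) - (b : ℤ))) v) (by
      filter_upwards [hB] with v hv s hs
      have h1 : ∀ s, IsFrob v s → ιc (W s⁻¹ : Matrix (Fin m) (Fin m) (PadicAlgCl ℓ)).trace =
          -(B v).coeff 1 := by
        intro s hs
        rw [hv s hs, Polynomial.coeff_map, Matrix.coeff_charpolyRev_eq_neg_trace, map_neg, neg_neg]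
        rfl
      rw [h1 s hs, h1 (fr v) (hfr v)])
  have hr : ∃ r : ℕ, (∀ q : ℤ, w0 * ((a : ℤ) - (b : ℤ)) = 2 * q →
        r = Module.finrank (PadicAlgCl ℓ) (Eig W χ (-q))) ∧
      (Odd (w0 * ((a : ℤ) - (b : ℤ))) → r = 0) ∧
      MV (fun v => ιc (W (fr v)⁻¹ : Matrix (Fin m) (Fin m) (PadicAlgCl ℓ)).trace /
        nf (w0 * ((a : ℤ) - (b : ℤ))) v) (r : ℂ) := by
    rcases Int.even_or_odd (w0 * ((a : ℤ) - (b : ℤ))) with h2 | h2
    · obtain ⟨q, hq⟩ := h2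
      refine ⟨Module.finrank (PadicAlgCl ℓ) (Eig W χ (-q)), fun q' hq' => ?_, fun h3 => ?_,
        hMV.1 q (by omega)⟩
      · have h4 : q' = q := by omega
        rw [h4]
      · exact absurd h3 (Int.not_odd_iff_even.2 ⟨q, hq⟩)
    · refine ⟨0, fun q hq => ?_, fun _ => rfl, ?_⟩
      · exact absurd ⟨q, by omega⟩ (Int.not_even_iff_odd.2 h2)
      · rw [Nat.cast_zero]
        exact hMV.2 h2
  obtain ⟨r, hr1, hr2, hr3⟩ := hr
  refine ⟨r, hr1, hr2, ?_⟩
  refine all_LFN K m (((w0 * ((a : ℤ) - (b : ℤ)) : ℤ) : ℝ)) r α B hα hBα hB0 ?_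
  have h5 : MV (fun v : HeightOneSpectrum (𝓞 K) => (∑ i, α v i) /
      (((Ideal.absNorm v.asIdeal : ℝ) ^ ((((w0 * ((a : ℤ) - (b : ℤ)) : ℤ) : ℝ)) / 2) : ℝ) : ℂ))
      (r : ℂ) := by
    refine (all_MVB K).2.2.2 _ _ _ hr3 (Eventually.of_forall fun v => ?_)
    show _ / nf _ v = _
    unfold nf
    rw [htr v]
  exact h5.edge

end

end Pool.Agent.H500.ME
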