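import Pool.Agent.H500.ED.All
import Pool.Agent.H500.ME.Mean3
import Pool.Agent.H800.ME.DEU
import Pool.Agent.H571.ME.INL
import Pool.Agent.H722.ME.DSC1
import Pool.Agent.H21.ME.DSC2

set_option autoImplicit false
set_option linter.unusedSectionVars false

/-!
# Mean values: the parts (2)
-/

namespace Pool.Agent.H500.ME

open Pool.Agent.H500.ED

theorem all_DEU : S_DEU := Pool.Agent.H800.ME.DEU.main all_FXC all_FXJ
theorem all_INL : S_INL := Pool.Agent.H571.ME.INL.main
theorem all_DSC1 : S_DSC1 :=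
  Pool.Agent.H722.ME.DSC1.main all_FXF all_FXC all_FXJ all_TINV all_INL
theorem all_DSC2 : S_DSC2 := Pool.Agent.H21.ME.DSC2.main
theorem all_DSC : S_DSC := dsc_of all_DSC1 all_DSC2
theorem all_CHE : S_CHE := Pool.Agent.H139.ME.CHE.main all_MVB all_MV1 all_MVHe all_FXE all_DEU

end Pool.Agent.H500.ME
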