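import Pool.Agent.H500.ED.Parts
import Pool.Agent.H591.ME.MV1
import Pool.Agent.H215.ME.MVHe
import Pool.Agent.H199.ME.MVHn
import Pool.Agent.H139.ME.CHE
import Pool.Agent.H662.ME.LFN
import Pool.Agent.H263.ME.MVB
import Pool.Agent.H870.ME.WT
import Pool.Agent.H720.ME.CXH
import Pool.Agent.H719.ME.TYU
import Pool.Agent.H253.ME.NIT
import Pool.Agent.H115.ME.ARC
import Pool.Agent.H358.ME.ACM
import Pool.Agent.H231.ME.DIV
import Pool.Agent.H738.ME.NMC
import Pool.Agent.H640.ME.LA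
import Pool.Agent.H51.ME.SPL
import Pool.Agent.H665.ME.AVT
import Pool.Agent.H30.ME.SUB
import Pool.Agent.H118.ME.TEN
import Pool.Agent.H295.ME.SDG
import Pool.Agent.H396.ME.MAT

set_option autoImplicit false
set_option linter.unusedSectionVars false

/-!
# Mean values: the parts (1)
-/

namespace Pool.Agent.H500.ME

theorem all_MV1 : S_MV1 := Pool.Agent.H591.ME.MV1.main
theorem all_MVHe : S_MVHe := Pool.Agent.H215.ME.MVHe.main
theorem all_MVHn : S_MVHn := Pool.Agent.H199.ME.MVHn.main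
theorem all_LFN : S_LFN := Pool.Agent.H662.ME.LFN.main
theorem all_MVB : S_MVB := Pool.Agent.H263.ME.MVB.main
theorem all_WT : S_WT := Pool.Agent.H870.ME.WT.main
theorem all_CXH : S_CXH := Pool.Agent.H720.ME.CXH.main
theorem all_TYU : S_TYU := Pool.Agent.H719.ME.TYU.main
theorem all_NIT : S_NIT := Pool.Agent.H253.ME.NIT.main
theorem all_ARC : S_ARC := Pool.Agent.H115.ME.ARC.main
theorem all_ACM : S_ACM := Pool.Agent.H358.ME.ACM.main
theorem all_DIV : S_DIV := Pool.Agent.H231.ME.DIV.main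
theorem all_NMC : S_NMC := Pool.Agent.H738.ME.NMC.main Pool.Agent.H500.ED.all_AVA
theorem all_LA : S_LA := Pool.Agent.H640.ME.LA.main
theorem all_SPL : S_SPL := Pool.Agent.H51.ME.SPL.main
theorem all_AVT : S_AVT := Pool.Agent.H665.ME.AVT.main
theorem all_SUB : S_SUB := Pool.Agent.H30.ME.SUB.main
theorem all_TEN : S_TEN := Pool.Agent.H118.ME.TEN.main
theorem all_SDG : S_SDG := Pool.Agent.H295.ME.SDG.main
theorem all_MAT : S_MAT := Pool.Agent.H396.ME.MAT.main all_SDG

end Pool.Agent.H500.ME
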