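import Pool.Agent.H500.ED.Stm
import Pool.Graph.R_pool_sql_team_seeded_47a924f7.T6.H23.HK.Per
import Pool.Graph.R_seed8.W352.ChAbs.Cnt

set_option autoImplicit false
set_option linter.unusedSectionVars false

/-!
# Project ME (helper500): mean values of Frobenius traces for potentially abelian systems

## The theorem

`ρ` is a continuous representation of `GK K` over `PadicAlgCl ℓ` which is diagonal on an open normal
subgroup `U` (field `L`), with entries the `ℓ`-adic characters of algebraic Hecke characters of `L` of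
weight `m`.  Then the normalized Frobenius traces `tr ρ(Frob_v) / (N v)^(m/2)` have the mean value
`dim (ρ(-m/2))^(GK K)` over the places `v` of `K`, in the sense of natural density and for the Dirichlet
series at the edge: this is the Sato-Tate law, and the formula for the order of the pole of the
`L`-function at the edge, for all compatible systems with solvable residual images.

## Plan

Part A: analytic number theory (mean values of Hecke characters: library `T6/H23/HK`; Deuring's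
reduction to cyclic extensions).  Part B: Hecke characters (weights, complex and `ℓ-adic` characters,
descent).  Part C: linear algebra.  Part D: representations attached to `P`.
-/

namespace Pool.Agent.H500.ME

open NumberField IsDedekindDomain Filter Topology Polynomial
open Pool.Agent.W401.Cheb (GK IsFrob IsInert dens)
open Pool.Agent.H500.HC (InRay QBar ZBar jz)
open Pool.Agent.H500.R2 (UnrOut)
open Pool.Agent.H500.SV (Above Fld)
open Pool.Agent.H500.TH (typB)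
open Pool.Agent.H500.ZO (PotHecke SemiS)
open Pool.Agent.H500.ED (FX IsHecke S_FXE S_FXF S_FXC S_FXJ S_AVA S_TINV)
open Pool.Agent.Q92.AR (Dv Ray prin)

/-! ## Part A: mean values -/

section
variable (K : Type) [Field K] [NumberField K]

/-- the places of norm at most `x` -/
noncomputable def pl (x : ℕ) : Finset (HeightOneSpectrum (𝓞 K)) :=
  (Pool.Agent.W352.ChAbs.finite_le (K := K) x).toFinset

variable {K}

/-- the mean value of `F` over the places, in the sense of natural density, is `r` -/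
def MVn (F : HeightOneSpectrum (𝓞 K) → ℂ) (r : ℂ) : Prop :=
  Tendsto (fun x : ℕ => (∑ v ∈ pl K x, F v) / (Nat.primeCounting x : ℂ)) atTop (𝓝 r)

/-- `∑ F(v) (N v)^(-s) = r log(1/(s - 1)) + c + o(1)`, `s → 1+` -/
def MVe (F : HeightOneSpectrum (𝓞 K) → ℂ) (r : ℂ) : Prop :=
  ∃ c : ℂ, Tendsto (fun s : ℝ => (∑' v : HeightOneSpectrum (𝓞 K),
    F v * (((Ideal.absNorm v.asIdeal : ℝ) ^ (-s) : ℝ) : ℂ)) + r * ((Real.log (s - 1) : ℝ) : ℂ))
    (𝓝[>] 1) (𝓝 c)

/-- `F` is bounded and has the mean value `r` in both senses.  (Sums, multiples, finitely many changes: see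
`Pool/Agent/H500/ME/Basic.lean`.) -/
structure MV (F : HeightOneSpectrum (𝓞 K) → ℂ) (r : ℂ) : Prop where
  bdd : ∃ B : ℝ, ∀ v, ‖F v‖ ≤ B
  nat : MVn F r
  edge : MVe F r

end

/-- PART A1 (prime ideal theorem, residue of the zeta function).
Natural density: `Pool.Agent.W528.Ord.chebK` for `U = ⊤`.  Edge: `log ζ_K(s) = ∑ N(v)^(-s) + ` absolutely convergent
part near `1`, and `(s - 1) ζ_K(s) → κ ≠ 0` (Mathlib `NumberField.dedekindZeta_residue`, library
`T6/H23/HK/Ord.lean`: `EP_one`, `Eul.lean`: `log_LI`, `Y772`). -/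
def S_MV1 : Prop := ∀ (K : Type) [Field K] [NumberField K],
  MV (fun _ : HeightOneSpectrum (𝓞 K) => (1 : ℂ)) 1

/-- PART A2 (Hecke characters at the edge).  Library: `Pool.Agent.T6.H23.HK`, `Edge.lean` (`cont`, `nonvan`, the
reduction to `𝔪 ≠ ⊤` in `mean_zero`), `Eul.lean` (`log_LI`), `Ord.lean`.
Proof.  `LI ψ s → F(1) ≠ 0` for `s → 1+`, and `LI ψ s = exp (h(s))`, `h(s) = ∑ ψ(v) N(v)^(-s) + g(s)`, `g` continuous at
`1`, `h` continuous on `(1, 2]`.  As `exp ∘ h` has a nonzero limit, `h` has a limit (locally `h` is a branch of the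
logarithm plus a continuous function with values in `2πi ℤ`). -/
def S_MVHe : Prop := ∀ (K : Type) [Field K] [NumberField K] (𝔪 : Ideal (𝓞 K))
  (k : InfinitePlace K → ℤ) (ν : InfinitePlace K → ℝ) (ψ : Ideal (𝓞 K) →*₀ ℂ),
  Pool.Agent.T6.H23.HK.IsHecke 𝔪 k ν ψ →
  (¬ ∀ᶠ v : HeightOneSpectrum (𝓞 K) in cofinite, ψ v.asIdeal = 1) →
  MVe (fun v : HeightOneSpectrum (𝓞 K) => ψ v.asIdeal) 0

/-- PART A3 (the prime number theorem for Hecke characters; note that `ψ = N^(iτ)` has no mean value).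
Proof.  For every real `τ` the function `𝔞 ↦ ψ(𝔞) N(𝔞)^(-iτ)` is again a Hecke character (`ν` shifted by constants:
`IsHecke 𝔪 k ν'`), so `LI ψ` has an analytic continuation without zero to a neighbourhood of `1 + iτ`
(`T6/H23/HK/Edge.lean`: `cont`, `nonvan`, with the reduction to `𝔪 ≠ ⊤` in `mean_zero`; the hypothesis excludes the
exceptional case).  So `-LI'/LI` is continuous on `Re s ≥ 1`: apply the theorem of Wiener and Ikehara to
`∑ (1 + Re ψ(𝔞)) VM(𝔞) N(𝔞)^(-s)` and `∑ (1 + Im ψ(𝔞)) VM(𝔞) N(𝔞)^(-s)` (library: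
`Pool/Graph/R_pool_sql_team_ae5b0c61/H55/PNT.lean`, `PNTTauber.lean`; `VM` the von Mangoldt function of the ideals;
the Dirichlet series of `Re ψ = (ψ + ψ̄)/2` is the half sum of those of `ψ` and the conjugate character), then partial
summation (`∑_{N v ≤ x} ψ(v) log N(v) = o(x)`). -/
def S_MVHn : Prop := ∀ (K : Type) [Field K] [NumberField K] (𝔪 : Ideal (𝓞 K))
  (k : InfinitePlace K → ℤ) (ν : InfinitePlace K → ℝ) (ψ : Ideal (𝓞 K) →*₀ ℂ),
  Pool.Agent.T6.H23.HK.IsHecke 𝔪 k ν ψ →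
  (∀ τ : ℝ, ¬ ∀ᶠ v : HeightOneSpectrum (𝓞 K) in cofinite,
    ψ v.asIdeal = ((Ideal.absNorm v.asIdeal : ℕ) : ℂ) ^ ((τ : ℂ) * Complex.I)) →
  MVn (fun v : HeightOneSpectrum (𝓞 K) => ψ v.asIdeal) 0

/-- PART A7 (closure properties of mean values).  The edge sums converge absolutely for `s > 1` as `F` is
bounded.  The last statement: finitely many changes. -/
def S_MVB : Prop := ∀ (K : Type) [Field K] [NumberField K],
  (∀ (F G : HeightOneSpectrum (𝓞 K) → ℂ) (r s : ℂ), MV F r → MV G s →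
    MV (fun v => F v + G v) (r + s)) ∧
  (∀ (F : HeightOneSpectrum (𝓞 K) → ℂ) (r c : ℂ), MV F r → MV (fun v => c * F v) (c * r)) ∧
  (∀ (m : ℕ) (F : Fin m → HeightOneSpectrum (𝓞 K) → ℂ) (r : Fin m → ℂ), (∀ i, MV (F i) (r i)) →
    MV (fun v => ∑ i, F i v) (∑ i, r i)) ∧
  ∀ (F G : HeightOneSpectrum (𝓞 K) → ℂ) (r : ℂ), MV F r →
    (∀ᶠ v : HeightOneSpectrum (𝓞 K) in cofinite, F v = G v) → MV G r

/-- the elements `σ` with `y⁻¹ σ y ∈ g U` for some `y` -/
def Cls {G : Type} [Group G] (U : Subgroup G) (g : G) : Set G :=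
  {σ | ∃ y : G, g⁻¹ * (y⁻¹ * σ * y) ∈ U}

/-- PART A4 (Deuring's reduction; the degree-one places of the field of a cyclic subgroup).
To be proved: `S_FXC → S_FXJ → S_DEU`.
Proof.  `H / U` is cyclic, generated by the class of `g`, `M` the field of `H`.  For almost all places `v` of `K`
with a Frobenius element `σ ∈ Cls U g`, say `σ ∈ g U` (change `σ` by conjugation), the places `u` of `M` above `v` with
`N u = N v` and Frobenius elements in `g U` correspond to the `y H` with `y⁻¹ σ y ∈ g U` (`S_FXC`, last two statements):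
their number is `c(g) = |C(g)| / |H/U|`, `C(g)` the centralizer of the class of `g` in `G / U`.  So up to an error
`O(√x)` (the places `u` with `N u ≥ (N v)^2`; for the Dirichlet series: absolutely convergent near `1`)
`c(g) ∑_{N v ≤ x} F(v) = ∑_{N u ≤ x} F_M(u)`, and `|C(g)| = |G/U| / |class of g|`.  (The number of the places `u` above `v`
with `N u = N v` is at most `[M : K]`.  Compare `Pool/Graph/R_seed8/W352/ChAbs/Cnt.lean`: `over_le`, `sqrt_div_pi`.) -/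
def S_DEU : Prop := ∀ (K : Type) [Field K] [NumberField K] (U : Subgroup (GK K)) (g : GK K)
  (M : Type) [Field M] [NumberField M] [Algebra K M] (ι : GK M →* GK K)
  (e : AlgebraicClosure M ≃+* AlgebraicClosure K), U.Normal → IsOpen (U : Set (GK K)) →
  FX (U ⊔ Subgroup.zpowers g) M ι e →
  ∀ (F : HeightOneSpectrum (𝓞 K) → ℂ) (FM : HeightOneSpectrum (𝓞 M) → ℂ) (r : ℂ),
  (∃ B : ℝ, ∀ v, ‖F v‖ ≤ B) →
  (∀ᶠ v : HeightOneSpectrum (𝓞 K) in cofinite, (∀ σ, IsFrob v σ → σ ∉ Cls U g) → F v = 0) →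
  (∀ᶠ u : HeightOneSpectrum (𝓞 M) in cofinite, ∀ s, IsFrob u s → g⁻¹ * ι s ∉ U → FM u = 0) →
  (∀ᶠ v : HeightOneSpectrum (𝓞 K) in cofinite, ∀ u : HeightOneSpectrum (𝓞 M), Above u v →
    Ideal.absNorm u.asIdeal = Ideal.absNorm v.asIdeal → ∀ s, IsFrob u s → g⁻¹ * ι s ∈ U →
    FM u = F v) →
  MV FM r → MV F (((({x : GK K ⧸ U | ∃ y : GK K, x = QuotientGroup.mk (y⁻¹ * g * y)}.ncard *
    U.relIndex (U ⊔ Subgroup.zpowers g) : ℕ) : ℂ) / (U.index : ℂ)) * r)

/-- PART A5 (Chebotarev's theorem for class functions, in both senses).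
To be proved: `S_MVB → S_MV1 → S_MVHe → S_FXE → S_DEU → S_CHE`.
Proof.  By linearity `f` is the indicator function of the conjugacy class of the class of `g` in `G / W`.  `S_DEU` for
`W`, `H = W ⊔ ⟨g⟩`, `M` the field of `H` (`S_FXE`): enough to treat the indicator function of `g W` on the
Frobenius elements of `M`.  It is `|H/W|⁻¹ ∑_λ λ(g)⁻¹ λ`, `λ` the characters of the cyclic group `H / W`; a
character `λ` is a ray class character (`Pool.Agent.H500.AS.all_Bridge`), so a `T6…IsHecke` (for real places the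
signs: `Pool.Agent.Y772.G.exists_sig` as in `T6/H23/HK/Edge.lean`; type `k`, `ν = 0`), with mean value `0` if `λ ≠ 1`
(`S_MVHe`; natural density from `Pool.Agent.W528.Ord.chebK`, also directly for `f`), `S_MV1` if `λ = 1`. -/
def S_CHE : Prop := ∀ (K : Type) [Field K] [NumberField K] (W : Subgroup (GK K)), W.Normal →
  IsOpen (W : Set (GK K)) → ∀ (f : GK K → ℂ) (F : HeightOneSpectrum (𝓞 K) → ℂ),
  (∀ g, ∀ w ∈ W, f (g * w) = f g) → (∀ g y, f (y⁻¹ * g * y) = f g) →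
  (∀ v σ, IsFrob v σ → (∀ τ, IsInert v τ → τ ∈ W) → F v = f σ) → (∃ B : ℝ, ∀ v, ‖F v‖ ≤ B) →
  MV F ((∑ᶠ x : GK K ⧸ W, f (Quotient.out x)) / (W.index : ℂ))

/-- PART A6 (the L-function at the edge).
Proof.  With `z_v = (N v)^(-(s0+ε))`: `log ∏ B_v(z_v)⁻¹ = ∑_v ∑_i α_{v,i} z_v + ` absolutely convergent near the edge, so
`|…|`: `ε^r ∏ B_v⁻¹ = exp(∑_v F(v) N(v)^(-1-ε) + r log ε + g(ε))`, `g` continuous at `0`.  (The finitely many other factors
are continuous and not zero.)  Compare `T6/H23/HK/Size.lean`. -/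
def S_LFN : Prop := ∀ (K : Type) [Field K] [NumberField K] (n : ℕ) (w : ℝ) (r : ℕ)
  (α : HeightOneSpectrum (𝓞 K) → Fin n → ℂ) (B : HeightOneSpectrum (𝓞 K) → ℂ[X]),
  (∀ᶠ v : HeightOneSpectrum (𝓞 K) in cofinite, ∀ i,
    ‖α v i‖ = (Ideal.absNorm v.asIdeal : ℝ) ^ (w / 2)) →
  (∀ᶠ v : HeightOneSpectrum (𝓞 K) in cofinite, B v = ∏ i, (1 - Polynomial.C (α v i) * X)) →
  (∀ v, (B v).eval (((Ideal.absNorm v.asIdeal : ℝ) ^ (-(w / 2 + 1)) : ℝ) : ℂ) ≠ 0) →
  MVe (fun v : HeightOneSpectrum (𝓞 K) =>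
    (∑ i, α v i) / (((Ideal.absNorm v.asIdeal : ℝ) ^ (w / 2) : ℝ) : ℂ)) (r : ℂ) →
  ∃ c : ℂ, c ≠ 0 ∧ Tendsto (fun ε : ℝ => (ε : ℂ) ^ r * ∏' v : HeightOneSpectrum (𝓞 K),
    ((B v).eval (((Ideal.absNorm v.asIdeal : ℝ) ^ (-(w / 2 + 1 + ε)) : ℝ) : ℂ))⁻¹) (𝓝[>] 0) (𝓝 c)

/-! ## Part B: Hecke characters -/

section
variable {L : Type} [Field L] [NumberField L]

/-- `∏_σ σ(x)^(t_σ)`, `t_σ` integers -/
noncomputable def typU (t : (L →+* QBar) → ℤ) (x : Lˣ) : QBarˣ :=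
  ∏ σ : L →+* QBar, (Units.map (σ : L →* QBar) x) ^ t σ

/-- `φ` is an algebraic Hecke character of type `t` modulo `M`, as a function of the divisors (the values at
the places which contain `M` do not matter) -/
def IsAlg (M : ℕ) (t : (L →+* QBar) → ℤ) (φ : Dv L →+ Additive QBarˣ) : Prop :=
  ∀ x ∈ Ray L M, φ (prin x) = Additive.ofMul (typU t x)

/-- the value at a place -/
noncomputable def at1 (φ : Dv L →+ Additive QBarˣ) (w : HeightOneSpectrum (𝓞 L)) : QBar :=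
  ((φ (Finsupp.single w 1)).toMul : QBar)

/-- `Φ` is the `ℓ-adic` character of the algebraic Hecke character `φ` of type `t` modulo `M` -/
structure IsAC {ℓ : ℕ} [Fact ℓ.Prime] (κ : QBar →+* PadicAlgCl ℓ) (M : ℕ)
    (t : (L →+* QBar) → ℤ) (φ : Dv L →+ Additive QBarˣ) (Φ : GK L →* (PadicAlgCl ℓ)ˣ) : Prop where
  pos : 0 < M
  cont : Continuous fun s => (Φ s : PadicAlgCl ℓ)
  alg : IsAlg M t φ
  inert : ∀ w : HeightOneSpectrum (𝓞 L), (M : 𝓞 L) ∉ w.asIdeal → ∀ s, IsInert w s → Φ s = 1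
  frob : ∀ w : HeightOneSpectrum (𝓞 L), (M : 𝓞 L) ∉ w.asIdeal → ∀ s, IsFrob w s →
    (Φ s : PadicAlgCl ℓ) = κ (at1 φ w)

/-- `φ` has weight `m`: the absolute values of the values at almost all places -/
def HasWt (m : ℤ) (φ : Dv L →+ Additive QBarˣ) : Prop :=
  ∀ (τ : QBar →+* ℂ), ∀ᶠ w : HeightOneSpectrum (𝓞 L) in cofinite,
    ‖τ (at1 φ w)‖ ^ 2 = (Ideal.absNorm w.asIdeal : ℝ) ^ m

end

/-- PART B1 (weights).
Proof.  Fix `τ`.  For an infinite place `p` of `L` let `S_p` be the set of the `σ` with `τ ∘ σ` in the class `p`, and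
`m_p = 2 ∑_{S_p} t_σ / #S_p` (an integer).  Then `|τ(typU t x)|² = ∏_p |x|_p^{m_p #S_p}`.  It is `1` for the units in the
ray modulo `M` (a power of every unit), so by Dirichlet's unit theorem (Mathlib: the logarithms of the units
span the hyperplane; library: `T6/H23/HK/Rea.lean`, `real_type`) all `m_p` are equal, `= m`, and
`m [L : ℚ] = 2 ∑ t_σ` does not depend on `τ`.  For `w ∤ M` a power `w^h = (x)`, `x ∈ 𝓞 L` in the ray, and
`|τ φ(w)|^{2h} = |N(x)|^m = N(w)^{hm}`. -/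
def S_WT : Prop := ∀ (L : Type) [Field L] [NumberField L] (M : ℕ) (t : (L →+* QBar) → ℤ)
  (φ : Dv L →+ Additive QBarˣ), 0 < M → IsAlg M t φ → ∃ m : ℤ, HasWt m φ ∧
  m * Module.finrank ℚ L = 2 * ∑ σ, t σ

/-- PART B2 (complex Hecke characters).
Proof.  `𝔪 = (N')`, `N'` a multiple of `2 M` (perhaps `4 M`); `ψ(𝔞) = τ(φ(𝔞)) / N(𝔞)^(m/2)` for `𝔞` prime to `𝔪`, `0` otherwise.
For `x ≡ 1 mod N'` totally positive `ψ((x)) = ∏_σ τσ(x)^{t_σ} / |N x|^{m/2} = ∏_p (x_p / |x_p|)^{k_p}`,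
`k_p = t_σ - t_σ'` at a complex place `p`, `σ, σ'` the two embeddings (the absolute value is `1` by the weight;
argue as in `S_WT`).  For arbitrary `x ≡ 1 mod N'` the quotient is a sign character (`Pool.Agent.Y772.G.exists_sig` as in
`T6/H23/HK/Edge.lean`), absorbed in `k_p` at the real places. -/
def S_CXH : Prop := ∀ (L : Type) [Field L] [NumberField L] (M : ℕ) (t : (L →+* QBar) → ℤ)
  (φ : Dv L →+ Additive QBarˣ) (m : ℤ) (τ : QBar →+* ℂ), 0 < M → IsAlg M t φ → HasWt m φ →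
  ∃ (𝔪 : Ideal (𝓞 L)) (k : InfinitePlace L → ℤ) (ν : InfinitePlace L → ℝ)
    (ψ : Ideal (𝓞 L) →*₀ ℂ), Pool.Agent.T6.H23.HK.IsHecke 𝔪 k ν ψ ∧
    ∀ᶠ w : HeightOneSpectrum (𝓞 L) in cofinite, ψ w.asIdeal =
      τ (at1 φ w) / (((Ideal.absNorm w.asIdeal : ℝ) ^ ((m : ℝ) / 2) : ℝ) : ℂ)

/-- PART B3 (types are unique).  If `a φ` and `b` times the norm agree at almost all places then `a t_σ = b`.
Proof.  For `x ∈ 𝓞 L` in the ray modulo a multiple of `M` which excludes the bad places: `typU (a t - b) x = 1`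
(`∏ σ(x) = N(x) > 0` is the norm of `(x)`).  So all exponents are `0`: there are `x` in every ray with multiplicatively
independent conjugates (see `Pool/Agent/H34/TH/TInt.lean`, `Pool/Agent/H71/HC/Crt.lean`, `S_TINV` in
`Pool/Agent/H500/ED/Stm.lean`). -/
def S_TYU : Prop := ∀ (L : Type) [Field L] [NumberField L] (M : ℕ) (t : (L →+* QBar) → ℤ)
  (φ : Dv L →+ Additive QBarˣ) (a b : ℤ), 0 < M → IsAlg M t φ →
  (∀ᶠ w : HeightOneSpectrum (𝓞 L) in cofinite,
    at1 φ w ^ a = ((Ideal.absNorm w.asIdeal : ℕ) : QBar) ^ b) → ∀ σ, a * t σ = b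

/-- PART B4 (no imaginary twist).
Proof.  Let `M'` be a multiple of `M` in all the bad places.  For a positive integer `a ≡ 1 mod M'`: `φ(prin a) = a^(∑ t_σ)`, and
it is the product of the values at the places, so `a^(∑ t_σ) = N((a))^(m/2 + iτ) = a^(d m/2) a^(i d τ)`, `d = [L : ℚ]`.  Absolute values:
`a^(i d τ) = 1` for all these `a`.  Take `a = 1 + M'` and `a' = 1 + M' a` (coprime): if `τ ≠ 0` then `log a / log a'` is
rational, `a^k = a'^k'`: contradiction. -/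
def S_NIT : Prop := ∀ (L : Type) [Field L] [NumberField L] (M : ℕ) (t : (L →+* QBar) → ℤ)
  (φ : Dv L →+ Additive QBarˣ) (m : ℤ) (j : QBar →+* ℂ) (τ : ℝ), 0 < M → IsAlg M t φ →
  (∀ᶠ w : HeightOneSpectrum (𝓞 L) in cofinite, j (at1 φ w) /
    (((Ideal.absNorm w.asIdeal : ℝ) ^ ((m : ℝ) / 2) : ℝ) : ℂ) =
    ((Ideal.absNorm w.asIdeal : ℕ) : ℂ) ^ ((τ : ℂ) * Complex.I)) → τ = 0

/-- PART B5 (inertia elements in a subgroup).
Proof.  If `τ` acts trivially modulo `Q` (an ideal above `v`) and `τ ∈ U = ι.range`, `τ = ι s`, then `s` acts trivially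
modulo `e⁻¹ Q`, which lies above a place `w` of `L` above `v`. -/
def S_INL : Prop := ∀ (K : Type) [Field K] [NumberField K] (U : Subgroup (GK K)) (L : Type) [Field L]
  [NumberField L] [Algebra K L] (ι : GK L →* GK K)
  (e : AlgebraicClosure L ≃+* AlgebraicClosure K), IsOpen (U : Set (GK K)) →
  FX U L ι e → ∀ (v : HeightOneSpectrum (𝓞 K)) (τ : GK K), IsInert v τ → τ ∈ U →
  ∃ (w : HeightOneSpectrum (𝓞 L)) (s : GK L), Above w v ∧ IsInert w s ∧ ι s = τ

/-- PART B6 (descent of algebraic characters, up to roots of unity).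
To be proved: `S_FXF → S_FXC → S_FXJ → S_TINV → S_INL → S_DSC1`.
Proof.  `d = [L : K]`.  (a) `φ w = φ w'` for `w`, `w'` above the same place of `K` (almost all; `S_FXJ` and `ξ(y⁻¹ s y) = ξ(s)`).
(b) `t σ = t'(σ|K)`: apply `S_TINV` to the ideal character with values in `ZBar` given by a multiple: let `c` with
`t + c ≥ 0` and `φ·(norm)^c`, whose values at `w ∤ M` are algebraic integers (a power of it is `typB (t + c) x`), zero at the
ideals not prime to `M'` (`M'` = a multiple of `M` in the bad places); or repeat the proof of `S_TINV`.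
(c) For almost all places `u` of `K` the inertia elements lie in `U` and in the kernel of `ξ` (`S_INL`); for `s_u`
Frobenius at `u` and `w ∣ u` of degree `f`: `ξ(s_u)^f = Φ(s_w) = κ(φ w)` (`S_FXC`), so `ξ(s_u) = κ(z_u)` (`QBar` algebraically
closed).  `φ'(D) = ∏ z_u^{D u}` (`z_u = 1` at the bad places).  For `x ∈ K` prime to the bad places
`φ'(prin x)^d = φ(prin_L x)` (`efg = d`), so for `x ∈ Ray K M'`: `φ'(prin x)^d = typU t x = (typU t' x)^d`. -/
def S_DSC1 : Prop := ∀ (K : Type) [Field K] [NumberField K] (U : Subgroup (GK K)) (L : Type) [Field L]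
  [NumberField L] [Algebra K L] (ι : GK L →* GK K)
  (e : AlgebraicClosure L ≃+* AlgebraicClosure K), U.Normal → IsOpen (U : Set (GK K)) →
  FX U L ι e → ∀ (ℓ : ℕ) [Fact ℓ.Prime] (κ : QBar →+* PadicAlgCl ℓ) (ξ : GK K →* (PadicAlgCl ℓ)ˣ)
  (M : ℕ) (t : (L →+* QBar) → ℤ) (φ : Dv L →+ Additive QBarˣ),
  Continuous (fun s => (ξ s : PadicAlgCl ℓ)) → IsAC κ M t φ (ξ.comp ι) →
  ∃ (M' d : ℕ) (t' : (K →+* QBar) → ℤ) (φ' : Dv K →+ Additive QBarˣ), 0 < M' ∧ 0 < d ∧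
    (∀ x ∈ Ray K M', d • φ' (prin x) = Additive.ofMul (typU t' x ^ d)) ∧
    (∀ v : HeightOneSpectrum (𝓞 K), (M' : 𝓞 K) ∉ v.asIdeal →
      (∀ s, IsInert v s → ξ s = 1) ∧ ∀ s, IsFrob v s → (ξ s : PadicAlgCl ℓ) = κ (at1 φ' v)) ∧
    ∀ m : ℤ, HasWt m φ → HasWt m φ'

/-- PART B7 (descent, the roots of unity).
Proof.  Let `0 < δ ≤ 1` be smaller than `‖ζ - 1‖` for the `d`-th roots of unity `ζ ≠ 1` of
`PadicAlgCl ℓ`.  `V = {s | ‖ξ s - 1‖ < δ}` is an open normal subgroup with abelian quotient (`‖ξ s‖ = 1`, compact group); the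
characters `θ : GK K / V → ℂˣ` are ray class characters (`Pool.Agent.H500.AS.all_Bridge`), so there is `A` with
`‖κ(φ'(prin x)) - 1‖ < δ` for `x ∈ Ray K A`; also `‖κ(typU t' x) - 1‖ < δ` if `x ≡ 1 mod ℓ^a`, `a` large.  So the `d`-th root
of unity `φ'(prin x) / typU t' x` is `1` for `x ∈ Ray K M''`. -/
def S_DSC2 : Prop := ∀ (K : Type) [Field K] [NumberField K] (ℓ : ℕ) [Fact ℓ.Prime]
  (κ : QBar →+* PadicAlgCl ℓ) (ξ : GK K →* (PadicAlgCl ℓ)ˣ) (M' d : ℕ) (t' : (K →+* QBar) → ℤ)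
  (φ' : Dv K →+ Additive QBarˣ), Continuous (fun s => (ξ s : PadicAlgCl ℓ)) → 0 < M' → 0 < d →
  (∀ x ∈ Ray K M', d • φ' (prin x) = Additive.ofMul (typU t' x ^ d)) →
  (∀ v : HeightOneSpectrum (𝓞 K), (M' : 𝓞 K) ∉ v.asIdeal →
    (∀ s, IsInert v s → ξ s = 1) ∧ ∀ s, IsFrob v s → (ξ s : PadicAlgCl ℓ) = κ (at1 φ' v)) →
  ∃ M'' : ℕ, IsAC κ M'' t' φ' ξ

/-- PART B8 (characters of finite order).
Proof.  `λ` has finite order, its values are roots of unity: `Pool.Agent.H500.AS.all_Bridge` for the character with values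
in `ℂˣ` (`QBar` embeds in `ℂ`). -/
def S_ARC : Prop := ∀ (K : Type) [Field K] [NumberField K] (lam : GK K →* QBarˣ),
  IsOpen (lam.ker : Set (GK K)) → ∀ (ℓ : ℕ) [Fact ℓ.Prime] (κ : QBar →+* PadicAlgCl ℓ),
  ∃ (M : ℕ) (φ : Dv K →+ Additive QBarˣ),
    IsAC κ M (fun _ => 0) φ ((Units.map (κ : QBar →* PadicAlgCl ℓ)).comp lam) ∧ HasWt 0 φ

/-- PART B9 (closure properties).  (`Ray L (M M') ≤ Ray L M`.)  The last statement: equal `ℓ-adic` characters
have equal values at almost all places, and conversely (Chebotarev: `Pool.Agent.W528.Ord.chebK`, continuity). -/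
def S_ACM : Prop := ∀ (L : Type) [Field L] [NumberField L] (ℓ : ℕ) [Fact ℓ.Prime]
  (κ : QBar →+* PadicAlgCl ℓ) (M M' : ℕ) (t t' : (L →+* QBar) → ℤ) (φ φ' : Dv L →+ Additive QBarˣ)
  (Φ Φ' : GK L →* (PadicAlgCl ℓ)ˣ), IsAC κ M t φ Φ → IsAC κ M' t' φ' Φ' →
  IsAC κ (M * M') (t + t') (φ + φ') (Φ * Φ') ∧ IsAC κ M (-t) (-φ) Φ⁻¹ ∧
  (∀ m m' : ℤ, HasWt m φ → HasWt m' φ' → HasWt (m + m') (φ + φ')) ∧
  (∀ m : ℤ, HasWt m φ → HasWt (-m) (-φ)) ∧
  ((∀ᶠ w : HeightOneSpectrum (𝓞 L) in cofinite, at1 φ w = at1 φ' w) ↔ Φ = Φ')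

/-- PART B10 (from ideals to divisors).
Proof.  `φ(single w 1) = ψ w` if `B ∉ w`, `1` otherwise.  An `x ∈ Ray L A` is `y / z` with `y, z ∈ 𝓞 L` in the ray modulo `A`
(multiply by a positive integer `≡ 1 mod A`). -/
def S_DIV : Prop := ∀ (L : Type) [Field L] [NumberField L] (A B : ℕ) (t : (L →+* QBar) → ℕ)
  (ψ : Ideal (𝓞 L) →*₀ ZBar), 0 < A → B ∣ A → IsHecke A B t ψ →
  ∃ φ : Dv L →+ Additive QBarˣ, IsAlg A (fun σ => (t σ : ℤ)) φ ∧
    ∀ w : HeightOneSpectrum (𝓞 L), (B : 𝓞 L) ∉ w.asIdeal →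
      at1 φ w = ((ψ w.asIdeal : ZBar) : QBar)

/-- PART B11 (the norm and the cyclotomic character).  To be proved: `S_AVA → S_NMC`.
Proof.  `ψ(𝔞) = N(𝔞)` is a Hecke character of type `t = 1` modulo `1`; `S_AVA`. -/
def S_NMC : Prop := ∀ (K : Type) [Field K] [NumberField K] (ℓ : ℕ) [Fact ℓ.Prime]
  (κ : QBar →+* PadicAlgCl ℓ), ∃ (φ : Dv K →+ Additive QBarˣ) (χ : GK K →* (PadicAlgCl ℓ)ˣ),
  IsAC κ ℓ (fun _ => 1) φ χ ∧
  ∀ v : HeightOneSpectrum (𝓞 K), at1 φ v = ((Ideal.absNorm v.asIdeal : ℕ) : QBar)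

/-! ## Part C: representations -/

/-- PART C1 (traces on a coset).
Proof.  The coordinates `i` are divided in classes `x` (`i ∼ j` if `ρ(u)_ii = ρ(u)_jj` for all `u ∈ U`), with the
spaces `V_x` (span of the `e_i`, `i ∈ x`); `ρ(g)` permutes the `V_x`.  Those with `ρ(g) V_x ≠ V_x` do not contribute to
the trace of `ρ(g u)`.  If `ρ(g) V_x = V_x` then `ρ(g)^d`, `d` the index of `U`, acts on `V_x` as a scalar `≠ 0`, so
`ρ(g)` is diagonalizable on `V_x` (characteristic zero), with eigenvalues `μ_k`, `k = 1, …, dim V_x`;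
`ξ_k(g^a u) = μ_k^a ρ(u)_{xx}` is a well defined homomorphism on `U ⊔ ⟨g⟩`, and the trace of `ρ(g u)` on `V_x` is
`∑ μ_k ρ(u)_{xx}`. -/
def S_LA : Prop := ∀ (G : Type) [Group G] (U : Subgroup G) (n : ℕ) (C : Type) [Field C] [CharZero C]
  [IsAlgClosed C] (ρ : G →* GL (Fin n) C), U.Normal → U.FiniteIndex →
  (∀ u ∈ U, (ρ u : Matrix (Fin n) (Fin n) C).IsDiag) → ∀ g : G,
  ∃ (r : ℕ) (i : Fin r → Fin n) (ξ : Fin r → ((U ⊔ Subgroup.zpowers g : Subgroup G) →* Cˣ)),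
    (∀ k, ∀ u ∈ U, ∀ h : u ∈ U ⊔ Subgroup.zpowers g,
      (ξ k ⟨u, h⟩ : C) = (ρ u : Matrix (Fin n) (Fin n) C) (i k) (i k)) ∧
    ∀ u ∈ U, ∀ h : g * u ∈ U ⊔ Subgroup.zpowers g,
      (ρ (g * u) : Matrix (Fin n) (Fin n) C).trace = ∑ k, (ξ k ⟨g * u, h⟩ : C)

/-- the invariant vectors -/
def Inv {G : Type} [Group G] {n : ℕ} {C : Type} [Field C] (ρ : G →* GL (Fin n) C) :
    Submodule C (Fin n → C) where
  carrier := {x | ∀ g, (ρ g : Matrix (Fin n) (Fin n) C).mulVec x = x}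
  add_mem' := fun {x y} hx hy g => by rw [Matrix.mulVec_add, hx g, hy g]
  zero_mem' := fun g => Matrix.mulVec_zero _
  smul_mem' := fun c x hx g => by rw [Matrix.mulVec_smul, hx g]

/-- PART C2 (the part of finite order).
Proof.  `I0` = the `i` such that the character `u ↦ ρ(u)_ii` of `U` has finite order.  The matrices `ρ(g)` permute the
weight spaces and preserve the finiteness of the order of the characters, so `ρ(g)` is block diagonal for
`Fin n = I0 ⊔ I1`.  An invariant vector is invariant under `U`, so it is supported on the `i` with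
`ρ(u)_ii = 1`, in `I0`. -/
def S_SPL : Prop := ∀ (G : Type) [Group G] (U : Subgroup G) (n : ℕ) (C : Type) [Field C] [CharZero C]
  (ρ : G →* GL (Fin n) C), U.Normal → U.FiniteIndex →
  (∀ u ∈ U, (ρ u : Matrix (Fin n) (Fin n) C).IsDiag) →
  ∃ (n0 n1 : ℕ) (ρ0 : G →* GL (Fin n0) C) (ρ1 : G →* GL (Fin n1) C) (i0 : Fin n0 → Fin n)
    (i1 : Fin n1 → Fin n),
    (∀ u ∈ U, (ρ0 u : Matrix (Fin n0) (Fin n0) C) =
      Matrix.diagonal fun k => (ρ u : Matrix (Fin n) (Fin n) C) (i0 k) (i0 k)) ∧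
    (∀ u ∈ U, (ρ1 u : Matrix (Fin n1) (Fin n1) C) =
      Matrix.diagonal fun k => (ρ u : Matrix (Fin n) (Fin n) C) (i1 k) (i1 k)) ∧
    (∀ k, ∃ a : ℕ, 0 < a ∧ ∀ u ∈ U, (ρ u : Matrix (Fin n) (Fin n) C) (i0 k) (i0 k) ^ a = 1) ∧
    (∀ k, ¬ ∃ a : ℕ, 0 < a ∧ ∀ u ∈ U, (ρ u : Matrix (Fin n) (Fin n) C) (i1 k) (i1 k) ^ a = 1) ∧
    (∀ g i j, (ρ0 g : Matrix (Fin n0) (Fin n0) C) i j =
      (ρ g : Matrix (Fin n) (Fin n) C) (i0 i) (i0 j)) ∧
    (∀ g i j, (ρ1 g : Matrix (Fin n1) (Fin n1) C) i j =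
      (ρ g : Matrix (Fin n) (Fin n) C) (i1 i) (i1 j)) ∧
    (∀ g, (ρ g : Matrix (Fin n) (Fin n) C).trace = (ρ0 g : Matrix (Fin n0) (Fin n0) C).trace +
      (ρ1 g : Matrix (Fin n1) (Fin n1) C).trace) ∧
    Module.finrank C (Inv ρ) = Module.finrank C (Inv ρ0)

/-- PART C3 (the average of the trace).  Mathlib: `FDRep.average_char_eq_finrank_invariants`, or the projector
`|G/W|⁻¹ ∑ ρ(g)` (`LinearMap.IsProj.trace`). -/
def S_AVT : Prop := ∀ (G : Type) [Group G] (W : Subgroup G) (n : ℕ) (C : Type) [Field C] [CharZero C]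
  (ρ : G →* GL (Fin n) C), W.Normal → W.FiniteIndex → W ≤ ρ.ker →
  (∑ᶠ x : G ⧸ W, (ρ (Quotient.out x) : Matrix (Fin n) (Fin n) C).trace) =
    (W.index : C) * (Module.finrank C (Inv ρ) : C)

/-- PART C4 (subrepresentations of representations which are diagonal on `U`).
Proof.  The image of `T` is stable under the commuting diagonal matrices `R(u)`, `u ∈ U`: it is the direct sum of its
intersections with the weight spaces, and has a basis of weight vectors. -/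
def S_SUB : Prop := ∀ (G : Type) [Group G] (U : Subgroup G) (m : ℕ) (I : Type) [Fintype I]
  [DecidableEq I] (C : Type) [Field C] (R : G →* Matrix I I C) (σ : G →* GL (Fin m) C)
  (T : Matrix I (Fin m) C), (∀ u ∈ U, (R u).IsDiag) →
  (∀ g, R g * T = T * (σ g : Matrix (Fin m) (Fin m) C)) →
  (∀ x : Fin m → C, T.mulVec x = 0 → x = 0) →
  ∃ (Q : GL (Fin m) C) (i : Fin m → I), ∀ u ∈ U,
    ((Q⁻¹ * σ u * Q : GL (Fin m) C) : Matrix (Fin m) (Fin m) C) =
      Matrix.diagonal fun k => R u (i k) (i k)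

/-- the tensor representation `V^(⊗ a) ⊗ (V*)^(⊗ b)` in matrices -/
def tens {G : Type} [Group G] {n : ℕ} {C : Type} [Field C] (a b : ℕ) (ρ : G →* GL (Fin n) C)
    (g : G) : Matrix ((Fin a → Fin n) × (Fin b → Fin n)) ((Fin a → Fin n) × (Fin b → Fin n)) C :=
  fun x y => (∏ k, (ρ g : Matrix (Fin n) (Fin n) C) (x.1 k) (y.1 k)) *
    ∏ k, (ρ g⁻¹ : Matrix (Fin n) (Fin n) C) (y.2 k) (x.2 k)

/-- PART C5 (tensor representations). -/
def S_TEN : Prop := ∀ (G : Type) [Group G] (n a b : ℕ) (C : Type) [Field C]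
  (ρ : G →* GL (Fin n) C), tens a b ρ 1 = 1 ∧
  (∀ g h, tens a b ρ (g * h) = tens a b ρ g * tens a b ρ h) ∧
  (∀ g, (tens a b ρ g).trace = (ρ g : Matrix (Fin n) (Fin n) C).trace ^ a *
    (ρ g⁻¹ : Matrix (Fin n) (Fin n) C).trace ^ b) ∧
  ∀ g, (ρ g : Matrix (Fin n) (Fin n) C).IsDiag → (tens a b ρ g).IsDiag ∧
    ∀ x, tens a b ρ g x x = (∏ k, (ρ g : Matrix (Fin n) (Fin n) C) (x.1 k) (x.1 k)) *
      ∏ k, ((ρ g : Matrix (Fin n) (Fin n) C) (x.2 k) (x.2 k))⁻¹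

/-- PART C6 (semisimple and commutative on `U`).
Proof.  Clifford: the restriction to `U` is semisimple (see `S_RAD` in `Pool/Agent/H500/ZO/Stm.lean` and its proof,
the module of which is imported in `Pool/Agent/H500/ZO/All.lean`), and the `ρ(u)` commute, `C` is algebraically closed:
`C^n` is a direct sum of `U`-stable lines. -/
def S_SDG : Prop := ∀ (G : Type) [Group G] (U : Subgroup G) (n : ℕ) (C : Type) [Field C]
  [IsAlgClosed C] (ρ : G →* GL (Fin n) C), U.Normal → U.FiniteIndex → SemiS ρ →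
  (∀ g ∈ U, ∀ h ∈ U, ρ g * ρ h = ρ h * ρ g) →
  ∃ Q : GL (Fin n) C, ∀ u ∈ U, ((Q⁻¹ * ρ u * Q : GL (Fin n) C) : Matrix (Fin n) (Fin n) C).IsDiag

/-! ## Part D: representations attached to `P` -/

/-- PART D1 (semisimple representations attached to `P` are diagonal on `U`, with the `ℓ-adic` characters as
entries).  To be proved: `S_SDG → S_MAT`; use `Pool.Agent.H500.ZO.all_ABL` (`Pool/Agent/H500/ZO/All.lean`).
Proof.  By `S_ABL` the `ρ(u)`, `u ∈ U = ι.range`, commute; `S_SDG` gives `Q` with `Q⁻¹ ρ(ι s) Q` diagonal, with entries the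
continuous characters `δ_i` of `GK L`.  For `s` Frobenius at `w ∤ N ℓ`: `∏ (X - δ_i(s)) = ∏ (X - κ(ψ_i(w)))`
(`ι s = σ^f τ`: `Fld.frob`, `PotHecke.eq`), so `∑ δ_i = ∑ Ψ_i` at the Frobenius elements, hence everywhere (Chebotarev
`Pool.Agent.W528.Ord.chebK`, continuity), and by the linear independence of characters `δ_i = Ψ_{π i}` with a
permutation `π`; multiply `Q` by a permutation matrix. -/
def S_MAT : Prop := ∀ (K E : Type) [Field K] [NumberField K] [Field E] [NumberField E]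
  (j : E →+* QBar) (N n : ℕ) (P : HeightOneSpectrum (𝓞 K) → (𝓞 E)[X])
  (U : Subgroup (GK K)) (L : Type) [Field L] [NumberField L] [Algebra K L] (ι : GK L →* GK K)
  (e : ℕ) (t : Fin n → (L →+* QBar) → ℕ) (ψ : Fin n → (Ideal (𝓞 L) →*₀ ZBar)), 2 ≤ N →
  PotHecke j N n P U L ι e t ψ →
  ∀ (ℓ : ℕ) [Fact ℓ.Prime] (κ : QBar →+* PadicAlgCl ℓ) (Ψ : Fin n → (GK L →* (PadicAlgCl ℓ)ˣ)),
  (∀ i, Continuous (fun s => (Ψ i s : PadicAlgCl ℓ))) →
  (∀ i, ∀ w : HeightOneSpectrum (𝓞 L), (N : 𝓞 L) ∉ w.asIdeal → (ℓ : 𝓞 L) ∉ w.asIdeal →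
    ∀ s, IsFrob w s → (Ψ i s : PadicAlgCl ℓ) = κ (ψ i w.asIdeal : ZBar)) →
  ∀ ρ : GK K →* GL (Fin n) (PadicAlgCl ℓ),
  Continuous (fun g => (ρ g : Matrix (Fin n) (Fin n) (PadicAlgCl ℓ))) → SemiS ρ →
  (∀ v : HeightOneSpectrum (𝓞 K), (N : 𝓞 K) ∉ v.asIdeal → (ℓ : 𝓞 K) ∉ v.asIdeal →
    (∀ τ, IsInert v τ → ρ τ = 1) ∧ ∀ σ, IsFrob v σ →
    (ρ σ : Matrix (Fin n) (Fin n) (PadicAlgCl ℓ)).charpoly =
      (P v).map ((κ.comp j).comp (algebraMap (𝓞 E) E))) →
  ∃ Q : GL (Fin n) (PadicAlgCl ℓ), ∀ s : GK L,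
    ((Q⁻¹ * ρ (ι s) * Q : GL (Fin n) (PadicAlgCl ℓ)) : Matrix (Fin n) (Fin n) (PadicAlgCl ℓ)) =
      Matrix.diagonal fun i => (Ψ i s : PadicAlgCl ℓ)

end Pool.Agent.H500.ME
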